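import Mathlib

/-!
Instances of continuous Euclidean k-means with candidate centres, and convex programs with
assignment variables for them.
-/

open scoped BigOperators

namespace Pool.Agent.Lib.P47k

/-- The unit vector `p` of `ℝ ^ N`. -/
noncomputable def unit {N : ℕ} (p : Fin N) : EuclideanSpace ℝ (Fin N) :=
  EuclideanSpace.single p 1

/-- A k-means instance: `m` candidate centres and at most `M` points in `ℝ ^ N`, the points of the
instance are the `cl j` with `j ∈ clients` (a multiset). -/
structure KInst (m M : ℕ) where
  /-- the dimension -/
  N : ℕ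
  /-- the candidate centres -/
  fac : Fin m → EuclideanSpace ℝ (Fin N)
  /-- the positions of the points -/
  cl : Fin M → EuclideanSpace ℝ (Fin N)
  /-- the points that belong to the instance -/
  clients : Finset (Fin M)

variable {m M : ℕ}

/-- The k-means cost of the centres `Z`: the sum over the points of the instance of the squared
distance to the nearest centre. -/
noncomputable def KInst.cost (I : KInst m M) (Z : Finset (EuclideanSpace ℝ (Fin I.N))) : ℝ :=
  ∑ j ∈ I.clients, ⨅ z : Z, ‖I.cl j - z.1‖ ^ 2

/-- The minimum cost of at most `k` centres anywhere in `ℝ ^ N` (continuous k-means). -/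
noncomputable def KInst.opt (I : KInst m M) (k : ℕ) : ℝ :=
  ⨅ Z : {Z : Finset (EuclideanSpace ℝ (Fin I.N)) // Z.Nonempty ∧ Z.card ≤ k}, I.cost Z.1

/-- The set of the candidate centres with names in `S`. -/
noncomputable def KInst.centres (I : KInst m M) (S : Finset (Fin m)) :
    Finset (EuclideanSpace ℝ (Fin I.N)) := by
  classical
  exact S.image I.fac

/-- The instance in which the candidate `i` of `I` has the new name `g i` and the point `j` has the
new name `h j`. -/
def KInst.rename (I : KInst m M) (g : Equiv.Perm (Fin m)) (h : Equiv.Perm (Fin M)) :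
    KInst m M where
  N := I.N
  fac i := I.fac (g.symm i)
  cl j := I.cl (h.symm j)
  clients := I.clients.map h.toEmbedding

/-- The assignment `σ` sends every point of the instance to a nearest chosen candidate centre. -/
def KInst.Nearest (I : KInst m M) (S : Finset (Fin m)) (σ : Fin M → Fin m) : Prop :=
  (∀ j, σ j ∈ S) ∧ ∀ j ∈ I.clients, ∀ i ∈ S, ‖I.cl j - I.fac (σ j)‖ ≤ ‖I.cl j - I.fac i‖

/-- The program with the set `Feas` of feasible points, in which the set `S` of chosen candidate
centres with the assignment `σ` is the point `pt S σ`, approximates the k-means optimum within the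
factor `α`: some affine function `w y + w0`, which is equal to the cost of the chosen centres at
`pt S σ` whenever `S` is nonempty with at most `k` elements and `σ` sends every point of the
instance to a nearest chosen centre, is at least `opt / α` on `Feas`. -/
def KInst.ApproxBy (I : KInst m M) {Y : Type} [AddCommGroup Y] [Module ℝ Y] (Feas : Set Y)
    (pt : Finset (Fin m) → (Fin M → Fin m) → Y) (k : ℕ) (α : ℝ) : Prop :=
  ∃ (w : Y →ₗ[ℝ] ℝ) (w0 : ℝ),
    (∀ S σ, S.Nonempty → S.card ≤ k → I.Nearest S σ → w (pt S σ) + w0 = I.cost (I.centres S)) ∧
    ∀ y ∈ Feas, I.opt k / α ≤ w y + w0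

/-- Graph instances: every candidate centre is `0`, a unit vector or a far point `(4 M + 4) e_p`;
every point of the instance is the sum of two different unit vectors that are candidate centres, or
a far point that is a candidate centre. -/
structure KInst.IsGraph (I : KInst m M) : Prop where
  /-- the candidate centres -/
  fac : ∀ i, I.fac i = 0 ∨ ∃ p, I.fac i = unit p ∨ I.fac i = (4 * (M : ℝ) + 4) • unit p
  /-- the points of the instance -/
  cl : ∀ j ∈ I.clients,
    (∃ p q, p ≠ q ∧ I.cl j = unit p + unit q ∧ (∃ i, I.fac i = unit p) ∧ ∃ i, I.fac i = unit q) ∨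
    ∃ p, I.cl j = (4 * (M : ℝ) + 4) • unit p ∧ ∃ i, I.fac i = (4 * (M : ℝ) + 4) • unit p

/-- The set of the `p` such that the far point `(4 M + 4) e_p` is a point of the instance. -/
noncomputable def KInst.far (I : KInst m M) : Finset (Fin I.N) := by
  classical
  exact Finset.univ.filter fun p => ∃ j ∈ I.clients, I.cl j = (4 * (M : ℝ) + 4) • unit p

end Pool.Agent.Lib.P47k
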