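import Mathlib

/-!
Random graphs with shifts: the ends of a set of edges, in-degrees, the signed double cover.
-/

open scoped BigOperators

namespace Pool.Agent.Lib.P47k

variable {n Δ : ℕ}

/-- The vertices touched by the edge set `C`; the edge `(i, j)` joins `i` and `f (i, j)`. -/
def vts (f : Fin n × Fin Δ → Fin n) (C : Finset (Fin n × Fin Δ)) : Finset (Fin n) :=
  C.image Prod.fst ∪ C.image f

/-- The number of edges with target `v`. -/
def indeg (f : Fin n × Fin Δ → Fin n) (v : Fin n) : ℕ :=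
  (Finset.univ.filter fun e => f e = v).card

/-- The edges of the signed double cover: the edge `(i, j)` with the shift `b` gives the two edges
between `(i, a)` and `(f (i, j), a + b + 1)`, `a ∈ ZMod 2`. -/
def lnk (f : Fin n × Fin Δ → Fin n) (b : Fin n × Fin Δ → ZMod 2)
    (t : (Fin n × Fin Δ) × ZMod 2) : Finset (Fin n × ZMod 2) :=
  {(t.1.1, t.2), (f t.1, t.2 + b t.1 + 1)}

/-- The pairs `(A, C)` with `|A| = v`, `|C| = m` and all ends of the edges in `C` in `A`. -/
def pairsN (n Δ v m : ℕ) (f : Fin n × Fin Δ → Fin n) :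
    Finset (Finset (Fin n) × Finset (Fin n × Fin Δ)) :=
  Finset.univ.filter (fun T => T.1.card = v ∧ T.2.card = m ∧
    (∀ e ∈ T.2, e.1 ∈ T.1) ∧ ∀ e ∈ T.2, f e ∈ T.1)

end Pool.Agent.Lib.P47k
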