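import Pool.Agent.Lib.P325L.Cnt
import Pool.Agent.Lib.P47k.GDefs

/-!
Counting dense subgraphs over all maps `f : Fin n × Fin Δ → Fin n`.
-/

open scoped BigOperators

namespace Pool.Agent.Lib.P47k

namespace CntNAux

open Pool.Agent.Lib.P325L.ChBdAux

theorem card_f (n Δ : ℕ) (B : Finset (Fin n)) (C : Finset (Fin n × Fin Δ)) :
    (Finset.univ.filter (fun f : Fin n × Fin Δ → Fin n => ∀ e ∈ C, f e ∈ B)).card =
      B.card ^ C.card * n ^ (n * Δ - C.card) := by
  classical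
  have h1 : (Finset.univ.filter (fun f : Fin n × Fin Δ → Fin n => ∀ e ∈ C, f e ∈ B)) =
      Fintype.piFinset (fun e => if e ∈ C then B else Finset.univ) := by
    ext f
    rw [Finset.mem_filter, Fintype.mem_piFinset]
    constructor
    · rintro ⟨-, h⟩ e
      by_cases he : e ∈ C
      · rw [if_pos he]
        exact h e he
      · rw [if_neg he]
        exact Finset.mem_univ _
    · intro h
      refine ⟨Finset.mem_univ _, fun e he => ?_⟩
      have := h e
      rwa [if_pos he] at this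
  rw [h1, Fintype.card_piFinset]
  have h2 : ∀ e : Fin n × Fin Δ, (if e ∈ C then B else Finset.univ).card =
      if e ∈ C then B.card else n := by
    intro e
    split_ifs
    · rfl
    · simp
  simp_rw [h2]
  rw [Finset.prod_ite, Finset.prod_const, Finset.prod_const]
  have h3 : (Finset.univ.filter (fun e => e ∈ C)) = C := by ext; simp
  have h4 : (Finset.univ.filter (fun e => ¬ e ∈ C)) = Cᶜ := by ext; simp
  rw [h3, h4, Finset.card_compl]
  simp

theorem filter_card (α : Type) [Fintype α] [DecidableEq α] (b : ℕ) :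
    (Finset.univ.filter (fun B : Finset α => B.card = b)).card = (Fintype.card α).choose b := by
  have h : (Finset.univ.filter (fun B : Finset α => B.card = b)) =
      Finset.powersetCard b Finset.univ := by
    ext B
    simp [Finset.mem_powersetCard]
  rw [h, Finset.card_powersetCard, Finset.card_univ]

theorem filter_C (n Δ m : ℕ) (A : Finset (Fin n)) :
    (Finset.univ.filter (fun C : Finset (Fin n × Fin Δ) => C.card = m ∧ ∀ e ∈ C, e.1 ∈ A)).card =
      (A.card * Δ).choose m := by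
  classical
  have h : (Finset.univ.filter
      (fun C : Finset (Fin n × Fin Δ) => C.card = m ∧ ∀ e ∈ C, e.1 ∈ A)) =
      Finset.powersetCard m (A ×ˢ (Finset.univ : Finset (Fin Δ))) := by
    ext C
    rw [Finset.mem_filter, Finset.mem_powersetCard]
    constructor
    · rintro ⟨-, h1, h2⟩
      exact ⟨fun e he => Finset.mem_product.2 ⟨h2 e he, Finset.mem_univ _⟩, h1⟩
    · rintro ⟨h1, h2⟩
      exact ⟨Finset.mem_univ _, h2, fun e he => (Finset.mem_product.1 (h1 he)).1⟩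
  rw [h, Finset.card_powersetCard, Finset.card_product]
  simp

theorem cnt_nat (n Δ v m : ℕ) :
    ∑ f : Fin n × Fin Δ → Fin n, (pairsN n Δ v m f).card =
      n.choose v * ((v * Δ).choose m * (v ^ m * n ^ (n * Δ - m))) := by
  classical
  unfold pairsN
  simp_rw [Finset.card_filter]
  rw [Finset.sum_comm]
  have key : ∀ T : Finset (Fin n) × Finset (Fin n × Fin Δ),
      (∑ f : Fin n × Fin Δ → Fin n, if (T.1.card = v ∧ T.2.card = m ∧
        (∀ e ∈ T.2, e.1 ∈ T.1) ∧ ∀ e ∈ T.2, f e ∈ T.1) then 1 else 0) =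
      if T.1.card = v then
        (if (T.2.card = m ∧ ∀ e ∈ T.2, e.1 ∈ T.1) then v ^ m * n ^ (n * Δ - m) else 0)
        else 0 := by
    rintro ⟨A, C⟩
    by_cases hA : A.card = v
    · by_cases hC : C.card = m ∧ ∀ e ∈ C, e.1 ∈ A
      · rw [if_pos hA, if_pos hC]
        have h1 := card_f n Δ A C
        rw [Finset.card_filter, hA, hC.1] at h1
        rw [← h1]
        refine Finset.sum_congr rfl fun f _ => ?_
        by_cases hf : ∀ e ∈ C, f e ∈ A
        · rw [if_pos hf, if_pos ⟨hA, hC.1, hC.2, hf⟩]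
        · rw [if_neg hf, if_neg (fun h => hf h.2.2.2)]
      · rw [if_pos hA, if_neg hC]
        refine Finset.sum_eq_zero fun f _ => ?_
        rw [if_neg (fun h => hC ⟨h.2.1, h.2.2.1⟩)]
    · rw [if_neg hA]
      refine Finset.sum_eq_zero fun f _ => ?_
      rw [if_neg (fun h => hA h.1)]
  rw [Finset.sum_congr rfl fun T _ => key T, Fintype.sum_prod_type]
  have hC' : ∀ A : Finset (Fin n), (∑ C : Finset (Fin n × Fin Δ),
      if A.card = v then (if (C.card = m ∧ ∀ e ∈ C, e.1 ∈ A) then v ^ m * n ^ (n * Δ - m) else 0)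
        else 0) = if A.card = v then (v * Δ).choose m * (v ^ m * n ^ (n * Δ - m)) else 0 := by
    intro A
    by_cases hA : A.card = v
    · have hK : ∀ K : ℕ, (A.card * Δ).choose m * K = ∑ C : Finset (Fin n × Fin Δ),
          if (C.card = m ∧ ∀ e ∈ C, e.1 ∈ A) then K else 0 := by
        intro K
        rw [← Finset.sum_filter, Finset.sum_const, filter_C, smul_eq_mul]
      have hK2 := hK (v ^ m * n ^ (n * Δ - m))
      rw [hA] at hK2
      rw [if_pos hA, hK2]
      refine Finset.sum_congr rfl fun C _ => ?_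
      rw [if_pos hA]
    · rw [if_neg hA]
      refine Finset.sum_eq_zero fun C _ => ?_
      rw [if_neg hA]
  rw [Finset.sum_congr rfl fun A _ => hC' A, ← Finset.sum_filter, Finset.sum_const,
    filter_card, Fintype.card_fin, smul_eq_mul]

theorem ch_bd1 (n Δ v m : ℕ) (hn : 1 ≤ n) (hv : 1 ≤ v) (hvm : v ≤ m) :
    (n.choose v : ℝ) * ((v * Δ).choose m : ℝ) * ((v : ℝ) / n) ^ m ≤
      (9 * (Δ : ℝ)) ^ m * ((m : ℝ) / n) ^ (m - v) := by
  obtain ⟨r, hr⟩ := Nat.exists_eq_add_of_le hvm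
  have hm : 1 ≤ m := by omega
  have e1 : m - v = r := by omega
  rw [e1]
  have hn0 : (0 : ℝ) < n := by exact_mod_cast hn
  have hv0 : (0 : ℝ) < v := by exact_mod_cast hv
  have hm0 : (0 : ℝ) < m := by exact_mod_cast hm
  have h1 := choose_le n v
  have h3 := choose_le (v * Δ) m
  push_cast at h3
  have hprod : ((n.choose v : ℝ) * (v : ℝ) ^ v) * (((v * Δ).choose m : ℝ) * (m : ℝ) ^ m) ≤
      (Real.exp v * (n : ℝ) ^ v) * (Real.exp m * ((v : ℝ) * Δ) ^ m) :=
    mul_le_mul h1 h3 (by positivity) (by positivity)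
  have hexp : Real.exp v * Real.exp m ≤ 9 ^ m := by
    rw [← Real.exp_add]
    have h4 : (v : ℝ) + m ≤ (m : ℝ) * 2 := by
      have : (v : ℝ) ≤ m := by exact_mod_cast hvm
      linarith
    have h5 : Real.exp ((m : ℝ) * 2) = Real.exp 2 ^ m := by
      rw [← Real.exp_nat_mul]
    refine (Real.exp_le_exp.2 h4).trans ?_
    rw [h5]
    exact pow_le_pow_left₀ (Real.exp_pos 2).le exp_two_lt m
  have h6 : (v : ℝ) ≤ m := by exact_mod_cast hvm
  have hpow : (v : ℝ) ^ m * (v : ℝ) ^ r ≤ (m : ℝ) ^ m * (m : ℝ) ^ r :=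
    mul_le_mul (pow_le_pow_left₀ hv0.le h6 _) (pow_le_pow_left₀ hv0.le h6 _)
      (by positivity) (by positivity)
  have hX : 0 < (v : ℝ) ^ v * (m : ℝ) ^ m * (n : ℝ) ^ m := by positivity
  rw [mul_pow, div_pow, div_pow]
  rw [← mul_le_mul_iff_left₀ hX]
  have eL : (n.choose v : ℝ) * ((v * Δ).choose m : ℝ) *
      ((v : ℝ) ^ m / (n : ℝ) ^ m) * ((v : ℝ) ^ v * (m : ℝ) ^ m * (n : ℝ) ^ m) =
      ((n.choose v : ℝ) * (v : ℝ) ^ v) *
      (((v * Δ).choose m : ℝ) * (m : ℝ) ^ m) * (v : ℝ) ^ m := by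
    field_simp
  have eR : 9 ^ m * (Δ : ℝ) ^ m * ((m : ℝ) ^ r / (n : ℝ) ^ r) *
      ((v : ℝ) ^ v * (m : ℝ) ^ m * (n : ℝ) ^ m) =
      9 ^ m * (Δ : ℝ) ^ m * ((v : ℝ) ^ v * (n : ℝ) ^ v) * ((m : ℝ) ^ m * (m : ℝ) ^ r) := by
    have : (n : ℝ) ^ m = (n : ℝ) ^ v * (n : ℝ) ^ r := by
      rw [← pow_add, ← hr]
    rw [this]
    field_simp
  rw [eL, eR]
  calc ((n.choose v : ℝ) * (v : ℝ) ^ v) * (((v * Δ).choose m : ℝ) * (m : ℝ) ^ m) * (v : ℝ) ^ m
      ≤ (Real.exp v * (n : ℝ) ^ v) * (Real.exp m * ((v : ℝ) * Δ) ^ m) * (v : ℝ) ^ m :=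
        mul_le_mul_of_nonneg_right hprod (by positivity)
    _ = (Real.exp v * Real.exp m) * ((Δ : ℝ) ^ m * ((v : ℝ) ^ v * (n : ℝ) ^ v) *
          ((v : ℝ) ^ m * (v : ℝ) ^ r)) := by
        have h9 : (v : ℝ) ^ m = (v : ℝ) ^ v * (v : ℝ) ^ r := by
          rw [← pow_add, ← hr]
        rw [mul_pow]
        nth_rewrite 1 [h9]
        ring
    _ ≤ 9 ^ m * ((Δ : ℝ) ^ m * ((v : ℝ) ^ v * (n : ℝ) ^ v) * ((m : ℝ) ^ m * (m : ℝ) ^ r)) := by
        apply mul_le_mul hexp _ (by positivity) (by positivity)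
        exact mul_le_mul_of_nonneg_left hpow (by positivity)
    _ = _ := by ring

end CntNAux

open CntNAux

theorem cntN (n Δ v m : ℕ) (hn : 1 ≤ n) (hv : 1 ≤ v) (hvm : v ≤ m) :
    (∑ f : Fin n × Fin Δ → Fin n, ((pairsN n Δ v m f).card : ℝ)) ≤
      (n : ℝ) ^ (n * Δ) * ((9 * (Δ : ℝ)) ^ m * ((m : ℝ) / n) ^ (m - v)) := by
  have hn0 : (0 : ℝ) < n := by exact_mod_cast hn
  rw [← Nat.cast_sum, cnt_nat]
  by_cases hmΔ : m ≤ v * Δ
  swap
  · rw [Nat.choose_eq_zero_of_lt (not_le.1 hmΔ)]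
    simp only [zero_mul, mul_zero, Nat.cast_zero]
    positivity
  by_cases han : v ≤ n
  swap
  · rw [Nat.choose_eq_zero_of_lt (not_le.1 han)]
    simp only [zero_mul, Nat.cast_zero]
    positivity
  have hle : m ≤ n * Δ := hmΔ.trans (Nat.mul_le_mul_right Δ han)
  have h := ch_bd1 n Δ v m hn hv hvm
  refine le_trans (le_of_eq ?_) (mul_le_mul_of_nonneg_left h (by positivity))
  have e : (n : ℝ) ^ (n * Δ) = (n : ℝ) ^ (n * Δ - m) * (n : ℝ) ^ m := by
    rw [← pow_add]
    congr 1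
    omega
  push_cast
  rw [div_pow, e]
  field_simp

end Pool.Agent.Lib.P47k
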