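import Pool.Agent.Lib.P47k.GDefs

/-!
Module Deg2 (0.7h; Mathlib only). The mean of the sum of the squares of the in-degrees.
PROOF. ∑_v (indeg f v)^2 = the number of the pairs (e, e') with f e = f e'. Exchange the sums: for e = e' all n^(nΔ) maps f, for e ≠ e' at most
n^(nΔ) / n maps (f e' is determined by f e: the map f ↦ (f, any value at e') ... ; or: n * #{f : f e = f e'} = #(all f), since
f ↦ (Function.update f e' c)). In total at most n^(nΔ) (nΔ + (nΔ)^2/n) ≤ 2 n Δ^2 n^(nΔ).
-/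

open scoped BigOperators

namespace Pool.Agent.Lib.P47k

namespace Deg2Aux

theorem indeg_sq (n Δ : ℕ) (f : Fin n × Fin Δ → Fin n) :
    (∑ v, (indeg f v) ^ 2) = ∑ e : Fin n × Fin Δ, ∑ e' : Fin n × Fin Δ,
      (if f e = f e' then 1 else 0) := by
  have h1 : ∀ v, (indeg f v) ^ 2 = ∑ e : Fin n × Fin Δ, ∑ e' : Fin n × Fin Δ,
      (if f e = v then 1 else 0) * (if f e' = v then 1 else 0) := by
    intro v
    unfold indeg
    rw [sq, Finset.card_filter, Finset.sum_mul_sum]
  rw [Finset.sum_congr rfl fun v _ => h1 v, Finset.sum_comm]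
  refine Finset.sum_congr rfl fun e _ => ?_
  rw [Finset.sum_comm]
  refine Finset.sum_congr rfl fun e' _ => ?_
  rw [Finset.sum_eq_single (f e)]
  · by_cases h : f e = f e'
    · simp [h]
    · have h' : ¬ f e' = f e := fun q => h q.symm
      simp [h, h']
  · intro b _ hb
    have h' : ¬ f e = b := fun q => hb q.symm
    simp [h']
  · intro h
    exact absurd (Finset.mem_univ _) h

theorem card_eq (n Δ : ℕ) (e e' : Fin n × Fin Δ) (hee : e ≠ e') :
    n * (Finset.univ.filter fun f : Fin n × Fin Δ → Fin n => f e = f e').card ≤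
      n ^ (n * Δ) := by
  classical
  have h1 : n * (Finset.univ.filter fun f : Fin n × Fin Δ → Fin n => f e = f e').card =
      ((Finset.univ : Finset (Fin n)) ×ˢ
        (Finset.univ.filter fun f : Fin n × Fin Δ → Fin n => f e = f e')).card := by
    rw [Finset.card_product]; simp
  have h2 : n ^ (n * Δ) = (Finset.univ : Finset (Fin n × Fin Δ → Fin n)).card := by
    simp [Finset.card_univ, Fintype.card_prod, Fintype.card_fin]
  rw [h1, h2]
  refine Finset.card_le_card_of_injOn (fun p => Function.update p.2 e' p.1)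
    (fun _ _ => by simp) ?_
  rintro ⟨c, f⟩ hf ⟨d, g⟩ hg h
  simp only [Finset.coe_product, Set.mem_prod, Finset.mem_coe, Finset.mem_filter,
    Finset.mem_univ, true_and] at hf hg
  have hcd : c = d := by
    have := congrFun h e'
    simpa using this
  have hfe : f e = g e := by
    have := congrFun h e
    simpa [Function.update_of_ne hee] using this
  have hfg : f = g := by
    funext x
    by_cases hx : x = e'
    · rw [hx, ← hf, ← hg, hfe]
    · have := congrFun h x
      simpa [Function.update_of_ne hx] using this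
  rw [hcd, hfg]

end Deg2Aux

open Deg2Aux

theorem deg2 (n Δ : ℕ) (hn : 1 ≤ n) (hΔ : 1 ≤ Δ) :
    (∑ f : Fin n × Fin Δ → Fin n, ∑ v, (indeg f v : ℝ) ^ 2) ≤
      (n : ℝ) ^ (n * Δ) * (2 * n * (Δ : ℝ) ^ 2) := by
  classical
  have hn0 : (0 : ℝ) < n := by exact_mod_cast hn
  have hΔ1 : (1 : ℝ) ≤ Δ := by exact_mod_cast hΔ
  have hN0 : (0 : ℝ) ≤ (n : ℝ) ^ (n * Δ) := by positivity
  have h1 : (∑ f : Fin n × Fin Δ → Fin n, ∑ v, (indeg f v : ℝ) ^ 2) =
      ∑ e : Fin n × Fin Δ, ∑ e' : Fin n × Fin Δ,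
        (((Finset.univ.filter fun f : Fin n × Fin Δ → Fin n => f e = f e').card : ℕ) : ℝ) := by
    have : (∑ f : Fin n × Fin Δ → Fin n, ∑ v, (indeg f v) ^ 2) =
        ∑ e : Fin n × Fin Δ, ∑ e' : Fin n × Fin Δ,
          (Finset.univ.filter fun f : Fin n × Fin Δ → Fin n => f e = f e').card := by
      rw [Finset.sum_congr rfl fun f _ => indeg_sq n Δ f, Finset.sum_comm]
      refine Finset.sum_congr rfl fun e _ => ?_
      rw [Finset.sum_comm]
      refine Finset.sum_congr rfl fun e' _ => ?_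
      rw [Finset.card_filter]
    exact_mod_cast this
  rw [h1]
  have h2 : ∀ e e' : Fin n × Fin Δ,
      (((Finset.univ.filter fun f : Fin n × Fin Δ → Fin n => f e = f e').card : ℕ) : ℝ) ≤
        (if e = e' then (n : ℝ) ^ (n * Δ) else 0) + (n : ℝ) ^ (n * Δ) / n := by
    intro e e'
    have hq : (0 : ℝ) ≤ (n : ℝ) ^ (n * Δ) / n := by positivity
    by_cases hee : e = e'
    · subst hee
      rw [if_pos rfl]
      have : (((Finset.univ.filter fun f : Fin n × Fin Δ → Fin n => f e = f e).card : ℕ) : ℝ) =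
          (n : ℝ) ^ (n * Δ) := by
        simp [Fintype.card_prod, Fintype.card_fin]
      rw [this]
      linarith
    · rw [if_neg hee, zero_add, le_div_iff₀ hn0, mul_comm]
      exact_mod_cast card_eq n Δ e e' hee
  calc (∑ e : Fin n × Fin Δ, ∑ e' : Fin n × Fin Δ,
        (((Finset.univ.filter fun f : Fin n × Fin Δ → Fin n => f e = f e').card : ℕ) : ℝ))
      ≤ ∑ e : Fin n × Fin Δ, ∑ e' : Fin n × Fin Δ,
        ((if e = e' then (n : ℝ) ^ (n * Δ) else 0) + (n : ℝ) ^ (n * Δ) / n) :=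
        Finset.sum_le_sum fun e _ => Finset.sum_le_sum fun e' _ => h2 e e'
    _ = (n * Δ : ℝ) * (n : ℝ) ^ (n * Δ) + (n * Δ : ℝ) * ((n * Δ : ℝ) *
        ((n : ℝ) ^ (n * Δ) / n)) := by
        simp only [Finset.sum_add_distrib, Finset.sum_ite_eq, Finset.mem_univ, if_true,
          Finset.sum_const, Finset.card_univ, Fintype.card_prod, Fintype.card_fin, nsmul_eq_mul,
          Nat.cast_mul]
    _ = (n : ℝ) ^ (n * Δ) * (n * Δ + n * (Δ : ℝ) ^ 2) := by
        field_simp
    _ ≤ (n : ℝ) ^ (n * Δ) * (2 * n * (Δ : ℝ) ^ 2) := by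
        refine mul_le_mul_of_nonneg_left ?_ hN0
        nlinarith [mul_nonneg hn0.le (by nlinarith : (0 : ℝ) ≤ (Δ : ℝ) ^ 2 - Δ)]

end Pool.Agent.Lib.P47k
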