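import Pool.Agent.Lib.P47k.GDefs

/-!
Module Disc (1.8h; Mathlib only). The discrepancy of the signed double cover of a random graph.
PROOF. Fix B, e = (i, j), and let Y_e(c, β) = ∑_{a : ZMod 2} [(i, a) ∈ B][(c, a + β + 1) ∈ B] ∈ [0, 2] for (c, β) ∈ Fin n × ZMod 2. The number of the
t with lnk f b t ⊆ B is ∑_e Y_e(f e, b e). The mean of Y_e over (c, β) is μ_e = #{a : (i, a) ∈ B} * |B|/(2n) (for fixed a the map
(c, β) ↦ (c, a + β + 1) is a bijection), and ∑_e μ_e = Δ |B| |B|/(2n) = 2 n Δ (|B|/(2n))^2. If B is bad for (f, b) then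
1 ≤ exp (λ (∑_e (μ_e - Y_e) - 2 n Δ δ)), λ = δ/4 ≤ 1/4. Sum over (f, b) (product over e, Finset.prod_univ_sum / Fintype.piFinset):
∑_{(f,b)} ∏_e exp (λ (μ_e - Y_e)) = ∏_e ∑_{(c,β)} exp (λ (μ_e - Y_e)), and exp x ≤ 1 + x + x^2 for |x| ≤ 1 (here |x| ≤ 2 λ ≤ 1/2) gives
∑_{(c,β)} exp (λ(μ_e - Y_e)) ≤ 2n (1 + 4 λ^2) ≤ 2n exp (4 λ^2). So the number of bad (f, b) for B is at most
(2n)^(nΔ) exp (nΔ (4 λ^2 - 2 λ δ)) = (2n)^(nΔ) exp (- δ^2 nΔ/4) ≤ (2n)^(nΔ) exp (-4 n). There are 4^n sets B, and 4^n exp (-4n) ≤ 4 exp (-4) ≤ 1/8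
(4 exp(-4) < 1 to the power n ≥ 1).
-/

open scoped BigOperators

namespace Pool.Agent.Lib.P47k

namespace DiscAux

open Finset

variable {n : ℕ}

/-- The indicator of `B`. -/
noncomputable def ind (B : Finset (Fin n × ZMod 2)) (x : Fin n × ZMod 2) : ℝ :=
  if x ∈ B then 1 else 0

/-- The number of `a` with `(i, a) ∈ B` and `(c.1, a + c.2 + 1) ∈ B`. -/
noncomputable def Y (B : Finset (Fin n × ZMod 2)) (i : Fin n) (c : Fin n × ZMod 2) : ℝ :=
  ∑ a : ZMod 2, ind B (i, a) * ind B (c.1, a + c.2 + 1)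

/-- The mean of `Y B i`. -/
noncomputable def mu (B : Finset (Fin n × ZMod 2)) (i : Fin n) : ℝ :=
  (∑ a : ZMod 2, ind B (i, a)) * ((B.card : ℝ) / (2 * n))

lemma ind_nonneg (B : Finset (Fin n × ZMod 2)) (x : Fin n × ZMod 2) : 0 ≤ ind B x := by
  unfold ind; split_ifs <;> norm_num

lemma ind_le_one (B : Finset (Fin n × ZMod 2)) (x : Fin n × ZMod 2) : ind B x ≤ 1 := by
  unfold ind; split_ifs <;> norm_num

lemma sum_ind (B : Finset (Fin n × ZMod 2)) : ∑ x, ind B x = B.card := by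
  simp [ind]

lemma Y_nonneg (B : Finset (Fin n × ZMod 2)) (i : Fin n) (c : Fin n × ZMod 2) : 0 ≤ Y B i c :=
  Finset.sum_nonneg fun _ _ => mul_nonneg (ind_nonneg _ _) (ind_nonneg _ _)

lemma Y_le (B : Finset (Fin n × ZMod 2)) (i : Fin n) (c : Fin n × ZMod 2) : Y B i c ≤ 2 := by
  have h : Y B i c ≤ ∑ _a : ZMod 2, (1 : ℝ) :=
    Finset.sum_le_sum fun a _ => mul_le_one₀ (ind_le_one _ _) (ind_nonneg _ _) (ind_le_one _ _)
  simpa using h

lemma sumind_nonneg (B : Finset (Fin n × ZMod 2)) (i : Fin n) :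
    0 ≤ ∑ a : ZMod 2, ind B (i, a) :=
  Finset.sum_nonneg fun _ _ => ind_nonneg _ _

lemma sumind_le (B : Finset (Fin n × ZMod 2)) (i : Fin n) :
    ∑ a : ZMod 2, ind B (i, a) ≤ 2 := by
  have h : ∑ a : ZMod 2, ind B (i, a) ≤ ∑ _a : ZMod 2, (1 : ℝ) :=
    Finset.sum_le_sum fun a _ => ind_le_one _ _
  simpa using h

lemma card_div_le (hn : 1 ≤ n) (B : Finset (Fin n × ZMod 2)) :
    (B.card : ℝ) / (2 * n) ≤ 1 := by
  have hn' : (0 : ℝ) < 2 * n := by positivity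
  rw [div_le_one hn']
  have h : B.card ≤ n * 2 := by
    have := Finset.card_le_univ B
    simpa using this
  have h' : (B.card : ℝ) ≤ n * 2 := by exact_mod_cast h
  linarith

lemma mu_nonneg (B : Finset (Fin n × ZMod 2)) (i : Fin n) : 0 ≤ mu B i :=
  mul_nonneg (sumind_nonneg _ _) (by positivity)

lemma mu_le (hn : 1 ≤ n) (B : Finset (Fin n × ZMod 2)) (i : Fin n) : mu B i ≤ 2 := by
  have h1 := sumind_le B i
  have h2 := card_div_le hn B
  have h3 := sumind_nonneg B i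
  have h4 : (0 : ℝ) ≤ (B.card : ℝ) / (2 * n) := by positivity
  unfold mu
  nlinarith

lemma sum_Y (B : Finset (Fin n × ZMod 2)) (i : Fin n) :
    ∑ c, Y B i c = (∑ a : ZMod 2, ind B (i, a)) * (B.card : ℝ) := by
  unfold Y
  rw [Finset.sum_comm, Finset.sum_mul]
  refine Finset.sum_congr rfl fun a _ => ?_
  rw [← Finset.mul_sum]
  congr 1
  rw [← sum_ind B]
  refine Fintype.sum_equiv
    (Equiv.prodCongr (Equiv.refl (Fin n)) ((Equiv.addLeft a).trans (Equiv.addRight 1))) _ _ ?_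
  intro c
  rfl

lemma sum_sub (hn : 1 ≤ n) (B : Finset (Fin n × ZMod 2)) (i : Fin n) :
    ∑ c, (mu B i - Y B i c) = 0 := by
  rw [Finset.sum_sub_distrib, sum_Y]
  have hn' : (n : ℝ) ≠ 0 := by positivity
  simp only [Finset.sum_const, Finset.card_univ, Fintype.card_prod, Fintype.card_fin, ZMod.card,
    nsmul_eq_mul]
  unfold mu
  push_cast
  field_simp
  ring

lemma sum_mu (hn : 1 ≤ n) (Δ : ℕ) (B : Finset (Fin n × ZMod 2)) :
    ∑ e : Fin n × Fin Δ, mu B e.1 = 2 * ((n : ℝ) * Δ) * ((B.card : ℝ) / (2 * n)) ^ 2 := by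
  have hn' : (n : ℝ) ≠ 0 := by positivity
  rw [Fintype.sum_prod_type]
  simp only [Finset.sum_const, Finset.card_univ, Fintype.card_fin, nsmul_eq_mul]
  rw [← Finset.mul_sum]
  have h : ∑ i, mu B i = (B.card : ℝ) * ((B.card : ℝ) / (2 * n)) := by
    unfold mu
    rw [← Finset.sum_mul, ← sum_ind B, Fintype.sum_prod_type]
  rw [h]
  field_simp

lemma card_eq {Δ : ℕ} (f : Fin n × Fin Δ → Fin n) (b : Fin n × Fin Δ → ZMod 2)
    (B : Finset (Fin n × ZMod 2)) :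
    ((Finset.univ.filter (fun t => lnk f b t ⊆ B)).card : ℝ) = ∑ e, Y B e.1 (f e, b e) := by
  rw [Finset.natCast_card_filter, Fintype.sum_prod_type]
  refine Finset.sum_congr rfl fun e _ => ?_
  unfold Y
  refine Finset.sum_congr rfl fun a _ => ?_
  unfold ind lnk
  by_cases h1 : (e.1, a) ∈ B <;> by_cases h2 : (f e, a + b e + 1) ∈ B <;>
    simp [h1, h2, Finset.insert_subset_iff]

/-- one factor -/
lemma factor (hn : 1 ≤ n) (B : Finset (Fin n × ZMod 2)) (i : Fin n) (l : ℝ) (hl : 0 ≤ l)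
    (hl1 : l ≤ 1 / 4) :
    ∑ c, Real.exp (l * (mu B i - Y B i c)) ≤ (2 * n : ℝ) * Real.exp (4 * l ^ 2) := by
  have h1 : ∀ c, Real.exp (l * (mu B i - Y B i c)) ≤
      1 + l * (mu B i - Y B i c) + 4 * l ^ 2 := by
    intro c
    have hd : |mu B i - Y B i c| ≤ 2 := by
      rw [abs_le]
      constructor <;> linarith [mu_nonneg B i, mu_le hn B i, Y_nonneg B i c, Y_le B i c]
    have hx : |l * (mu B i - Y B i c)| ≤ 1 := by
      rw [abs_mul, abs_of_nonneg hl]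
      nlinarith [abs_nonneg (mu B i - Y B i c)]
    have h := Real.abs_exp_sub_one_sub_id_le hx
    have h' := (abs_le.1 h).2
    have hsq : (l * (mu B i - Y B i c)) ^ 2 ≤ 4 * l ^ 2 := by
      rw [mul_pow]
      have : (mu B i - Y B i c) ^ 2 ≤ 4 := by
        rw [← sq_abs]
        nlinarith [abs_nonneg (mu B i - Y B i c)]
      nlinarith [sq_nonneg l]
    linarith
  calc ∑ c, Real.exp (l * (mu B i - Y B i c))
      ≤ ∑ c : Fin n × ZMod 2, (1 + l * (mu B i - Y B i c) + 4 * l ^ 2) :=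
        Finset.sum_le_sum fun c _ => h1 c
    _ = (2 * n : ℝ) * (1 + 4 * l ^ 2) := by
        rw [Finset.sum_add_distrib, Finset.sum_add_distrib, ← Finset.mul_sum, sum_sub hn]
        simp only [Finset.sum_const, Finset.card_univ, Fintype.card_prod, Fintype.card_fin,
          ZMod.card, nsmul_eq_mul]
        push_cast
        ring
    _ ≤ (2 * n : ℝ) * Real.exp (4 * l ^ 2) := by
        have := Real.add_one_le_exp (4 * l ^ 2)
        have hn0 : (0 : ℝ) ≤ 2 * n := by positivity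
        nlinarith

lemma one_B (Δ : ℕ) (hn : 1 ≤ n) (δ : ℝ) (hδ : 0 < δ) (hδ1 : δ ≤ 1)
    (hΔ : 16 ≤ δ ^ 2 * (Δ : ℝ)) (B : Finset (Fin n × ZMod 2)) :
    (∑ f : Fin n × Fin Δ → Fin n, ∑ b : Fin n × Fin Δ → ZMod 2,
      (if (∑ e, Y B e.1 (f e, b e)) <
          2 * ((n : ℝ) * Δ) * (((B.card : ℝ) / (2 * n)) ^ 2 - δ) then (1 : ℝ) else 0)) ≤
      (n : ℝ) ^ (n * Δ) * 2 ^ (n * Δ) * Real.exp (-(4 * n)) := by
  set l : ℝ := δ / 4 with hl
  have hl0 : 0 ≤ l := by positivity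
  have hl1 : l ≤ 1 / 4 := by rw [hl]; linarith
  have hpt : ∀ (f : Fin n × Fin Δ → Fin n) (b : Fin n × Fin Δ → ZMod 2),
      (if (∑ e, Y B e.1 (f e, b e)) <
          2 * ((n : ℝ) * Δ) * (((B.card : ℝ) / (2 * n)) ^ 2 - δ) then (1 : ℝ) else 0) ≤
      Real.exp (-(2 * l * δ * (n * Δ))) * ∏ e : Fin n × Fin Δ,
        Real.exp (l * (mu B e.1 - Y B e.1 (f e, b e))) := by
    intro f b
    rw [← Real.exp_sum, ← Real.exp_add, ← Finset.mul_sum, Finset.sum_sub_distrib, sum_mu hn]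
    split_ifs with h
    · rw [← Real.exp_zero]
      apply Real.exp_le_exp.2
      have h2 : 0 ≤ 2 * ((n : ℝ) * Δ) * ((B.card : ℝ) / (2 * n)) ^ 2 -
          (∑ e : Fin n × Fin Δ, Y B e.1 (f e, b e)) - 2 * ((n : ℝ) * Δ) * δ := by linarith
      have := mul_nonneg hl0 h2
      linarith
    · positivity
  calc _ ≤ ∑ f : Fin n × Fin Δ → Fin n, ∑ b : Fin n × Fin Δ → ZMod 2,
        Real.exp (-(2 * l * δ * (n * Δ))) * ∏ e : Fin n × Fin Δ,
          Real.exp (l * (mu B e.1 - Y B e.1 (f e, b e))) :=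
        Finset.sum_le_sum fun f _ => Finset.sum_le_sum fun b _ => hpt f b
    _ = Real.exp (-(2 * l * δ * (n * Δ))) *
        ∑ g : Fin n × Fin Δ → Fin n × ZMod 2, ∏ e : Fin n × Fin Δ,
          Real.exp (l * (mu B e.1 - Y B e.1 (g e))) := by
        simp only [← Finset.mul_sum]
        congr 1
        rw [← Fintype.sum_prod_type' (f := fun (f : Fin n × Fin Δ → Fin n)
          (b : Fin n × Fin Δ → ZMod 2) => ∏ e : Fin n × Fin Δ,
            Real.exp (l * (mu B e.1 - Y B e.1 (f e, b e))))]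
        symm
        refine Fintype.sum_equiv (Equiv.arrowProdEquivProdArrow _ _ _) _ _ ?_
        intro g
        rfl
    _ = Real.exp (-(2 * l * δ * (n * Δ))) *
        ∏ e : Fin n × Fin Δ, ∑ c : Fin n × ZMod 2,
          Real.exp (l * (mu B e.1 - Y B e.1 c)) := by
        rw [Finset.prod_univ_sum, Fintype.piFinset_univ]
    _ ≤ Real.exp (-(2 * l * δ * (n * Δ))) *
        ∏ _e : Fin n × Fin Δ, ((2 * n : ℝ) * Real.exp (4 * l ^ 2)) := by
        apply mul_le_mul_of_nonneg_left _ (Real.exp_pos _).le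
        apply Finset.prod_le_prod
        · intro e _
          exact Finset.sum_nonneg fun c _ => (Real.exp_pos _).le
        · intro e _
          exact factor hn B e.1 l hl0 hl1
    _ = (n : ℝ) ^ (n * Δ) * 2 ^ (n * Δ) *
        Real.exp ((n * Δ) * (4 * l ^ 2 - 2 * l * δ)) := by
        rw [Finset.prod_const, Finset.card_univ, Fintype.card_prod, Fintype.card_fin,
          Fintype.card_fin, mul_pow, mul_pow, ← Real.exp_nat_mul]
        have : Real.exp ((n * Δ) * (4 * l ^ 2 - 2 * l * δ)) =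
            Real.exp (-(2 * l * δ * (n * Δ))) * Real.exp (((n * Δ : ℕ) : ℝ) * (4 * l ^ 2)) := by
          rw [← Real.exp_add]
          congr 1
          push_cast
          ring
        rw [this]
        ring
    _ ≤ (n : ℝ) ^ (n * Δ) * 2 ^ (n * Δ) * Real.exp (-(4 * n)) := by
        apply mul_le_mul_of_nonneg_left _ (by positivity)
        apply Real.exp_le_exp.2
        have hn0 : (0 : ℝ) ≤ n := by positivity
        have h1 : (n * Δ : ℝ) * (4 * l ^ 2 - 2 * l * δ) = -(n * (δ ^ 2 * Δ) / 4) := by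
          rw [hl]; ring
        rw [h1]
        nlinarith

lemma exp4 : (32 : ℝ) ≤ Real.exp 4 := by
  have h := Real.exp_one_gt_d9
  have h2 : Real.exp 4 = Real.exp 1 ^ 4 := by
    rw [← Real.exp_nat_mul]; norm_num
  rw [h2]
  have h3 : (2.7 : ℝ) ≤ Real.exp 1 := by linarith
  calc (32 : ℝ) ≤ 2.7 ^ 4 := by norm_num
    _ ≤ Real.exp 1 ^ 4 := by gcongr

lemma final (hn : 1 ≤ n) : (2 : ℝ) ^ (n * 2) * Real.exp (-(4 * n)) ≤ 1 / 8 := by
  have h1 : (2 : ℝ) ^ (n * 2) * Real.exp (-(4 * n)) = (4 * Real.exp (-4)) ^ n := by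
    rw [mul_pow, ← Real.exp_nat_mul, mul_comm n 2, pow_mul]
    norm_num
    ring_nf
  rw [h1]
  have h2 : 4 * Real.exp (-4) ≤ 1 / 8 := by
    rw [Real.exp_neg]
    have := exp4
    have h3 : (Real.exp 4)⁻¹ ≤ 1 / 32 := by
      rw [one_div]
      exact inv_anti₀ (by norm_num) this
    linarith
  have h0 : 0 ≤ 4 * Real.exp (-4) := by positivity
  calc (4 * Real.exp (-4)) ^ n ≤ (4 * Real.exp (-4)) ^ 1 :=
        pow_le_pow_of_le_one h0 (by linarith) hn
    _ ≤ 1 / 8 := by rw [pow_one]; exact h2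

end DiscAux

open DiscAux in
theorem disc (n Δ : ℕ) (hn : 1 ≤ n) (δ : ℝ) (hδ : 0 < δ) (hδ1 : δ ≤ 1)
    (hΔ : 16 ≤ δ ^ 2 * (Δ : ℝ)) :
    (∑ f : Fin n × Fin Δ → Fin n, ∑ b : Fin n × Fin Δ → ZMod 2,
      ((Finset.univ.filter (fun B : Finset (Fin n × ZMod 2) =>
        ((Finset.univ.filter (fun t => lnk f b t ⊆ B)).card : ℝ) <
          2 * ((n : ℝ) * Δ) * (((B.card : ℝ) / (2 * n)) ^ 2 - δ))).card : ℝ)) ≤
      (n : ℝ) ^ (n * Δ) * 2 ^ (n * Δ) * (1 / 8) := by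
  classical
  have key : ∀ (f : Fin n × Fin Δ → Fin n) (b : Fin n × Fin Δ → ZMod 2),
      ((Finset.univ.filter (fun B : Finset (Fin n × ZMod 2) =>
        ((Finset.univ.filter (fun t => lnk f b t ⊆ B)).card : ℝ) <
          2 * ((n : ℝ) * Δ) * (((B.card : ℝ) / (2 * n)) ^ 2 - δ))).card : ℝ) =
      ∑ B : Finset (Fin n × ZMod 2), (if (∑ e, Y B e.1 (f e, b e)) <
          2 * ((n : ℝ) * Δ) * (((B.card : ℝ) / (2 * n)) ^ 2 - δ) then (1 : ℝ) else 0) := by
    intro f b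
    rw [Finset.natCast_card_filter]
    refine Finset.sum_congr rfl fun B _ => ?_
    rw [card_eq]
  calc _ = ∑ f : Fin n × Fin Δ → Fin n, ∑ b : Fin n × Fin Δ → ZMod 2,
        ∑ B : Finset (Fin n × ZMod 2), (if (∑ e, Y B e.1 (f e, b e)) <
          2 * ((n : ℝ) * Δ) * (((B.card : ℝ) / (2 * n)) ^ 2 - δ) then (1 : ℝ) else 0) := by
        refine Finset.sum_congr rfl fun f _ => Finset.sum_congr rfl fun b _ => ?_
        rw [← key f b]
    _ = ∑ B : Finset (Fin n × ZMod 2), ∑ f : Fin n × Fin Δ → Fin n,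
        ∑ b : Fin n × Fin Δ → ZMod 2, (if (∑ e, Y B e.1 (f e, b e)) <
          2 * ((n : ℝ) * Δ) * (((B.card : ℝ) / (2 * n)) ^ 2 - δ) then (1 : ℝ) else 0) := by
        symm
        rw [Finset.sum_comm]
        refine Finset.sum_congr rfl fun f _ => ?_
        rw [Finset.sum_comm]
    _ ≤ ∑ _B : Finset (Fin n × ZMod 2),
        (n : ℝ) ^ (n * Δ) * 2 ^ (n * Δ) * Real.exp (-(4 * n)) :=
        Finset.sum_le_sum fun B _ => one_B Δ hn δ hδ hδ1 hΔ B
    _ = (n : ℝ) ^ (n * Δ) * 2 ^ (n * Δ) * ((2 : ℝ) ^ (n * 2) * Real.exp (-(4 * n))) := by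
        rw [Finset.sum_const, Finset.card_univ, Fintype.card_finset, Fintype.card_prod,
          Fintype.card_fin, ZMod.card, nsmul_eq_mul]
        push_cast
        ring
    _ ≤ (n : ℝ) ^ (n * Δ) * 2 ^ (n * Δ) * (1 / 8) := by
        apply mul_le_mul_of_nonneg_left (final hn) (by positivity)

end Pool.Agent.Lib.P47k
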