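import Pool.Agent.Lib.P325L.SpSum
import Pool.Agent.Lib.P325L.Sel
import Pool.Agent.Lib.P47k.CntN
import Pool.Agent.Lib.P47k.Disc
import Pool.Agent.Lib.P47k.Deg2

/-!
Module SelN (1.8h; adapt P325L/Sel.lean; black boxes cntN, disc, deg2, P325L.sp_sum). A good graph with shifts.
PROOF. As P325L.sel with vts in place of the two sides. K = g^3 (9Δ)^g. (1) Bad1 f = the nonempty C with card C ≤ g and card (vts f C) ≤ card C; C ↦ (vts f C, C)
injects Bad1 f into the union of the pairsN n Δ v m f over 1 ≤ v ≤ m ≤ g (at most g^2 pairs (v, m)); by cntN ∑_f card (Bad1 f) ≤ n^(nΔ) K (m/n ≤ 1).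
(2) B2 f = ∑_{v ∈ Icc 1 R} card (pairsN n Δ v (v + v/N + 1) f); ∑_f B2 f ≤ n^(nΔ)/4 as in sum_B2 (m ≤ 3 v, m - v = v/N + 1; sp_sum, whose terms have an additional
factor v ≥ 1). (3) deg2: ∑_f (∑_v indeg^2)/(16 n Δ^2) ≤ n^(nΔ)/8. (4) disc. Sum over f and b of card (Bad1 f)/(8 K) + B2 f + (∑_v indeg^2)/(16 n Δ^2) +
(number of bad B): at most (1/8 + 1/4 + 1/8 + 1/8) (number of the (f, b)), so for some (f, b) it is < 1: card (Bad1 f) < 8 K, B2 f = 0, ∑ indeg^2 ≤ 16 n Δ^2,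
no bad B. (5) Del = one edge from every member of Bad1 f. The rest as in P325L.sel (A = vts f H in the part on sparsity).
-/

open scoped BigOperators

namespace Pool.Agent.Lib.P47k

namespace SelNAux

variable {n Δ : ℕ}

/-- The nonempty sets of at most `g` edges that touch at most as many vertices. -/
def Bad1 (g : ℕ) (f : Fin n × Fin Δ → Fin n) : Finset (Finset (Fin n × Fin Δ)) :=
  Finset.univ.filter (fun C => C.Nonempty ∧ C.card ≤ g ∧ (vts f C).card ≤ C.card)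

/-- index set for the short dense sets -/
def I1 (g : ℕ) : Finset (ℕ × ℕ) :=
  (Finset.Icc 1 g ×ˢ Finset.Icc 1 g).filter (fun q => q.2 ≤ q.1)

theorem I1_card (g : ℕ) : (I1 g).card ≤ g ^ 2 := by
  refine (Finset.card_filter_le _ _).trans ?_
  simp only [Finset.card_product, Nat.card_Icc, Nat.add_sub_cancel]
  exact le_of_eq (by ring)

theorem mem_pairs (f : Fin n × Fin Δ → Fin n) (C H : Finset (Fin n × Fin Δ)) (hC : C ⊆ H) :
    (vts f H, C) ∈ pairsN n Δ (vts f H).card C.card f := by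
  simp only [pairsN, Finset.mem_filter, Finset.mem_univ, true_and]
  refine ⟨fun e he => ?_, fun e he => ?_⟩
  · exact Finset.mem_union_left _ (Finset.mem_image_of_mem _ (hC he))
  · exact Finset.mem_union_right _ (Finset.mem_image_of_mem _ (hC he))

theorem vts_pos (f : Fin n × Fin Δ → Fin n) {C : Finset (Fin n × Fin Δ)} (h : C.Nonempty) :
    1 ≤ (vts f C).card := by
  obtain ⟨e, he⟩ := h
  exact Finset.card_pos.2 ⟨e.1, Finset.mem_union_left _ (Finset.mem_image_of_mem _ he)⟩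

theorem bad1_le (g : ℕ) (f : Fin n × Fin Δ → Fin n) :
    (Bad1 g f).card ≤ ∑ q ∈ I1 g, (pairsN n Δ q.2 q.1 f).card := by
  have hsub : Bad1 g f ⊆ ((I1 g).biUnion (fun q => pairsN n Δ q.2 q.1 f)).image
      (fun T => T.2) := by
    intro C hC
    simp only [Bad1, Finset.mem_filter, Finset.mem_univ, true_and] at hC
    obtain ⟨hne, hg, hle⟩ := hC
    rw [Finset.mem_image]
    refine ⟨(vts f C, C), ?_, rfl⟩
    rw [Finset.mem_biUnion]
    have hA : 1 ≤ (vts f C).card := vts_pos f hne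
    refine ⟨(C.card, (vts f C).card), ?_, mem_pairs f C C (fun _ h => h)⟩
    simp only [I1, Finset.mem_filter, Finset.mem_product, Finset.mem_Icc]
    exact ⟨⟨⟨by omega, hg⟩, ⟨hA, by omega⟩⟩, hle⟩
  calc (Bad1 g f).card ≤ _ := Finset.card_le_card hsub
    _ ≤ _ := Finset.card_image_le
    _ ≤ _ := Finset.card_biUnion_le

theorem sum_bad1 (n Δ g : ℕ) (hn : 1 ≤ n) (hg1 : 1 ≤ g) (hgn : g ≤ n) (hΔ : 1 ≤ Δ) :
    (∑ f : Fin n × Fin Δ → Fin n, ((Bad1 g f).card : ℝ)) ≤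
      (n : ℝ) ^ (n * Δ) * ((g : ℝ) ^ 3 * (9 * (Δ : ℝ)) ^ g) := by
  have hΔr : (1 : ℝ) ≤ (Δ : ℝ) := by exact_mod_cast hΔ
  have h9 : (1 : ℝ) ≤ 9 * (Δ : ℝ) := by linarith
  have hnr : (1 : ℝ) ≤ (n : ℝ) := by exact_mod_cast hn
  have hgr : (1 : ℝ) ≤ (g : ℝ) := by exact_mod_cast hg1
  have hpow : (0 : ℝ) ≤ (n : ℝ) ^ (n * Δ) := by positivity
  have step1 : (∑ f : Fin n × Fin Δ → Fin n, ((Bad1 g f).card : ℝ)) ≤
      ∑ f : Fin n × Fin Δ → Fin n, ∑ q ∈ I1 g, ((pairsN n Δ q.2 q.1 f).card : ℝ) := by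
    refine Finset.sum_le_sum (fun f _ => ?_)
    have := bad1_le g f
    calc ((Bad1 g f).card : ℝ) ≤ ((∑ q ∈ I1 g, (pairsN n Δ q.2 q.1 f).card : ℕ) : ℝ) := by
          exact_mod_cast this
      _ = _ := by push_cast; rfl
  have step2 : (∑ f : Fin n × Fin Δ → Fin n, ∑ q ∈ I1 g,
      ((pairsN n Δ q.2 q.1 f).card : ℝ)) ≤
      ∑ q ∈ I1 g, (n : ℝ) ^ (n * Δ) * (9 * (Δ : ℝ)) ^ g := by
    rw [Finset.sum_comm]
    refine Finset.sum_le_sum (fun q hq => ?_)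
    simp only [I1, Finset.mem_filter, Finset.mem_product, Finset.mem_Icc] at hq
    obtain ⟨⟨⟨hm1, hmg⟩, ⟨ha, -⟩⟩, hab⟩ := hq
    refine (cntN n Δ q.2 q.1 hn ha hab).trans ?_
    refine mul_le_mul_of_nonneg_left ?_ hpow
    have e1 : (9 * (Δ : ℝ)) ^ q.1 ≤ (9 * (Δ : ℝ)) ^ g := pow_le_pow_right₀ h9 hmg
    have e2 : ((q.1 : ℝ) / n) ^ (q.1 - q.2) ≤ 1 := by
      refine pow_le_one₀ (by positivity) ?_
      rw [div_le_one (by linarith)]
      exact_mod_cast hmg.trans hgn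
    calc (9 * (Δ : ℝ)) ^ q.1 * ((q.1 : ℝ) / n) ^ (q.1 - q.2)
        ≤ (9 * (Δ : ℝ)) ^ q.1 * 1 := mul_le_mul_of_nonneg_left e2 (by positivity)
      _ ≤ _ := by rw [mul_one]; exact e1
  have step3 : (∑ q ∈ I1 g, (n : ℝ) ^ (n * Δ) * (9 * (Δ : ℝ)) ^ g) ≤
      (n : ℝ) ^ (n * Δ) * ((g : ℝ) ^ 3 * (9 * (Δ : ℝ)) ^ g) := by
    rw [Finset.sum_const, nsmul_eq_mul]
    have h1 : ((I1 g).card : ℝ) ≤ (g : ℝ) ^ 2 := by exact_mod_cast I1_card g
    have h2 : (g : ℝ) ^ 2 ≤ (g : ℝ) ^ 3 := pow_le_pow_right₀ hgr (by norm_num)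
    calc ((I1 g).card : ℝ) * ((n : ℝ) ^ (n * Δ) * (9 * (Δ : ℝ)) ^ g)
        ≤ (g : ℝ) ^ 3 * ((n : ℝ) ^ (n * Δ) * (9 * (Δ : ℝ)) ^ g) :=
          mul_le_mul_of_nonneg_right (h1.trans h2) (by positivity)
      _ = _ := by ring
  exact step1.trans (step2.trans step3)

/-- number of dense pairs with few vertices -/
def B2 (R N : ℕ) (f : Fin n × Fin Δ → Fin n) : ℕ :=
  ∑ v ∈ Finset.Icc 1 R, (pairsN n Δ v (v + v / N + 1) f).card

theorem sum_B2 (n Δ R N : ℕ) (hn : 4096 ≤ n) (hN1 : 1 ≤ N) (hR : 9 * R ^ 2 ≤ n)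
    (hN : (2 * (9 * (Δ : ℝ)) ^ 3) ^ (4 * N) ≤ n) (hΔ : 1 ≤ Δ) :
    (∑ f : Fin n × Fin Δ → Fin n, ((B2 R N f : ℕ) : ℝ)) ≤ (n : ℝ) ^ (n * Δ) * (1 / 4) := by
  have hΔr : (1 : ℝ) ≤ (Δ : ℝ) := by exact_mod_cast hΔ
  have h9 : (1 : ℝ) ≤ 9 * (Δ : ℝ) := by linarith
  have hnr : (0 : ℝ) < (n : ℝ) := by
    have : (4096 : ℝ) ≤ (n : ℝ) := by exact_mod_cast hn
    linarith
  have hpow : (0 : ℝ) ≤ (n : ℝ) ^ (n * Δ) := by positivity
  have step1 : (∑ f : Fin n × Fin Δ → Fin n, ((B2 R N f : ℕ) : ℝ)) =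
      ∑ v ∈ Finset.Icc 1 R, ∑ f : Fin n × Fin Δ → Fin n,
        ((pairsN n Δ v (v + v / N + 1) f).card : ℝ) := by
    unfold B2
    push_cast
    rw [Finset.sum_comm]
  rw [step1]
  have step2 : ∀ v ∈ Finset.Icc 1 R, (∑ f : Fin n × Fin Δ → Fin n,
        ((pairsN n Δ v (v + v / N + 1) f).card : ℝ)) ≤
      (n : ℝ) ^ (n * Δ) * ((v : ℝ) * ((9 * (Δ : ℝ)) ^ (3 * v) *
        (3 * (v : ℝ) / n) ^ (v / N + 1))) := by
    intro v hv
    rw [Finset.mem_Icc] at hv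
    have hdiv : v / N ≤ v := Nat.div_le_self v N
    have hm3 : v + v / N + 1 ≤ 3 * v := by omega
    have hv1 : (1 : ℝ) ≤ (v : ℝ) := by exact_mod_cast hv.1
    have hle : v ≤ v + v / N + 1 := by
      rw [Nat.add_assoc]
      exact Nat.le_add_right _ _
    refine (cntN n Δ v (v + v / N + 1) (by omega) hv.1 hle).trans ?_
    refine mul_le_mul_of_nonneg_left ?_ hpow
    have hexp : v + v / N + 1 - v = v / N + 1 := by
      rw [Nat.add_assoc, Nat.add_sub_cancel_left]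
    rw [hexp]
    have e1 : (9 * (Δ : ℝ)) ^ (v + v / N + 1) ≤ (9 * (Δ : ℝ)) ^ (3 * v) :=
      pow_le_pow_right₀ h9 hm3
    have e2 : (((v + v / N + 1 : ℕ) : ℝ) / n) ^ (v / N + 1) ≤
        (3 * (v : ℝ) / n) ^ (v / N + 1) := by
      refine pow_le_pow_left₀ (by positivity) ?_ _
      refine div_le_div_of_nonneg_right ?_ hnr.le
      exact_mod_cast hm3
    have e3 := mul_le_mul e1 e2 (by positivity) (by positivity)
    refine e3.trans ?_
    exact le_mul_of_one_le_left (by positivity) hv1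
  refine (Finset.sum_le_sum step2).trans ?_
  rw [← Finset.mul_sum]
  exact mul_le_mul_of_nonneg_left (Pool.Agent.Lib.P325L.sp_sum n Δ R N hn hN1 hR hN hΔ) hpow

/-- the number of sets with a bad discrepancy -/
noncomputable def B3 (δ : ℝ) (f : Fin n × Fin Δ → Fin n) (b : Fin n × Fin Δ → ZMod 2) : ℕ :=
  (Finset.univ.filter (fun B : Finset (Fin n × ZMod 2) =>
    ((Finset.univ.filter (fun t => lnk f b t ⊆ B)).card : ℝ) <
      2 * ((n : ℝ) * Δ) * (((B.card : ℝ) / (2 * n)) ^ 2 - δ))).card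

end SelNAux

open SelNAux in
theorem selN (n Δ g R N : ℕ) (δ : ℝ) (hδ : 0 < δ) (hδ1 : δ ≤ 1) (hδΔ : 16 ≤ δ ^ 2 * (Δ : ℝ))
    (hn : 4096 ≤ n) (hN1 : 1 ≤ N) (hR : 9 * R ^ 2 ≤ n) (hg1 : 1 ≤ g) (hgn : g ≤ n) (hΔ : 1 ≤ Δ)
    (hN : (2 * (9 * (Δ : ℝ)) ^ 3) ^ (4 * N) ≤ n) :
    ∃ (f : Fin n × Fin Δ → Fin n) (b : Fin n × Fin Δ → ZMod 2) (Del : Finset (Fin n × Fin Δ)),
      (Del.card : ℝ) ≤ 8 * ((g : ℝ) ^ 3 * (9 * (Δ : ℝ)) ^ g) ∧
      (∀ H : Finset (Fin n × Fin Δ), Disjoint H Del → H.Nonempty → H.card ≤ g →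
        H.card < (vts f H).card) ∧
      (∀ H : Finset (Fin n × Fin Δ), (vts f H).card ≤ R →
        N * H.card ≤ (N + 1) * (vts f H).card) ∧
      ∑ v, (indeg f v : ℝ) ^ 2 ≤ 16 * n * (Δ : ℝ) ^ 2 ∧
      ∀ B : Finset (Fin n × ZMod 2),
        2 * ((n : ℝ) * Δ) * (((B.card : ℝ) / (2 * n)) ^ 2 - δ) ≤
          ((Finset.univ.filter (fun t => lnk f b t ⊆ B)).card : ℝ) := by
  classical
  have hnr : (4096 : ℝ) ≤ (n : ℝ) := by exact_mod_cast hn
  have hΔr : (1 : ℝ) ≤ (Δ : ℝ) := by exact_mod_cast hΔ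
  have hgr : (1 : ℝ) ≤ (g : ℝ) := by exact_mod_cast hg1
  set K : ℝ := (g : ℝ) ^ 3 * (9 * (Δ : ℝ)) ^ g with hK
  have hKpos : 0 < K := by positivity
  have hPpos : (0 : ℝ) < (n : ℝ) ^ (n * Δ) := by positivity
  have hDpos : (0 : ℝ) < 16 * n * (Δ : ℝ) ^ 2 := by positivity
  -- a good map
  obtain ⟨f, b, hf1, hf2, hf3, hf4⟩ : ∃ (f : Fin n × Fin Δ → Fin n)
      (b : Fin n × Fin Δ → ZMod 2), ((Bad1 g f).card : ℝ) < 8 * K ∧ B2 R N f = 0 ∧
      (∑ v, (indeg f v : ℝ) ^ 2) < 16 * n * (Δ : ℝ) ^ 2 ∧ B3 δ f b = 0 := by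
    by_contra hcon
    push Not at hcon
    have hall : ∀ (f : Fin n × Fin Δ → Fin n) (b : Fin n × Fin Δ → ZMod 2), (1 : ℝ) ≤
        ((Bad1 g f).card : ℝ) / (8 * K) + ((B2 R N f : ℕ) : ℝ) +
          (∑ v, (indeg f v : ℝ) ^ 2) / (16 * n * (Δ : ℝ) ^ 2) + ((B3 δ f b : ℕ) : ℝ) := by
      intro f b
      have p1 : 0 ≤ ((Bad1 g f).card : ℝ) / (8 * K) := by positivity
      have p2 : (0 : ℝ) ≤ ((B2 R N f : ℕ) : ℝ) := Nat.cast_nonneg _
      have p3 : 0 ≤ (∑ v, (indeg f v : ℝ) ^ 2) / (16 * n * (Δ : ℝ) ^ 2) :=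
        div_nonneg (Finset.sum_nonneg fun v _ => sq_nonneg _) hDpos.le
      have p4 : (0 : ℝ) ≤ ((B3 δ f b : ℕ) : ℝ) := Nat.cast_nonneg _
      by_cases h1 : ((Bad1 g f).card : ℝ) < 8 * K
      · by_cases h2 : B2 R N f = 0
        · by_cases h3 : (∑ v, (indeg f v : ℝ) ^ 2) < 16 * n * (Δ : ℝ) ^ 2
          · have h4 : 1 ≤ B3 δ f b := Nat.one_le_iff_ne_zero.mpr (hcon f b h1 h2 h3)
            have h5 : (1 : ℝ) ≤ ((B3 δ f b : ℕ) : ℝ) := by exact_mod_cast h4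
            linarith
          · have h4 : 1 ≤ (∑ v, (indeg f v : ℝ) ^ 2) / (16 * n * (Δ : ℝ) ^ 2) := by
              rw [le_div_iff₀ hDpos]
              linarith [not_lt.mp h3]
            linarith
        · have h3 : 1 ≤ B2 R N f := Nat.one_le_iff_ne_zero.mpr h2
          have h4 : (1 : ℝ) ≤ ((B2 R N f : ℕ) : ℝ) := by exact_mod_cast h3
          linarith
      · have h2 : 1 ≤ ((Bad1 g f).card : ℝ) / (8 * K) := by
          rw [le_div_iff₀ (by positivity)]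
          linarith [not_lt.mp h1]
        linarith
    have hcf : (∑ _f : Fin n × Fin Δ → Fin n, (1 : ℝ)) = (n : ℝ) ^ (n * Δ) := by
      rw [Finset.sum_const, nsmul_eq_mul, mul_one, Finset.card_univ, Fintype.card_fun,
        Fintype.card_prod, Fintype.card_fin, Fintype.card_fin]
      push_cast
      ring
    have hcb : (∑ _b : Fin n × Fin Δ → ZMod 2, (1 : ℝ)) = (2 : ℝ) ^ (n * Δ) := by
      rw [Finset.sum_const, nsmul_eq_mul, mul_one, Finset.card_univ, Fintype.card_fun,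
        Fintype.card_prod, Fintype.card_fin, Fintype.card_fin, ZMod.card]
      push_cast
      ring
    have hconst : ∀ (x : ℝ), (∑ _b : Fin n × Fin Δ → ZMod 2, x) = 2 ^ (n * Δ) * x := by
      intro x
      have : (∑ _b : Fin n × Fin Δ → ZMod 2, x) = (∑ _b : Fin n × Fin Δ → ZMod 2, (1 : ℝ)) * x := by
        rw [Finset.sum_mul]
        simp
      rw [this, hcb]
    have hsum : (n : ℝ) ^ (n * Δ) * 2 ^ (n * Δ) ≤ ∑ f : Fin n × Fin Δ → Fin n,
        ∑ b : Fin n × Fin Δ → ZMod 2,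
        (((Bad1 g f).card : ℝ) / (8 * K) + ((B2 R N f : ℕ) : ℝ) +
          (∑ v, (indeg f v : ℝ) ^ 2) / (16 * n * (Δ : ℝ) ^ 2) + ((B3 δ f b : ℕ) : ℝ)) := by
      calc (n : ℝ) ^ (n * Δ) * 2 ^ (n * Δ) = ∑ _f : Fin n × Fin Δ → Fin n,
          ∑ _b : Fin n × Fin Δ → ZMod 2, (1 : ℝ) := by
            rw [hcb, ← hcf, Finset.sum_mul]
            simp
        _ ≤ _ := Finset.sum_le_sum (fun f _ => Finset.sum_le_sum (fun b _ => hall f b))
    have hb1 := sum_bad1 n Δ g (by omega) hg1 hgn hΔ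
    have hb2 := sum_B2 n Δ R N hn hN1 hR hN hΔ
    have hb3 := deg2 n Δ (by omega) hΔ
    have hb4 := disc n Δ (by omega) δ hδ hδ1 hδΔ
    have hsplit : (∑ f : Fin n × Fin Δ → Fin n, ∑ b : Fin n × Fin Δ → ZMod 2,
        (((Bad1 g f).card : ℝ) / (8 * K) + ((B2 R N f : ℕ) : ℝ) +
          (∑ v, (indeg f v : ℝ) ^ 2) / (16 * n * (Δ : ℝ) ^ 2) + ((B3 δ f b : ℕ) : ℝ))) =
        2 ^ (n * Δ) * ((∑ f : Fin n × Fin Δ → Fin n, ((Bad1 g f).card : ℝ)) / (8 * K) +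
          (∑ f : Fin n × Fin Δ → Fin n, ((B2 R N f : ℕ) : ℝ)) +
          (∑ f : Fin n × Fin Δ → Fin n, ∑ v, (indeg f v : ℝ) ^ 2) / (16 * n * (Δ : ℝ) ^ 2)) +
          ∑ f : Fin n × Fin Δ → Fin n, ∑ b : Fin n × Fin Δ → ZMod 2, ((B3 δ f b : ℕ) : ℝ) := by
      simp only [Finset.sum_add_distrib]
      simp only [hconst, Finset.sum_div, ← Finset.mul_sum]
      ring
    rw [hsplit] at hsum
    have h2pos : (0 : ℝ) < 2 ^ (n * Δ) := by positivity
    have hc1 : (∑ f : Fin n × Fin Δ → Fin n, ((Bad1 g f).card : ℝ)) / (8 * K) ≤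
        (n : ℝ) ^ (n * Δ) * (1 / 8) := by
      rw [div_le_iff₀ (by positivity)]
      calc _ ≤ (n : ℝ) ^ (n * Δ) * K := hb1
        _ = _ := by ring
    have hc3 : (∑ f : Fin n × Fin Δ → Fin n, ∑ v, (indeg f v : ℝ) ^ 2) /
        (16 * n * (Δ : ℝ) ^ 2) ≤ (n : ℝ) ^ (n * Δ) * (1 / 8) := by
      rw [div_le_iff₀ hDpos]
      calc _ ≤ (n : ℝ) ^ (n * Δ) * (2 * n * (Δ : ℝ) ^ 2) := hb3
        _ = _ := by ring
    have hc4 : (∑ f : Fin n × Fin Δ → Fin n, ∑ b : Fin n × Fin Δ → ZMod 2,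
        ((B3 δ f b : ℕ) : ℝ)) ≤ (n : ℝ) ^ (n * Δ) * 2 ^ (n * Δ) * (1 / 8) := hb4
    have hc5 : 2 ^ (n * Δ) * ((∑ f : Fin n × Fin Δ → Fin n, ((Bad1 g f).card : ℝ)) / (8 * K) +
          (∑ f : Fin n × Fin Δ → Fin n, ((B2 R N f : ℕ) : ℝ)) +
          (∑ f : Fin n × Fin Δ → Fin n, ∑ v, (indeg f v : ℝ) ^ 2) / (16 * n * (Δ : ℝ) ^ 2)) ≤
        2 ^ (n * Δ) * ((n : ℝ) ^ (n * Δ) * (1 / 2)) := by
      refine mul_le_mul_of_nonneg_left ?_ h2pos.le
      linarith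
    have hpp : (0 : ℝ) < (n : ℝ) ^ (n * Δ) * 2 ^ (n * Δ) := mul_pos hPpos h2pos
    nlinarith
  -- deletion of one edge of every bad set
  have : Nonempty (Fin n × Fin Δ) := ⟨(⟨0, by omega⟩, ⟨0, by omega⟩)⟩
  have hch : ∀ C : Finset (Fin n × Fin Δ), ∃ e : Fin n × Fin Δ, C.Nonempty → e ∈ C := by
    intro C
    by_cases h : C.Nonempty
    · exact ⟨h.choose, fun _ => h.choose_spec⟩
    · exact ⟨Classical.arbitrary _, fun h' => absurd h' h⟩
  choose c hc using hch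
  refine ⟨f, b, (Bad1 g f).image c, ?_, ?_, ?_, hf3.le, ?_⟩
  · have h1 : ((Bad1 g f).image c).card ≤ (Bad1 g f).card := Finset.card_image_le
    have h2 : (((Bad1 g f).image c).card : ℝ) ≤ ((Bad1 g f).card : ℝ) := by
      exact_mod_cast h1
    linarith
  · intro H hdisj hne hHg
    by_contra hlt
    have hle : (vts f H).card ≤ H.card := not_lt.mp hlt
    have hmem : H ∈ Bad1 g f := by
      simp only [Bad1, Finset.mem_filter, Finset.mem_univ, true_and]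
      exact ⟨hne, hHg, hle⟩
    exact Finset.disjoint_left.mp hdisj (hc H hne) (Finset.mem_image_of_mem c hmem)
  · intro H hHR
    by_contra hlt
    have hlt' : (N + 1) * (vts f H).card < N * H.card := not_le.mp hlt
    set v : ℕ := (vts f H).card with hv
    have hne : H.Nonempty := by
      rw [← Finset.card_pos]
      by_contra h0
      have : H.card = 0 := by omega
      rw [this] at hlt'
      omega
    have hA : 1 ≤ (vts f H).card := vts_pos f hne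
    have hcard : v + v / N + 1 ≤ H.card := by
      by_contra h
      have h1 : H.card ≤ v + v / N := by omega
      have h2 : N * H.card ≤ N * (v + v / N) := Nat.mul_le_mul_left N h1
      have h3 : N * (v / N) ≤ v := Nat.mul_div_le v N
      have h4 : N * (v + v / N) = N * v + N * (v / N) := by ring
      have h5 : (N + 1) * v = N * v + v := by ring
      omega
    obtain ⟨C, hCH, hCc⟩ := Finset.exists_subset_card_eq hcard
    have hmem : (vts f H, C) ∈ pairsN n Δ v (v + v / N + 1) f := by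
      have h1 := mem_pairs f C H hCH
      rw [hCc, ← hv] at h1
      exact h1
    have hz := Finset.sum_eq_zero_iff.mp hf2 v (Finset.mem_Icc.mpr ⟨hA, hHR⟩)
    rw [Finset.card_eq_zero] at hz
    rw [hz] at hmem
    exact absurd hmem (Finset.notMem_empty _)
  · intro B
    by_contra hlt
    have hlt' := not_le.mp hlt
    unfold B3 at hf4
    rw [Finset.card_eq_zero] at hf4
    rw [Finset.filter_eq_empty_iff] at hf4
    exact hf4 (Finset.mem_univ B) hlt'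

end Pool.Agent.Lib.P47k
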