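import Pool.Agent.Lib.P325L.Fam
import Pool.Agent.Lib.P325L.ExtL
import Pool.Agent.Lib.P325L.Coef
import Pool.Agent.Lib.P325L.TagEx
import Pool.Agent.Lib.P325L.CSum
import Pool.Agent.Lib.P325L.Par
import Pool.Agent.Lib.P325L.Main
import Pool.Agent.Lib.P47c.TDefs
import Pool.Agent.Lib.P47k.SelN

/-!
Module BaseN (2h; adapt P325L/Main.lean; black boxes fam, ext_local, coef, csum, tag_ex, par of P325L, selN). Graphs with a coverage gap.
PROOF. δ = ε/4, Δ a natural number with Δ ≥ 9, 16 ≤ δ^2 Δ, 1 ≤ ε Δ. d = 9/(2Δ) ≤ 1/2, so ⌈9/d⌉₊ = 2Δ; s = 1 - ε/2 ≥ 1/2 ≥ d; C = 2Δ, D2 = 68 Δ,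
e = log (1/s)/log (1/d)/20000 ∈ (0, 1/4]. u = s^(1/8), Γ = ZMod 2, α = u^8/(1-u^8), constants a, b0 as in P325L.main with k = 2 (theorem MainAux.small),
m0 from csum. Given R0 take m0' = max m0 R0, so large that also 2^(m0') ≥ 64/ε, and n0 from par s d a b0 m0'. For n ≥ n0: m, g, l0, r, v0;
g ≥ 24 (m + 3) ≥ R0, 2^g ≥ 64/ε; selN with this g, R = 2 v0, N = 20 (m+3) (its condition follows from that of par, as Δ ≤ 2Δ). card Del ≤
8 g^3 (9Δ)^g = 2 * (4 g^3 (9 * 2Δ)^g)/2^g ≤ 2 n (2Δ)/2^g ≤ (ε/16) nΔ. The graph G on V = Fin n with the edges ι = {e // e ∉ Del}, src e = e.1.1,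
tgt e = f e.1; src ≠ tgt: {e} is disjoint from Del, so 1 < card (vts f {e}). Girth g and Sparse as in P325L.main (verts of G = vts f of the image).
fam, ext_local: E with E [z (tgt e) = z (src e) + b e] = (1 + s)/2 ≥ 1 - ε/4. Clients: M = 2 card ι, Fin M ≃ ι × ZMod 2, near (e, a) = lnk f b (e.1, a)
(two different elements as the vertices differ). cov near z ≥ (1 + (fraction of the e with z (tgt e) = z (src e) + b e))/2 pointwise (if e is satisfied both clients of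
e are covered: a = z (src e), resp. a = z (src e) + 1; otherwise the one with a = z (src e) is covered), so E (cov near) ≥ 1 - ε/8 - ... ≥ 1 - ε (all functions
depend on two labels: write cov as (1/M) ∑_e (number of covered clients of e), E is linear and nonnegative on nonnegative functions of at most r ≥ 2 labels).
Coverage: B = complement of A, card B/(2n) = 1 - card A/(2n) =: x; the number of the clients with near ⊆ B is at least 2nΔ (x^2 - δ) - 2 card Del, and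
nΔ ≤ M ≤ 2nΔ; unc = number/M ≥ x^2 - 2δ - 2 card Del/M ≥ x^2 - ε (two cases x^2 ≥ δ, x^2 < δ). Sparsity: if near (e, a) ⊆ B then e ∈ H = {e ∈ ι : src e, tgt e ∈ π},
π = B.image Prod.fst, card π ≤ card B ≤ R0 ≤ g. If card H ≥ card π ≥ 1, take H' ⊆ H with card π elements: card H' < card (vts H') ≤ card π, a contradiction; so
card H ≤ card π and the number is ≤ 2 card H. Degrees: the number of the j with (v, c) ∈ near j is at most Δ + indeg f v; ∑_(v,c) ≤ 2 ∑_v (Δ + indeg)^2 ≤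
4 (nΔ^2 + 16 nΔ^2) = 68 nΔ^2 ≤ 68 Δ M. M = 2 (nΔ - card Del) ≥ nΔ, n ≤ ε nΔ ≤ ε M.
-/

open scoped BigOperators

namespace Pool.Agent.Lib.P47k

open Pool.Agent.Lib.P325h (IsLocalExpectation)
open Pool.Agent.Lib.P47c (cov unc)

namespace BaseNAux

open Pool.Agent.Lib.P325L (Gr)
open Pool.Agent.Lib.P325P (mean)

/-- the edges outside `Del` -/
abbrev Ed {n Δ : ℕ} (Del : Finset (Fin n × Fin Δ)) : Type := {e : Fin n × Fin Δ // e ∉ Del}

/-- the graph with the edges outside `Del` -/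
def rg {n Δ : ℕ} (f : Fin n × Fin Δ → Fin n) (Del : Finset (Fin n × Fin Δ))
    (hne : ∀ e, e ∉ Del → e.1 ≠ f e) : Gr (Fin n) (Ed Del) where
  src := fun e => e.1.1
  tgt := fun e => f e.1
  ne := fun e => hne e.1 e.2

theorem verts_map {n Δ : ℕ} (f : Fin n × Fin Δ → Fin n) (Del : Finset (Fin n × Fin Δ))
    (hne : ∀ e, e ∉ Del → e.1 ≠ f e) (H : Finset (Ed Del)) :
    vts f (H.map (Function.Embedding.subtype _)) = (rg f Del hne).verts H := by
  unfold Gr.verts vts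
  rw [Finset.map_eq_image, Finset.image_image, Finset.image_image]
  rfl

theorem ne_of {n Δ g : ℕ} (f : Fin n × Fin Δ → Fin n) (Del : Finset (Fin n × Fin Δ))
    (hg : 1 ≤ g)
    (hgir : ∀ H : Finset (Fin n × Fin Δ), Disjoint H Del → H.Nonempty → H.card ≤ g →
        H.card < (vts f H).card) (e : Fin n × Fin Δ) (he : e ∉ Del) : e.1 ≠ f e := by
  intro h
  have h1 := hgir {e} (by simpa using he) (by simp) (by simpa using hg)
  have h2 : vts f {e} = {e.1} := by
    unfold vts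
    simp [← h]
  rw [h2] at h1
  simp at h1

/-- the link of a client -/
def lk {n Δ : ℕ} (f : Fin n × Fin Δ → Fin n) (b : Fin n × Fin Δ → ZMod 2)
    (Del : Finset (Fin n × Fin Δ)) (t : Ed Del × ZMod 2) : Finset (Fin n × ZMod 2) :=
  lnk f b (t.1.1, t.2)

theorem mem_lk {n Δ : ℕ} (f : Fin n × Fin Δ → Fin n) (b : Fin n × Fin Δ → ZMod 2)
    (Del : Finset (Fin n × Fin Δ)) (t : Ed Del × ZMod 2) (p : Fin n × ZMod 2) :
    p ∈ lk f b Del t ↔ p = (t.1.1.1, t.2) ∨ p = (f t.1.1, t.2 + b t.1.1 + 1) := by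
  simp [lk, lnk]

theorem lk_card {n Δ : ℕ} (f : Fin n × Fin Δ → Fin n) (b : Fin n × Fin Δ → ZMod 2)
    (Del : Finset (Fin n × Fin Δ)) (hne : ∀ e, e ∉ Del → e.1 ≠ f e) (t : Ed Del × ZMod 2) :
    (lk f b Del t).card = 2 := by
  unfold lk lnk
  exact Finset.card_pair (fun h => hne t.1.1 t.1.2 (congrArg Prod.fst h))

/-- number of the covered clients of an edge -/
noncomputable def cc (x y b : ZMod 2) : ℝ :=
  ∑ a : ZMod 2, if x = a ∨ y = a + b + 1 then (1 : ℝ) else 0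

theorem cc_ge (x y b : ZMod 2) : 1 + (if y = x + b then (1 : ℝ) else 0) ≤ cc x y b := by
  have h : ∀ x y b : ZMod 2, 1 + (if y = x + b then 1 else 0) ≤
      ∑ a : ZMod 2, if x = a ∨ y = a + b + 1 then 1 else 0 := by decide
  have h1 := h x y b
  unfold cc
  exact_mod_cast h1

theorem ite_iff {p q : Prop} {ip : Decidable p} {iq : Decidable q} (h : p ↔ q) :
    (@ite ℝ p ip 1 0) = @ite ℝ q iq 1 0 := by
  by_cases hp : p
  · rw [if_pos hp, if_pos (h.1 hp)]
  · rw [if_neg hp, if_neg (fun hq => hp (h.2 hq))]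

theorem cov_eq {n Δ M : ℕ} (f : Fin n × Fin Δ → Fin n) (b : Fin n × Fin Δ → ZMod 2)
    (Del : Finset (Fin n × Fin Δ)) (φ : Ed Del × ZMod 2 ≃ Fin M) (y : Fin n → ZMod 2) :
    cov (fun j => lk f b Del (φ.symm j)) y =
      (1 / (M : ℝ)) * ∑ e : Ed Del, cc (y e.1.1) (y (f e.1)) (b e.1) := by
  unfold cov mean
  rw [Fintype.card_fin, ← Equiv.sum_comp φ, Fintype.sum_prod_type, div_eq_mul_inv, one_div,
    mul_comm]
  congr 1
  refine Finset.sum_congr rfl fun e _ => ?_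
  unfold cc
  refine Finset.sum_congr rfl fun a _ => ?_
  refine ite_iff ?_
  simp only [Equiv.symm_apply_apply]
  constructor
  · rintro ⟨p, hp, hy⟩
    rw [mem_lk] at hp
    rcases hp with rfl | rfl
    · exact Or.inl hy
    · exact Or.inr hy
  · rintro (h | h)
    · exact ⟨(e.1.1, a), by rw [mem_lk]; exact Or.inl rfl, h⟩
    · exact ⟨(f e.1, a + b e.1 + 1), by rw [mem_lk]; exact Or.inr rfl, h⟩

theorem unc_eq {n Δ M : ℕ} (f : Fin n × Fin Δ → Fin n) (b : Fin n × Fin Δ → ZMod 2)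
    (Del : Finset (Fin n × Fin Δ)) (φ : Ed Del × ZMod 2 ≃ Fin M) (A : Finset (Fin n × ZMod 2)) :
    unc (fun j => lk f b Del (φ.symm j)) A =
      ((Finset.univ.filter (fun t => lk f b Del t ⊆ Aᶜ)).card : ℝ) / M := by
  unfold unc mean
  rw [Fintype.card_fin, ← Equiv.sum_comp φ, Finset.card_filter]
  push_cast
  congr 1
  refine Finset.sum_congr rfl fun t _ => ?_
  refine ite_iff ?_
  rw [Finset.subset_compl_iff_disjoint_right]
  simp only [Equiv.symm_apply_apply]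

theorem card_eqv {n Δ M : ℕ} (Del : Finset (Fin n × Fin Δ)) (φ : Ed Del × ZMod 2 ≃ Fin M)
    (P : Ed Del × ZMod 2 → Prop) [DecidablePred P] :
    (Finset.univ.filter (fun j : Fin M => P (φ.symm j))).card =
      (Finset.univ.filter (fun t => P t)).card := by
  refine Finset.card_equiv φ.symm fun i => ?_
  simp

theorem num_ge {n Δ : ℕ} (f : Fin n × Fin Δ → Fin n) (b : Fin n × Fin Δ → ZMod 2)
    (Del : Finset (Fin n × Fin Δ)) (B : Finset (Fin n × ZMod 2)) :
    (Finset.univ.filter (fun t : (Fin n × Fin Δ) × ZMod 2 => lnk f b t ⊆ B)).card ≤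
      (Finset.univ.filter (fun t : Ed Del × ZMod 2 => lk f b Del t ⊆ B)).card +
        2 * Del.card := by
  have h1 : Finset.univ.filter (fun t : (Fin n × Fin Δ) × ZMod 2 => lnk f b t ⊆ B) ⊆
      (Finset.univ.filter (fun t : Ed Del × ZMod 2 => lk f b Del t ⊆ B)).image
        (fun t => ((t.1.1, t.2) : (Fin n × Fin Δ) × ZMod 2)) ∪ Del ×ˢ Finset.univ := by
    intro t ht
    rw [Finset.mem_filter] at ht
    rw [Finset.mem_union]
    by_cases h : t.1 ∈ Del
    · right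
      rw [Finset.mem_product]
      exact ⟨h, Finset.mem_univ _⟩
    · left
      rw [Finset.mem_image]
      exact ⟨(⟨t.1, h⟩, t.2), by rw [Finset.mem_filter]; exact ⟨Finset.mem_univ _, ht.2⟩, rfl⟩
  refine (Finset.card_le_card h1).trans ((Finset.card_union_le _ _).trans ?_)
  refine add_le_add Finset.card_image_le ?_
  rw [Finset.card_product, Finset.card_univ, ZMod.card, mul_comm]

theorem spars {n Δ g : ℕ} (f : Fin n × Fin Δ → Fin n) (b : Fin n × Fin Δ → ZMod 2)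
    (Del : Finset (Fin n × Fin Δ))
    (hgir : ∀ H : Finset (Fin n × Fin Δ), Disjoint H Del → H.Nonempty → H.card ≤ g →
        H.card < (vts f H).card) (B : Finset (Fin n × ZMod 2)) (hB : B.card ≤ g) :
    (Finset.univ.filter (fun t : Ed Del × ZMod 2 => lk f b Del t ⊆ B)).card ≤ 2 * B.card := by
  classical
  set π : Finset (Fin n) := B.image Prod.fst with hπ
  have hπB : π.card ≤ B.card := Finset.card_image_le
  set H : Finset (Fin n × Fin Δ) :=
    Finset.univ.filter (fun e => e ∉ Del ∧ e.1 ∈ π ∧ f e ∈ π) with hH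
  have hHπ : H.card ≤ π.card := by
    by_contra hlt
    rw [not_le] at hlt
    obtain ⟨H', hH'H, hH'c⟩ := Finset.exists_subset_card_eq hlt.le
    have hpos : 0 < π.card := by
      obtain ⟨e, he⟩ := Finset.card_pos.1 (lt_of_le_of_lt (Nat.zero_le _) hlt)
      rw [hH, Finset.mem_filter] at he
      exact Finset.card_pos.2 ⟨e.1, he.2.2.1⟩
    have hdis : Disjoint H' Del := by
      rw [Finset.disjoint_left]
      intro e he
      have h1 := hH'H he
      rw [hH, Finset.mem_filter] at h1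
      exact h1.2.1
    have h2 := hgir H' hdis (Finset.card_pos.1 (by omega)) (by omega)
    have h3 : vts f H' ⊆ π := by
      intro v hv
      unfold vts at hv
      rw [Finset.mem_union, Finset.mem_image, Finset.mem_image] at hv
      rcases hv with ⟨e, he, rfl⟩ | ⟨e, he, rfl⟩
      · have h1 := hH'H he
        rw [hH, Finset.mem_filter] at h1
        exact h1.2.2.1
      · have h1 := hH'H he
        rw [hH, Finset.mem_filter] at h1
        exact h1.2.2.2
    have h4 := Finset.card_le_card h3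
    omega
  have hle : (Finset.univ.filter (fun t : Ed Del × ZMod 2 => lk f b Del t ⊆ B)).card ≤
      (H ×ˢ (Finset.univ : Finset (ZMod 2))).card := by
    refine Finset.card_le_card_of_injOn
      (fun t => ((t.1.1, t.2) : (Fin n × Fin Δ) × ZMod 2)) ?_ ?_
    · intro t ht
      rw [Finset.mem_coe, Finset.mem_filter] at ht
      rw [Finset.mem_coe, Finset.mem_product]
      refine ⟨?_, Finset.mem_univ _⟩
      rw [hH, Finset.mem_filter]
      refine ⟨Finset.mem_univ _, t.1.2, ?_, ?_⟩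
      · rw [hπ, Finset.mem_image]
        exact ⟨(t.1.1.1, t.2), ht.2 (by rw [mem_lk]; exact Or.inl rfl), rfl⟩
      · rw [hπ, Finset.mem_image]
        exact ⟨(f t.1.1, t.2 + b t.1.1 + 1), ht.2 (by rw [mem_lk]; exact Or.inr rfl), rfl⟩
    · intro t _ t' _ h
      simp only [Prod.mk.injEq] at h
      exact Prod.ext (Subtype.ext h.1) h.2
  rw [Finset.card_product, Finset.card_univ, ZMod.card] at hle
  omega

theorem degs {n Δ : ℕ} (f : Fin n × Fin Δ → Fin n) (b : Fin n × Fin Δ → ZMod 2)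
    (Del : Finset (Fin n × Fin Δ)) (p : Fin n × ZMod 2) :
    (Finset.univ.filter (fun t : Ed Del × ZMod 2 => p ∈ lk f b Del t)).card ≤
      Δ + indeg f p.1 := by
  classical
  have h1 : Finset.univ.filter (fun t : Ed Del × ZMod 2 => p ∈ lk f b Del t) ⊆
      Finset.univ.filter (fun t : Ed Del × ZMod 2 => p = (t.1.1.1, t.2)) ∪
      Finset.univ.filter (fun t : Ed Del × ZMod 2 => p = (f t.1.1, t.2 + b t.1.1 + 1)) := by
    intro t ht
    rw [Finset.mem_filter, mem_lk] at ht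
    rw [Finset.mem_union, Finset.mem_filter, Finset.mem_filter]
    rcases ht.2 with h | h
    · exact Or.inl ⟨Finset.mem_univ _, h⟩
    · exact Or.inr ⟨Finset.mem_univ _, h⟩
  refine (Finset.card_le_card h1).trans ((Finset.card_union_le _ _).trans ?_)
  refine add_le_add ?_ ?_
  · have h2 : (Finset.univ.filter (fun t : Ed Del × ZMod 2 => p = (t.1.1.1, t.2))).card ≤
        (Finset.univ : Finset (Fin Δ)).card := by
      refine Finset.card_le_card_of_injOn (fun t => t.1.1.2) (fun t _ => Finset.mem_coe.2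
        (Finset.mem_univ _)) ?_
      intro t ht t' ht' h
      rw [Finset.mem_coe, Finset.mem_filter] at ht ht'
      have h3 : (t.1.1.1, t.2) = (t'.1.1.1, t'.2) := ht.2.symm.trans ht'.2
      rw [Prod.mk.injEq] at h3
      exact Prod.ext (Subtype.ext (Prod.ext h3.1 h)) h3.2
    rwa [Finset.card_univ, Fintype.card_fin] at h2
  · unfold indeg
    refine Finset.card_le_card_of_injOn (fun t => t.1.1) ?_ ?_
    · intro t ht
      rw [Finset.mem_coe, Finset.mem_filter] at ht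
      rw [Finset.mem_coe, Finset.mem_filter]
      exact ⟨Finset.mem_univ _, (congrArg Prod.fst ht.2).symm⟩
    · intro t ht t' ht' h
      rw [Finset.mem_coe, Finset.mem_filter] at ht ht'
      have h3 : (f t.1.1, t.2 + b t.1.1 + 1) = (f t'.1.1, t'.2 + b t'.1.1 + 1) :=
        ht.2.symm.trans ht'.2
      rw [Prod.mk.injEq] at h3
      have h4 : t.1 = t'.1 := Subtype.ext h
      refine Prod.ext h4 ?_
      have h5 := h3.2
      rw [h4] at h5
      exact add_right_cancel (add_right_cancel h5)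

theorem sqs {n Δ : ℕ} (f : Fin n × Fin Δ → Fin n) (b : Fin n × Fin Δ → ZMod 2)
    (Del : Finset (Fin n × Fin Δ))
    (hsq : ∑ v, (indeg f v : ℝ) ^ 2 ≤ 16 * n * (Δ : ℝ) ^ 2) :
    ∑ p : Fin n × ZMod 2,
      ((Finset.univ.filter (fun t : Ed Del × ZMod 2 => p ∈ lk f b Del t)).card : ℝ) ^ 2 ≤
        68 * (n * (Δ : ℝ) ^ 2) := by
  have h1 : ∀ p : Fin n × ZMod 2,
      ((Finset.univ.filter (fun t : Ed Del × ZMod 2 => p ∈ lk f b Del t)).card : ℝ) ^ 2 ≤
        2 * (Δ : ℝ) ^ 2 + 2 * (indeg f p.1 : ℝ) ^ 2 := by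
    intro p
    have h2 : ((Finset.univ.filter (fun t : Ed Del × ZMod 2 => p ∈ lk f b Del t)).card : ℝ) ≤
        (Δ : ℝ) + indeg f p.1 := by exact_mod_cast degs f b Del p
    have h3 := pow_le_pow_left₀ (Nat.cast_nonneg _) h2 2
    refine h3.trans ?_
    nlinarith [sq_nonneg ((Δ : ℝ) - indeg f p.1)]
  refine (Finset.sum_le_sum fun p _ => h1 p).trans ?_
  rw [Fintype.sum_prod_type]
  simp only [Finset.sum_const, Finset.card_univ, ZMod.card, nsmul_eq_mul]
  rw [← Finset.mul_sum, Finset.sum_add_distrib, Finset.sum_const, ← Finset.mul_sum,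
    Finset.card_univ, Fintype.card_fin, nsmul_eq_mul]
  push_cast
  nlinarith

theorem E_cov {n Δ M r : ℕ} (f : Fin n × Fin Δ → Fin n) (b : Fin n × Fin Δ → ZMod 2)
    (Del : Finset (Fin n × Fin Δ)) (φ : Ed Del × ZMod 2 ≃ Fin M)
    (E : ((Fin n → ZMod 2) → ℝ) →ₗ[ℝ] ℝ) (hE : IsLocalExpectation r E) (hr : 2 ≤ r) (τ : ℝ)
    (hEe : ∀ e : Ed Del,
      E (fun z => if z (f e.1) = z e.1.1 + b e.1 then 1 else 0) = τ)
    (hM : (M : ℝ) = 2 * (Fintype.card (Ed Del) : ℝ)) (hpos : 0 < (M : ℝ)) :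
    (1 + τ) / 2 ≤ E (cov (fun j => lk f b Del (φ.symm j))) := by
  classical
  have h1 : cov (fun j => lk f b Del (φ.symm j)) =
      (1 / (M : ℝ)) • ∑ e : Ed Del, (fun y : Fin n → ZMod 2 =>
        cc (y e.1.1) (y (f e.1)) (b e.1)) := by
    funext y
    rw [cov_eq, Pi.smul_apply, Finset.sum_apply, smul_eq_mul]
  have h2 : ∀ e : Ed Del,
      1 + τ ≤ E (fun y : Fin n → ZMod 2 => cc (y e.1.1) (y (f e.1)) (b e.1)) := by
    intro e
    have h3 := hE.nonneg ((fun y : Fin n → ZMod 2 => cc (y e.1.1) (y (f e.1)) (b e.1)) -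
      ((fun _ => (1 : ℝ)) + fun z => if z (f e.1) = z e.1.1 + b e.1 then (1 : ℝ) else 0))
      {e.1.1, f e.1} (Finset.card_le_two.trans hr) ?_ ?_
    · rw [map_sub, map_add, hE.one, hEe e] at h3
      linarith
    · intro x y hxy
      have h4 := hxy e.1.1 (by simp)
      have h5 := hxy (f e.1) (by simp)
      simp only [Pi.sub_apply, Pi.add_apply, h4, h5]
    · intro σ
      have h6 := cc_ge (σ e.1.1) (σ (f e.1)) (b e.1)
      simp only [Pi.sub_apply, Pi.add_apply]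
      linarith
  have h7 : ∑ _e : Ed Del, (1 + τ) ≤ ∑ e : Ed Del,
      E (fun y : Fin n → ZMod 2 => cc (y e.1.1) (y (f e.1)) (b e.1)) :=
    Finset.sum_le_sum fun e _ => h2 e
  rw [Finset.sum_const, Finset.card_univ, nsmul_eq_mul] at h7
  rw [h1, map_smul, map_sum, smul_eq_mul, one_div, inv_mul_eq_div, le_div_iff₀ hpos, hM]
  linarith

theorem unc_ge {x δ ε N M D K : ℝ} (hM : 0 < M) (hMN : M ≤ 2 * N) (hNM : N ≤ M)
    (hδ : δ = ε / 4) (hε : 0 < ε) (hD : D ≤ ε / 16 * N) (hK0 : 0 ≤ K)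
    (hK : 2 * N * (x ^ 2 - δ) ≤ K + 2 * D) : x ^ 2 - ε ≤ K / M := by
  rw [le_div_iff₀ hM]
  by_cases h : x ^ 2 < δ
  · have h1 : x ^ 2 - ε < 0 := by linarith
    nlinarith
  · rw [not_lt] at h
    have h1 : M * (x ^ 2 - δ) ≤ 2 * N * (x ^ 2 - δ) :=
      mul_le_mul_of_nonneg_right hMN (by linarith)
    have h2 : 2 * D ≤ ε / 8 * M := by nlinarith
    nlinarith

end BaseNAux

open BaseNAux

theorem baseN (ε : ℝ) (hε : 0 < ε) (hε1 : ε ≤ 1) :
    ∃ (C : ℕ) (D2 e : ℝ), 1 ≤ C ∧ 0 < e ∧ e ≤ 1 / 4 ∧ 0 ≤ D2 ∧ ∀ R0 : ℕ, ∃ n0 : ℕ, ∀ n ≥ n0,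
      ∃ (M : ℕ) (near : Fin M → Finset (Fin n × ZMod 2)) (r : ℕ)
        (E : ((Fin n → ZMod 2) → ℝ) →ₗ[ℝ] ℝ),
        0 < M ∧ M ≤ C * n ∧ (n : ℝ) ≤ ε * M ∧ (∀ j, (near j).card = 2) ∧
        (2 * (n : ℝ)) ^ e ≤ r ∧ IsLocalExpectation r E ∧ 1 - ε ≤ E (cov near) ∧
        (∀ A : Finset (Fin n × ZMod 2),
          (1 - (A.card : ℝ) / (2 * n)) ^ 2 - ε ≤ unc near A) ∧
        (∀ B : Finset (Fin n × ZMod 2), B.card ≤ R0 →
          (Finset.univ.filter (fun j => near j ⊆ B)).card ≤ 2 * B.card) ∧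
        ∑ p, ((Finset.univ.filter (fun j => p ∈ near j)).card : ℝ) ^ 2 ≤ D2 * M := by
  classical
  set Δ : ℕ := ⌈256 / ε ^ 2⌉₊ with hΔ
  have hΔ0 : 256 / ε ^ 2 ≤ (Δ : ℝ) := Nat.le_ceil _
  have hε2 : 0 < ε ^ 2 := by positivity
  have hΔ2 : 256 ≤ ε ^ 2 * (Δ : ℝ) := by
    rw [div_le_iff₀ hε2] at hΔ0
    linarith
  have hΔr0 : (0 : ℝ) ≤ (Δ : ℝ) := Nat.cast_nonneg _
  have hεΔ : 256 ≤ ε * (Δ : ℝ) := by
    have h1 : ε ^ 2 * (Δ : ℝ) ≤ ε * (Δ : ℝ) := by
      have h2 : ε ^ 2 ≤ ε := by nlinarith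
      exact mul_le_mul_of_nonneg_right h2 hΔr0
    linarith
  have hΔ256 : (256 : ℝ) ≤ (Δ : ℝ) := by nlinarith
  have hΔpos : (0 : ℝ) < (Δ : ℝ) := by linarith
  have hΔn : 256 ≤ Δ := by exact_mod_cast hΔ256
  set d : ℝ := 9 / (2 * (Δ : ℝ)) with hd
  have hd0 : 0 < d := by positivity
  have hd2 : d ≤ 1 / 2 := by
    rw [hd, div_le_iff₀ (by positivity)]
    linarith
  have hceil : ⌈9 / d⌉₊ = 2 * Δ := by
    have h1 : 9 / d = ((2 * Δ : ℕ) : ℝ) := by
      rw [hd]
      push_cast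
      field_simp
    rw [h1, Nat.ceil_natCast]
  set s : ℝ := 1 - ε / 2 with hs
  have hs1 : s < 1 := by rw [hs]; linarith
  have hs2 : 1 / 2 ≤ s := by rw [hs]; linarith
  have hs0 : 0 < s := by linarith
  have hds : d ≤ s := hd2.trans hs2
  have hk0 : (2 : ℕ) ≠ 0 := by norm_num
  set u : ℝ := s ^ (1 / 8 : ℝ) with hu
  have hu0 : 0 < u := Real.rpow_pos_of_pos hs0 _
  have hu1 : u < 1 := Real.rpow_lt_one hs0.le hs1 (by norm_num)
  have hu8 : u ^ 8 = s := by
    rw [hu, ← Real.rpow_natCast, ← Real.rpow_mul hs0.le]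
    norm_num
  have h1u : 0 < 1 - u := by linarith
  have hα8 : 0 < 1 - u ^ 8 := by rw [hu8]; linarith
  set α : ℝ := u ^ 8 / (1 - u ^ 8) with hα
  have hα0 : 0 < α := div_pos (by positivity) hα8
  have hu42 : u ^ 4 < u ^ 2 := pow_lt_pow_right_of_lt_one₀ hu0 hu1 (by norm_num)
  have hεα : 0 < (u ^ 2 - u ^ 4) / α := div_pos (by linarith) hα0
  obtain ⟨m0, hm0⟩ := Pool.Agent.Lib.P325L.csum (u ^ 4) _ (by positivity)
    (pow_lt_one₀ hu0.le hu1 (by norm_num)) hεα
  have hu1u : 0 < u * (1 - u) := mul_pos hu0 h1u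
  have ha : 0 < 8 * α * 2 * (α / (u * (1 - u))) := by positivity
  have hb : 0 < 4 * (2 : ℝ) ^ 2 * u ^ 2 * (α ^ 2 / (u * (1 - u)) ^ 2 + 1 / (1 - u)) := by
    positivity
  have hlogs : 0 < Real.log (1 / s) := by
    apply Real.log_pos
    rw [lt_div_iff₀ hs0]
    linarith
  have hlogd : 0 < Real.log (1 / d) := by
    apply Real.log_pos
    rw [lt_div_iff₀ hd0]
    linarith
  have hlog : Real.log (1 / s) ≤ Real.log (1 / d) := by
    apply Real.log_le_log (by positivity)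
    exact one_div_le_one_div_of_le hd0 hds
  refine ⟨2 * Δ, 68 * Δ, Real.log (1 / s) / Real.log (1 / d) / 20000, by omega, by positivity,
    ?_, by positivity, ?_⟩
  · have h1 : Real.log (1 / s) / Real.log (1 / d) ≤ 1 := by
      rw [div_le_one hlogd]
      exact hlog
    linarith
  intro R0
  obtain ⟨n0, hn0⟩ := Pool.Agent.Lib.P325L.par s d _ _ hd0 hd2 hds hs1 ha hb
    (max m0 (max R0 ⌈64 / ε⌉₊))
  refine ⟨n0, fun n hn => ?_⟩
  obtain ⟨m, g, l0, r, v0, c1, c2, c3, c4, c5, c6, c7, c8, c9, c10, c11, c12, c13, c14, c15⟩ :=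
    hn0 n hn
  rw [← hu] at c13 c14
  rw [hceil] at c11 c12
  push_cast at c11 c12
  have hm0m : m0 ≤ m := (le_max_left _ _).trans c2
  have hR0m : R0 ≤ m := ((le_max_left _ _).trans (le_max_right _ _)).trans c2
  have hKm : ⌈64 / ε⌉₊ ≤ m := ((le_max_right _ _).trans (le_max_right _ _)).trans c2
  have hR0g : R0 ≤ g := by omega
  have hnpos : (0 : ℝ) < n := by
    have h1 : 0 < n := by omega
    exact_mod_cast h1
  have h2g : 64 / ε ≤ (2 : ℝ) ^ g := by
    have h1 : 64 / ε ≤ (⌈64 / ε⌉₊ : ℝ) := Nat.le_ceil _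
    have h2 : ((⌈64 / ε⌉₊ : ℕ) : ℝ) ≤ (g : ℝ) := by
      have : ⌈64 / ε⌉₊ ≤ g := by omega
      exact_mod_cast this
    have h3 : (g : ℝ) ≤ (2 : ℝ) ^ g := by
      have := (Nat.lt_two_pow_self (n := g)).le
      exact_mod_cast this
    linarith
  obtain ⟨c, p, hcp⟩ := Pool.Agent.Lib.P325L.coef m
  have hQ : u ^ 4 + u ^ 8 / (1 - u ^ 8) * ∑ j ∈ Finset.range (m + 1), c j * (u ^ 4) ^ j ≤
      u ^ 2 := by
    have h1 := hm0 m hm0m c hcp.nonneg hcp.le
    rw [le_div_iff₀ hα0] at h1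
    rw [← hα]
    nlinarith
  have hN : (2 * (9 * (Δ : ℝ)) ^ 3) ^ (4 * (20 * (m + 3))) ≤ (n : ℝ) := by
    refine le_trans ?_ c11
    gcongr
    linarith
  obtain ⟨f, b, Del, hDel, hgir, hspa, hsq, hdisc⟩ := selN n Δ g (2 * v0) (20 * (m + 3)) (ε / 4)
    (by linarith) (by linarith) (by nlinarith) c1 (by omega) c10 c5 c6 (by omega) hN
  have hDel' : (Del.card : ℝ) ≤ ε / 16 * ((n : ℝ) * Δ) := by
    have h3 : (9 * (2 * (Δ : ℝ))) ^ g = 2 ^ g * (9 * (Δ : ℝ)) ^ g := by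
      rw [← mul_pow]
      congr 1
      ring
    rw [h3] at c12
    have h4 : (0 : ℝ) < 2 ^ g := by positivity
    have h5 : (64 : ℝ) ≤ ε * 2 ^ g := by
      rw [div_le_iff₀ hε] at h2g
      linarith
    have h6 : 2 ^ g * (8 * ((g : ℝ) ^ 3 * (9 * (Δ : ℝ)) ^ g)) ≤ 4 * ((n : ℝ) * Δ) := by
      nlinarith
    have h7 : 4 * ((n : ℝ) * Δ) ≤ 2 ^ g * (ε / 16 * ((n : ℝ) * Δ)) := by
      have h8 : (0 : ℝ) ≤ (n : ℝ) * Δ := by positivity
      nlinarith
    exact hDel.trans (le_of_mul_le_mul_left (h6.trans h7) h4)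
  have hne := ne_of f Del c5 hgir
  have hG : (rg f Del hne).Girth g := by
    intro H hH hc
    have h1 := hgir (H.map (Function.Embedding.subtype _))
      (Pool.Agent.Lib.P325L.MainAux.disj Del H) (by simpa using hH)
      (by rw [Finset.card_map]; exact hc)
    rw [verts_map f Del hne, Finset.card_map] at h1
    exact h1
  have hS : (rg f Del hne).Sparse (2 * v0) (20 * (m + 3)) := by
    intro H hH
    have h1 := hspa (H.map (Function.Embedding.subtype _)) (by rw [verts_map f Del hne]; exact hH)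
    rw [verts_map f Del hne, Finset.card_map] at h1
    exact h1
  obtain ⟨X, _, _, D, hD⟩ := Pool.Agent.Lib.P325L.tag_ex (ZMod 2) m
    (Fintype.card (Ed Del) + 1)
  have hcard : (Fintype.card (ZMod 2) : ℝ) = 2 := by rw [ZMod.card]; norm_num
  obtain ⟨L, L1, L2, L3, L4⟩ := Pool.Agent.Lib.P325L.fam D hD (rg f Del hne) (fun e => b e.1) c p
    hcp g (2 * v0) (20 * (m + 3)) r l0 v0 hG hS le_rfl c9 c4 c3 rfl c7 c8 u hu0 hu1 c13 hQ
    _ _ _ rfl rfl rfl
    (by
      rw [hcard]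
      exact Pool.Agent.Lib.P325L.MainAux.small hα0 hu0 hu1 (Nat.cast_nonneg _) (by positivity)
        (Nat.cast_nonneg _) (by positivity) c14)
  obtain ⟨E, hE, hEL⟩ := Pool.Agent.Lib.P325L.ext_local r L L1 L2 L3
  have hEe : ∀ e : Ed Del,
      E (fun z => if z (f e.1) = z e.1.1 + b e.1 then 1 else 0) = (1 + s) / 2 := by
    intro e
    have h1 := hEL {(rg f Del hne).src e, (rg f Del hne).tgt e}
      (fun z => if z ((rg f Del hne).tgt e) = z ((rg f Del hne).src e) + b e.1 then 1 else 0)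
      (Finset.card_le_two.trans c4) ?_
    · rw [L4 e, hu8, hcard] at h1
      have h2 : E (fun z => if z (f e.1) = z e.1.1 + b e.1 then 1 else 0) =
          (1 + s * (2 - 1)) / 2 := h1
      rw [h2]
      ring
    · intro x y hxy
      have h2 := hxy ((rg f Del hne).src e) (by simp)
      have h3 := hxy ((rg f Del hne).tgt e) (by simp)
      simp only [h2, h3]
  have hNpos : (0 : ℝ) < (n : ℝ) * Δ := by positivity
  have hDelR : (Del.card : ℝ) ≤ 1 / 16 * ((n : ℝ) * Δ) := by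
    refine hDel'.trans ?_
    exact mul_le_mul_of_nonneg_right (by linarith) hNpos.le
  have hDelN : 2 * Del.card ≤ n * Δ := by
    have h1 : 2 * (Del.card : ℝ) ≤ (n : ℝ) * Δ := by linarith
    exact_mod_cast h1
  have hcs : (Fintype.card (Ed Del) : ℝ) = (n : ℝ) * Δ - Del.card :=
    Pool.Agent.Lib.P325L.MainAux.card_sub Del hDelN
  set M : ℕ := Fintype.card (Ed Del × ZMod 2) with hM
  have hM2 : (M : ℝ) = 2 * (Fintype.card (Ed Del) : ℝ) := by
    rw [hM, Fintype.card_prod, ZMod.card]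
    push_cast
    ring
  have hMN : (M : ℝ) ≤ 2 * ((n : ℝ) * Δ) := by
    rw [hM2, hcs]
    have : (0 : ℝ) ≤ Del.card := Nat.cast_nonneg _
    linarith
  have hNM : (n : ℝ) * Δ ≤ M := by
    rw [hM2, hcs]
    linarith
  have hMpos : (0 : ℝ) < M := hNpos.trans_le hNM
  let φ : Ed Del × ZMod 2 ≃ Fin M := Fintype.equivFin _
  refine ⟨M, fun j => lk f b Del (φ.symm j), r, E, by exact_mod_cast hMpos, ?_, ?_,
    fun j => lk_card f b Del hne _, c15, hE, ?_, ?_, ?_, ?_⟩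
  · have h1 : (M : ℝ) ≤ ((2 * Δ * n : ℕ) : ℝ) := by
      push_cast
      linarith
    exact_mod_cast h1
  · have h1 : ε * ((n : ℝ) * Δ) ≤ ε * M := mul_le_mul_of_nonneg_left hNM hε.le
    have h2 : (n : ℝ) * 256 ≤ (n : ℝ) * (ε * Δ) := mul_le_mul_of_nonneg_left hεΔ hnpos.le
    linarith
  · refine le_trans ?_ (E_cov f b Del φ E hE c4 _ hEe hM2 hMpos)
    rw [hs]
    linarith
  · intro A
    rw [unc_eq]
    have h1 : 1 - (A.card : ℝ) / (2 * n) = ((Aᶜ).card : ℝ) / (2 * n) := by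
      have h2 : ((Aᶜ).card : ℝ) = 2 * n - A.card := by
        rw [Finset.card_compl, Nat.cast_sub (Finset.card_le_univ A), Fintype.card_prod,
          Fintype.card_fin, ZMod.card]
        push_cast
        ring
      rw [h2, sub_div, div_self (by positivity)]
    rw [h1]
    refine unc_ge (δ := ε / 4) hMpos hMN hNM rfl hε hDel' (Nat.cast_nonneg _) ?_
    refine (hdisc Aᶜ).trans ?_
    exact_mod_cast num_ge f b Del Aᶜ
  · intro B hB
    rw [card_eqv Del φ (fun t => lk f b Del t ⊆ B)]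
    exact spars f b Del hgir B (hB.trans hR0g)
  · have h1 : ∀ p : Fin n × ZMod 2,
        (Finset.univ.filter (fun j : Fin M => p ∈ lk f b Del (φ.symm j))).card =
          (Finset.univ.filter (fun t : Ed Del × ZMod 2 => p ∈ lk f b Del t)).card :=
      fun p => card_eqv Del φ (fun t => p ∈ lk f b Del t)
    simp only [h1]
    refine (sqs f b Del hsq).trans ?_
    have h2 : (Δ : ℝ) * ((n : ℝ) * Δ) ≤ (Δ : ℝ) * M := mul_le_mul_of_nonneg_left hNM hΔr0
    nlinarith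

end Pool.Agent.Lib.P47k
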