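import Pool.Agent.Lib.P47k.Layer

/-!
Module Geo (2.5h; black boxes layer_lower, layer_upper). Any |W|/2 centres save at most 3/4 of the points e_p + e_q.
PROOF. ind t w = [w = P t] + [w = Q t] ∈ {0, 1}; ∑_w (ind t w - z w)^2 = 2 - 2 (z (P t) + z (Q t)) + ∑_w (z w)^2. For t with F t < 2 choose zz t ∈ Z as in hF, for
z ∈ Z let T_z = {t : F t < 2, zz t = z}, d = card T_z, deg_z w = number of the t ∈ T_z with w ∈ {P t, Q t}, c_w = deg_z w / d ∈ [0, 1] (d > 0), ∑_w c_w = 2,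
S = ∑ c_w^2. Completing the square: ∑_{t ∈ T_z} (2 - F t) ≤ 2 ∑_w deg_z w z_w - d ∑ z_w^2 ≤ ∑_w (deg_z w)^2 / d = ∑_{t ∈ T_z} (2 (c_P + c_Q) - S).
(a) card {w : deg_z w > 0} > R0: then 2 d > R0 and the sum is ≤ (2/R0) ∑_w (deg_z w)^2. (b) otherwise it is = ∑_{t ∈ T_z} ((2 max (c_P, c_Q) - S) + 2 min (c_P, c_Q)), the
second part is ≤ 2 * 2 * ∑_w c_w = 8 by layer_upper (a = 2; B ⊆ {c > 0} has at most R0 elements: hsp). Let g w = min 1 (∑_{z ∈ Z} max 0 (2 c^z_w - S^z))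
(c^z = 0 if T_z is empty). Every term is ≤ 1 (2 x - x^2 ≤ 1), so 2 c^z_w - S^z ≤ g w, 0 ≤ g ≤ 1, and ∑_w max 0 (2 c_w - S) ≤ 1 for each z
(for {w : 2 c_w > S} with k elements: x = ∑ c_w over it, x^2 ≤ k S, 2 x - k S ≤ 2 x - x^2 ≤ 1). So ∑_w g w ≤ card Z ≤ card W/2.
Total: ∑_{F t < 2} (2 - F t) ≤ ∑_t max (g (P t)) (g (Q t)) + 8 card Z + (2/R0) ∑_z ∑_w (deg_z w)^2. With h = 1 - g: max = 1 - min (h (P t)) (h (Q t)), and by
layer_lower (c = card T) ∑_t min ≥ card T ((∑ h/card W)^2 - ε) ≥ card T (1/4 - ε). 8 card Z ≤ 4 card W ≤ 8 ε card T. ∑_z (deg_z w)^2 ≤ (∑_z deg_z w)^2 ≤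
(number of the t with w ∈ {P t, Q t})^2, so the last part is ≤ (2/R0) D2 card T ≤ 2 ε card T. Hence ∑ F ≥ 2 card T - card T (3/4 + 11 ε).
-/

open scoped BigOperators

namespace Pool.Agent.Lib.P47k

namespace GeoAux

variable {W T : Type} [Fintype W] [DecidableEq W]

/-- the number of the ends at `w` -/
def dg (P Q : T → W) (D : Finset T) (w : W) : ℝ :=
  ∑ t ∈ D, ((if w = P t then (1 : ℝ) else 0) + (if w = Q t then 1 else 0))

omit [Fintype W] in
theorem dg_nonneg (P Q : T → W) (D : Finset T) (w : W) : 0 ≤ dg P Q D w := by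
  unfold dg
  refine Finset.sum_nonneg fun t _ => add_nonneg ?_ ?_ <;> split_ifs <;> norm_num

theorem sum_dg (P Q : T → W) (D : Finset T) (f : W → ℝ) :
    ∑ w, dg P Q D w * f w = ∑ t ∈ D, (f (P t) + f (Q t)) := by
  simp only [dg, Finset.sum_mul]
  rw [Finset.sum_comm]
  refine Finset.sum_congr rfl fun t _ => ?_
  simp only [add_mul, ite_mul, one_mul, zero_mul, Finset.sum_add_distrib, Finset.sum_ite_eq',
    Finset.mem_univ, if_true]

theorem sum_dg_one (P Q : T → W) (D : Finset T) : ∑ w, dg P Q D w = 2 * D.card := by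
  have h := sum_dg P Q D fun _ => 1
  simp only [mul_one] at h
  rw [h, Finset.sum_const, nsmul_eq_mul]
  ring

omit [Fintype W] in
theorem dg_le (P Q : T → W) (hPQ : ∀ t, P t ≠ Q t) (D : Finset T) (w : W) :
    dg P Q D w ≤ D.card := by
  unfold dg
  have h : ∀ t ∈ D, ((if w = P t then (1 : ℝ) else 0) + (if w = Q t then 1 else 0)) ≤ 1 := by
    intro t _
    by_cases h1 : w = P t
    · have h2 : w ≠ Q t := fun h => hPQ t (h1.symm.trans h)
      rw [if_pos h1, if_neg h2]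
      norm_num
    · rw [if_neg h1]
      split_ifs <;> norm_num
  refine (Finset.sum_le_sum h).trans ?_
  simp

omit [Fintype W] in
theorem one_le_dg (P Q : T → W) (D : Finset T) (w : W) (h : 0 < dg P Q D w) :
    1 ≤ dg P Q D w := by
  by_contra hcon
  have h1 : ∀ t ∈ D, ¬ (w = P t ∨ w = Q t) := by
    intro t ht h2
    apply hcon
    refine le_trans ?_ (Finset.single_le_sum (f := fun t =>
      ((if w = P t then (1 : ℝ) else 0) + (if w = Q t then 1 else 0))) (fun t _ => ?_) ht)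
    · rcases h2 with h2 | h2
      · simp only [if_pos h2]
        split_ifs <;> norm_num
      · simp only [if_pos h2]
        split_ifs <;> norm_num
    · refine add_nonneg ?_ ?_ <;> split_ifs <;> norm_num
  have h3 : dg P Q D w = 0 := by
    unfold dg
    refine Finset.sum_eq_zero fun t ht => ?_
    have h4 := h1 t ht
    push Not at h4
    rw [if_neg h4.1, if_neg h4.2, add_zero]
  rw [h3] at h
  exact lt_irrefl _ h

theorem sum_sq {p q : W} (hpq : p ≠ q) (z : W → ℝ) :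
    ∑ w, ((if w = p then (1 : ℝ) else 0) + (if w = q then 1 else 0) - z w) ^ 2 =
      2 - 2 * (z p + z q) + ∑ w, z w ^ 2 := by
  have h : ∀ w, ((if w = p then (1 : ℝ) else 0) + (if w = q then 1 else 0) - z w) ^ 2 =
      (if w = p then (1 - 2 * z w) else 0) + (if w = q then (1 - 2 * z w) else 0) + z w ^ 2 := by
    intro w
    by_cases h1 : w = p
    · subst h1
      rw [if_pos rfl, if_neg hpq, if_pos rfl, if_neg hpq]
      ring
    · rw [if_neg h1, if_neg h1]
      by_cases h2 : w = q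
      · rw [if_pos h2, if_pos h2]
        ring
      · rw [if_neg h2, if_neg h2]
        ring
  simp only [h, Finset.sum_add_distrib, Finset.sum_ite_eq', Finset.mem_univ, if_true]
  ring

theorem local1 (P Q : T → W) (D : Finset T) (F : T → ℝ) (z c : W → ℝ)
    (h : ∀ t ∈ D, 2 - F t ≤ 2 * (z (P t) + z (Q t)) - ∑ w, z w ^ 2)
    (hc : ∀ w, D.card * c w = dg P Q D w) :
    ∑ t ∈ D, (2 - F t) ≤ D.card * ∑ w, c w ^ 2 := by
  have h1 : ∑ t ∈ D, (2 * (z (P t) + z (Q t)) - ∑ w, z w ^ 2) =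
      ∑ w, (D.card : ℝ) * (2 * c w * z w - z w ^ 2) := by
    rw [Finset.sum_sub_distrib, ← Finset.mul_sum, ← sum_dg P Q D z, Finset.sum_const, nsmul_eq_mul,
      Finset.mul_sum, Finset.mul_sum, ← Finset.sum_sub_distrib]
    refine Finset.sum_congr rfl fun w _ => ?_
    rw [← hc w]
    ring
  refine (Finset.sum_le_sum h).trans (h1.le.trans ?_)
  rw [Finset.mul_sum]
  refine Finset.sum_le_sum fun w _ => mul_le_mul_of_nonneg_left ?_ (Nat.cast_nonneg _)
  nlinarith [sq_nonneg (c w - z w)]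

theorem local2 (P Q : T → W) (D : Finset T) (c : W → ℝ)
    (hc : ∀ w, D.card * c w = dg P Q D w) :
    ∑ t ∈ D, (2 * (c (P t) + c (Q t)) - ∑ w, c w ^ 2) = D.card * ∑ w, c w ^ 2 := by
  rw [Finset.sum_sub_distrib, ← Finset.mul_sum, ← sum_dg P Q D c, Finset.sum_const, nsmul_eq_mul]
  have h : ∑ w, dg P Q D w * c w = D.card * ∑ w, c w ^ 2 := by
    rw [Finset.mul_sum]
    refine Finset.sum_congr rfl fun w _ => ?_
    rw [← hc w]
    ring
  rw [h]
  ring

theorem local3 [Fintype T] (P Q : T → W) (hPQ : ∀ t, P t ≠ Q t) (R0 : ℕ) (hR0 : 0 < R0)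
    (hsp : ∀ B : Finset W, B.card ≤ R0 →
      (Finset.univ.filter (fun t => P t ∈ B ∧ Q t ∈ B)).card ≤ 2 * B.card)
    (D : Finset T) (c g : W → ℝ)
    (hc : ∀ w, D.card * c w = dg P Q D w)
    (hg : ∀ w, 0 ≤ g w) (hg2 : ∀ w, 2 * c w - ∑ w, c w ^ 2 ≤ g w) :
    D.card * ∑ w, c w ^ 2 ≤
      ∑ t ∈ D, max (g (P t)) (g (Q t)) + 8 + 2 / R0 * ∑ w, dg P Q D w ^ 2 := by
  classical
  have hR : (0 : ℝ) < R0 := by exact_mod_cast hR0
  have p1 : 0 ≤ ∑ t ∈ D, max (g (P t)) (g (Q t)) :=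
    Finset.sum_nonneg fun t _ => (hg _).trans (le_max_left _ _)
  have p2 : 0 ≤ 2 / R0 * ∑ w, dg P Q D w ^ 2 :=
    mul_nonneg (div_nonneg zero_le_two hR.le) (Finset.sum_nonneg fun w _ => sq_nonneg _)
  rcases Nat.eq_zero_or_pos D.card with hD | hD
  · rw [hD]
    simp only [Nat.cast_zero, zero_mul]
    linarith
  have hd : (0 : ℝ) < D.card := by exact_mod_cast hD
  have hcn : ∀ w, 0 ≤ c w := by
    intro w
    have h1 : 0 ≤ (D.card : ℝ) * c w := by
      rw [hc w]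
      exact dg_nonneg _ _ _ _
    exact nonneg_of_mul_nonneg_right h1 hd
  have hc1 : ∀ w, c w ≤ 1 := by
    intro w
    have h1 := dg_le P Q hPQ D w
    rw [← hc w] at h1
    nlinarith
  have hsum : ∑ w, c w = 2 := by
    have h1 := sum_dg_one P Q D
    simp only [← hc] at h1
    rw [← Finset.mul_sum] at h1
    nlinarith
  let B0 : Finset W := Finset.univ.filter (fun w => 0 < dg P Q D w)
  by_cases hB : R0 < B0.card
  · have h1 : (B0.card : ℝ) ≤ 2 * D.card := by
      rw [← sum_dg_one P Q D]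
      calc (B0.card : ℝ) = ∑ w ∈ B0, 1 := by simp
        _ ≤ ∑ w ∈ B0, dg P Q D w := Finset.sum_le_sum fun w hw =>
            one_le_dg _ _ _ _ (Finset.mem_filter.1 hw).2
        _ ≤ ∑ w, dg P Q D w := Finset.sum_le_sum_of_subset_of_nonneg (Finset.subset_univ _)
            fun w _ _ => dg_nonneg _ _ _ _
    have h2 : (R0 : ℝ) ≤ 2 * D.card := le_trans (by exact_mod_cast hB.le) h1
    have h3 : ∑ w, dg P Q D w ^ 2 = D.card * (D.card * ∑ w, c w ^ 2) := by
      rw [Finset.mul_sum, Finset.mul_sum]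
      refine Finset.sum_congr rfl fun w _ => ?_
      rw [← hc w]
      ring
    have h4 : 0 ≤ (D.card : ℝ) * ∑ w, c w ^ 2 :=
      mul_nonneg hd.le (Finset.sum_nonneg fun w _ => sq_nonneg _)
    have h5 : (1 : ℝ) ≤ 2 / R0 * D.card := by
      rw [div_mul_eq_mul_div, le_div_iff₀ hR]
      linarith
    have h6 : (D.card : ℝ) * ∑ w, c w ^ 2 ≤ 2 / R0 * ∑ w, dg P Q D w ^ 2 := by
      rw [h3, ← mul_assoc]
      exact le_mul_of_one_le_left h4 h5
    linarith
  · push Not at hB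
    have h1 : ∑ t ∈ D, min (c (P t)) (c (Q t)) ≤ 2 * ∑ w, c w := by
      refine layer_upper P Q D c hcn hc1 2 zero_le_two fun B hB2 => ?_
      have h2 : B ⊆ B0 := fun w hw => Finset.mem_filter.2 ⟨Finset.mem_univ _, by
        rw [← hc w]
        exact mul_pos hd (hB2 w hw)⟩
      have h3 := hsp B ((Finset.card_le_card h2).trans hB)
      have h4 : (D.filter (fun t => P t ∈ B ∧ Q t ∈ B)).card ≤
          (Finset.univ.filter (fun t => P t ∈ B ∧ Q t ∈ B)).card :=
        Finset.card_le_card (Finset.filter_subset_filter _ (Finset.subset_univ _))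
      exact_mod_cast h4.trans h3
    rw [hsum] at h1
    have h2 : ∑ t ∈ D, (2 * (c (P t) + c (Q t)) - ∑ w, c w ^ 2) ≤
        ∑ t ∈ D, (max (g (P t)) (g (Q t)) + 2 * min (c (P t)) (c (Q t))) := by
      refine Finset.sum_le_sum fun t _ => ?_
      have h3 := hg2 (P t)
      have h4 := hg2 (Q t)
      rcases le_total (c (P t)) (c (Q t)) with h5 | h5
      · rw [min_eq_left h5]
        have h6 := le_max_right (g (P t)) (g (Q t))
        linarith
      · rw [min_eq_right h5]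
        have h6 := le_max_left (g (P t)) (g (Q t))
        linarith
    rw [local2 P Q D c hc, Finset.sum_add_distrib, ← Finset.mul_sum] at h2
    linarith

omit [DecidableEq W] in
theorem two_c_le (c : W → ℝ) (w : W) : 2 * c w - ∑ w, c w ^ 2 ≤ 1 := by
  have h := Finset.single_le_sum (f := fun w => c w ^ 2) (fun w _ => sq_nonneg _)
    (Finset.mem_univ w)
  nlinarith [sq_nonneg (c w - 1)]

omit [DecidableEq W] in
theorem sum_pos_part (c : W → ℝ) : ∑ w, max 0 (2 * c w - ∑ w, c w ^ 2) ≤ 1 := by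
  classical
  set S := ∑ w, c w ^ 2 with hS
  let K : Finset W := Finset.univ.filter (fun w => 0 < 2 * c w - S)
  have h1 : ∑ w, max 0 (2 * c w - S) = ∑ w ∈ K, (2 * c w - S) := by
    rw [Finset.sum_filter]
    refine Finset.sum_congr rfl fun w _ => ?_
    by_cases h : 0 < 2 * c w - S
    · rw [if_pos h, max_eq_right h.le]
    · rw [if_neg h, max_eq_left (not_lt.1 h)]
  have h2 : (∑ w ∈ K, c w) ^ 2 ≤ K.card * ∑ w ∈ K, c w ^ 2 := sq_sum_le_card_mul_sum_sq
  have h3 : ∑ w ∈ K, c w ^ 2 ≤ S := Finset.sum_le_sum_of_subset_of_nonneg (Finset.subset_univ _)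
    fun w _ _ => sq_nonneg _
  have h4 : (K.card : ℝ) * ∑ w ∈ K, c w ^ 2 ≤ K.card * S :=
    mul_le_mul_of_nonneg_left h3 (Nat.cast_nonneg _)
  rw [h1, Finset.sum_sub_distrib, ← Finset.mul_sum, Finset.sum_const, nsmul_eq_mul]
  nlinarith [sq_nonneg (∑ w ∈ K, c w - 1)]

theorem sum_sq_le {ι : Type} (Z : Finset ι) (a : ι → ℝ) (ha : ∀ z ∈ Z, 0 ≤ a z) :
    ∑ z ∈ Z, a z ^ 2 ≤ (∑ z ∈ Z, a z) ^ 2 := by
  rw [sq (∑ z ∈ Z, a z), Finset.sum_mul]
  refine Finset.sum_le_sum fun z hz => ?_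
  rw [sq]
  exact mul_le_mul_of_nonneg_left (Finset.single_le_sum ha hz) (ha z hz)

end GeoAux

open GeoAux

theorem geo {W T : Type} [Fintype W] [DecidableEq W] [Fintype T] (P Q : T → W)
    (hPQ : ∀ t, P t ≠ Q t) (hWpos : 0 < Fintype.card W) (ε D2 : ℝ) (hε : 0 < ε) (R0 : ℕ)
    (hR0 : 0 < R0) (hD2 : D2 ≤ ε * R0)
    (hcount : ∀ B : Finset W, (Fintype.card T : ℝ) * (((B.card : ℝ) / Fintype.card W) ^ 2 - ε) ≤
      ((Finset.univ.filter (fun t => P t ∈ B ∧ Q t ∈ B)).card : ℝ))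
    (hsp : ∀ B : Finset W, B.card ≤ R0 →
      (Finset.univ.filter (fun t => P t ∈ B ∧ Q t ∈ B)).card ≤ 2 * B.card)
    (hdeg : ∑ w, ((Finset.univ.filter (fun t => P t = w ∨ Q t = w)).card : ℝ) ^ 2 ≤
      D2 * Fintype.card T)
    (hW : (Fintype.card W : ℝ) ≤ 2 * ε * Fintype.card T)
    (Z : Finset (W → ℝ)) (hZ : 2 * Z.card ≤ Fintype.card W) (F : T → ℝ)
    (hF : ∀ t, 2 ≤ F t ∨ ∃ z ∈ Z,
      ∑ w, ((if w = P t then (1 : ℝ) else 0) + (if w = Q t then 1 else 0) - z w) ^ 2 ≤ F t) :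
    (Fintype.card T : ℝ) * (5 / 4 - 11 * ε) ≤ ∑ t, F t := by
  classical
  have hWr : (0 : ℝ) < Fintype.card W := by exact_mod_cast hWpos
  have hR : (0 : ℝ) < R0 := by exact_mod_cast hR0
  have hz : ∀ t, ∃ z : W → ℝ, F t < 2 → z ∈ Z ∧
      2 - F t ≤ 2 * (z (P t) + z (Q t)) - ∑ w, z w ^ 2 := by
    intro t
    rcases hF t with h | ⟨z, hz, h⟩
    · exact ⟨fun _ => 0, fun h' => absurd h (not_le.2 h')⟩
    · refine ⟨z, fun _ => ⟨hz, ?_⟩⟩
      rw [sum_sq (hPQ t)] at h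
      linarith
  choose zz hzz using hz
  let A : Finset T := Finset.univ.filter (fun t => F t < 2)
  let Tz : (W → ℝ) → Finset T := fun z => A.filter (fun t => zz t = z)
  have hmaps : ∀ t ∈ A, zz t ∈ Z := fun t ht => (hzz t (Finset.mem_filter.1 ht).2).1
  let c : (W → ℝ) → W → ℝ := fun z w => dg P Q (Tz z) w / (Tz z).card
  have hc : ∀ z w, (Tz z).card * c z w = dg P Q (Tz z) w := by
    intro z w
    by_cases h : (Tz z).card = 0
    · have h1 : Tz z = ∅ := Finset.card_eq_zero.1 h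
      rw [h, h1]
      simp [dg]
    · have h1 : ((Tz z).card : ℝ) ≠ 0 := by exact_mod_cast h
      simp only [c]
      field_simp
  let g : W → ℝ := fun w => min 1 (∑ z ∈ Z, max 0 (2 * c z w - ∑ w, c z w ^ 2))
  have hg0 : ∀ w, 0 ≤ g w := fun w => le_min zero_le_one
    (Finset.sum_nonneg fun z _ => le_max_left _ _)
  have hg1 : ∀ w, g w ≤ 1 := fun w => min_le_left _ _
  have hg2 : ∀ z ∈ Z, ∀ w, 2 * c z w - ∑ w, c z w ^ 2 ≤ g w := by
    intro z hz w
    refine le_min (two_c_le (c z) w) ((le_max_right 0 _).trans ?_)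
    exact Finset.single_le_sum (f := fun z => max 0 (2 * c z w - ∑ w, c z w ^ 2))
      (fun z _ => le_max_left _ _) hz
  have hgs : ∑ w, g w ≤ Z.card := by
    calc ∑ w, g w ≤ ∑ w, ∑ z ∈ Z, max 0 (2 * c z w - ∑ w, c z w ^ 2) :=
          Finset.sum_le_sum fun w _ => min_le_right _ _
      _ = ∑ z ∈ Z, ∑ w, max 0 (2 * c z w - ∑ w, c z w ^ 2) := Finset.sum_comm
      _ ≤ ∑ z ∈ Z, 1 := Finset.sum_le_sum fun z _ => sum_pos_part (c z)
      _ = Z.card := by simp
  -- the sum over the clusters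
  have h1 : ∑ t ∈ A, (2 - F t) ≤ ∑ t ∈ A, max (g (P t)) (g (Q t)) + 8 * Z.card +
      2 / R0 * ∑ w, ∑ z ∈ Z, dg P Q (Tz z) w ^ 2 := by
    have e1 := Finset.sum_fiberwise_of_maps_to hmaps (fun t => 2 - F t)
    have e2 := Finset.sum_fiberwise_of_maps_to hmaps (fun t => max (g (P t)) (g (Q t)))
    rw [← e1, ← e2, Finset.sum_comm (s := Finset.univ), Finset.mul_sum]
    have e3 : (8 : ℝ) * Z.card = ∑ z ∈ Z, 8 := by
      rw [Finset.sum_const, nsmul_eq_mul]
      ring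
    rw [e3, ← Finset.sum_add_distrib, ← Finset.sum_add_distrib]
    refine Finset.sum_le_sum fun z hz => ?_
    refine (local1 P Q (Tz z) F z (c z) ?_ (hc z)).trans
      (local3 P Q hPQ R0 hR0 hsp (Tz z) (c z) g (hc z) hg0 (hg2 z hz))
    intro t ht
    obtain ⟨ht1, ht2⟩ := Finset.mem_filter.1 ht
    have h2 := (hzz t (Finset.mem_filter.1 ht1).2).2
    rwa [ht2] at h2
  -- the first part
  have h2 : ∑ t ∈ A, max (g (P t)) (g (Q t)) ≤ Fintype.card T * (3 / 4 + ε) := by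
    have e1 : ∑ t ∈ A, max (g (P t)) (g (Q t)) ≤ ∑ t, max (g (P t)) (g (Q t)) :=
      Finset.sum_le_sum_of_subset_of_nonneg (Finset.subset_univ _)
        fun t _ _ => (hg0 _).trans (le_max_left _ _)
    have e2 : ∀ t, max (g (P t)) (g (Q t)) = 1 - min (1 - g (P t)) (1 - g (Q t)) := by
      intro t
      rcases le_total (g (P t)) (g (Q t)) with h | h
      · rw [max_eq_right h, min_eq_right (by linarith)]
        ring
      · rw [max_eq_left h, min_eq_left (by linarith)]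
        ring
    have e3 := layer_lower P Q (fun w => 1 - g w) (fun w => by linarith [hg1 w])
      (fun w => by linarith [hg0 w]) (Fintype.card T) ε (Nat.cast_nonneg _) hcount
    have e4 : ∑ w, (1 - g w) = Fintype.card W - ∑ w, g w := by
      rw [Finset.sum_sub_distrib]
      simp
    have e5 : (2 : ℝ) * Z.card ≤ Fintype.card W := by exact_mod_cast hZ
    have e6 : (1 / 2 : ℝ) ≤ (∑ w, (1 - g w)) / Fintype.card W := by
      rw [le_div_iff₀ hWr, e4]
      linarith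
    have e7 : (1 / 4 : ℝ) ≤ ((∑ w, (1 - g w)) / Fintype.card W) ^ 2 := by
      nlinarith
    have e8 : (Fintype.card T : ℝ) * (1 / 4 - ε) ≤
        Fintype.card T * (((∑ w, (1 - g w)) / Fintype.card W) ^ 2 - ε) :=
      mul_le_mul_of_nonneg_left (by linarith) (Nat.cast_nonneg _)
    have e9 : ∑ t, max (g (P t)) (g (Q t)) =
        Fintype.card T - ∑ t, min (1 - g (P t)) (1 - g (Q t)) := by
      simp only [e2, Finset.sum_sub_distrib]
      simp
    rw [e9] at e1
    linarith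
  -- the second part
  have h3 : (8 : ℝ) * Z.card ≤ 8 * ε * Fintype.card T := by
    have e5 : (2 : ℝ) * Z.card ≤ Fintype.card W := by exact_mod_cast hZ
    linarith
  -- the third part
  have h4 : 2 / R0 * ∑ w, ∑ z ∈ Z, dg P Q (Tz z) w ^ 2 ≤ 2 * ε * Fintype.card T := by
    have e1 : ∀ w, ∑ z ∈ Z, dg P Q (Tz z) w ^ 2 ≤
        ((Finset.univ.filter (fun t => P t = w ∨ Q t = w)).card : ℝ) ^ 2 := by
      intro w
      refine (sum_sq_le Z _ fun z _ => dg_nonneg _ _ _ _).trans ?_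
      have e2 : ∑ z ∈ Z, dg P Q (Tz z) w = dg P Q A w :=
        Finset.sum_fiberwise_of_maps_to hmaps _
      rw [e2]
      refine pow_le_pow_left₀ (dg_nonneg _ _ _ _) ?_ 2
      rw [Finset.card_filter]
      push_cast
      refine le_trans (Finset.sum_le_sum_of_subset_of_nonneg (Finset.subset_univ _)
        fun t _ _ => ?_) (Finset.sum_le_sum fun t _ => ?_)
      · refine add_nonneg ?_ ?_ <;> split_ifs <;> norm_num
      · by_cases k1 : w = P t
        · have k2 : w ≠ Q t := fun h => hPQ t (k1.symm.trans h)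
          rw [if_pos k1, if_neg k2, if_pos (Or.inl k1.symm), add_zero]
        · rw [if_neg k1, zero_add]
          by_cases k2 : w = Q t
          · rw [if_pos k2, if_pos (Or.inr k2.symm)]
          · rw [if_neg k2]
            split_ifs <;> norm_num
    have e2 : ∑ w, ∑ z ∈ Z, dg P Q (Tz z) w ^ 2 ≤ ε * R0 * Fintype.card T :=
      (Finset.sum_le_sum fun w _ => e1 w).trans
        (hdeg.trans (mul_le_mul_of_nonneg_right hD2 (Nat.cast_nonneg _)))
    calc 2 / R0 * ∑ w, ∑ z ∈ Z, dg P Q (Tz z) w ^ 2 ≤ 2 / R0 * (ε * R0 * Fintype.card T) :=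
          mul_le_mul_of_nonneg_left e2 (div_nonneg zero_le_two hR.le)
      _ = 2 * ε * Fintype.card T := by
          field_simp
  -- conclusion
  have h5 : ∑ t, (2 - F t) ≤ ∑ t ∈ A, (2 - F t) := by
    rw [Finset.sum_filter]
    refine Finset.sum_le_sum fun t _ => ?_
    split_ifs with h
    · exact le_rfl
    · linarith [not_lt.1 h]
  have h6 : ∑ t, (2 - F t) = 2 * Fintype.card T - ∑ t, F t := by
    rw [Finset.sum_sub_distrib]
    simp
    ring
  rw [h6] at h5
  linarith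

end Pool.Agent.Lib.P47k
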