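import Pool.Agent.Lib.P325av.Perm
import Pool.Agent.Lib.P47c.TDefs
import Pool.Agent.Lib.P47c.KI
import Pool.Agent.Lib.P47k.Defs

/-!
Module KMI (1.5h; adapt P47c/KI.lean; black boxes P325av.exists_perm, P47c.KIAux.extend_rename). The instances for k-means: renaming, costs.
PROOF. L = 4 M + 4 ≥ 4. rename_instM: congruence of the four fields (KIAux.extend_rename: Function.extend f c (fun _ => e) (g.symm b) =
Function.extend (f.trans g.toEmbedding) c (fun _ => e) b; the clients: Finset.map_map). exists_renameM: exists_perm for Φ, Φ' and for ψ, ψ' (as exists_renameK in KI.lean), and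
rename_instM. Squared distances (unit vectors are orthonormal, near t = {p, q}, p ≠ q): from e_p + e_q to e_r: 1 if r ∈ {p, q}, otherwise 3; to L e_u, u a coordinate of U:
2 + L^2; from L e_u to L e_u: 0. isGraph_instM, far_instM: e_p + e_q ≠ L e_r (compare the coordinates p and q: at most one of them is r). nearest_instM, cost_instM from the
squared distances: all elements of S are Φ (inl v, c) or Φ (inr u, c) by hS; the sum over the clients is split by Finset.sum_map, Fintype.sum_sum_type, and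
∑_t (1 + 2 [Disjoint (near t) A]) = card T * (1 + 2 * unc near A) (KIAux.sum_tests); the infimum over the finite set of centres is attained.
-/

open scoped BigOperators

namespace Pool.Agent.Lib.P47k

open Pool.Agent.Lib.P47c (unc)

variable {m M : ℕ} {V U T : Type} [Fintype V] [Fintype U]

/-- The numbering of the coordinates: one for every pair (vertex, label) and one for every far
point. -/
noncomputable def om (V U : Type) [Fintype V] [Fintype U] :
    ((V × ZMod 2) ⊕ U) ≃ Fin (Fintype.card ((V × ZMod 2) ⊕ U)) :=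
  Fintype.equivFin _

/-- The instance for k-means: the candidates `Φ (v, c)` with `v : V` are the unit vectors of
`(v, c)`, the candidates `Φ (u, c)` with `u : U` are the far point of `u`, all others are `0`; the
point of the test `t` is the sum of the unit vectors in `near t`. -/
noncomputable def instM [Fintype T] (Φ : (V ⊕ U) × ZMod 2 ↪ Fin m) (ψ : T ⊕ U ↪ Fin M)
    (near : T → Finset (V × ZMod 2)) : KInst m M where
  N := Fintype.card ((V × ZMod 2) ⊕ U)
  fac := Function.extend Φ (fun p => Sum.elim (fun v => unit (om V U (Sum.inl (v, p.2))))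
    (fun u => (4 * (M : ℝ) + 4) • unit (om V U (Sum.inr u))) p.1) (fun _ => 0)
  cl := Function.extend ψ (Sum.elim (fun t => ∑ p ∈ near t, unit (om V U (Sum.inl p)))
    (fun u => (4 * (M : ℝ) + 4) • unit (om V U (Sum.inr u)))) (fun _ => 0)
  clients := Finset.univ.map ψ

namespace KMIAux

theorem kinst_ext {N : ℕ} {f f' : Fin m → EuclideanSpace ℝ (Fin N)}
    {c c' : Fin M → EuclideanSpace ℝ (Fin N)} {s s' : Finset (Fin M)} (h : f = f') (h' : c = c')
    (h'' : s = s') : (⟨N, f, c, s⟩ : KInst m M) = ⟨N, f', c', s'⟩ := by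
  subst h h' h''
  rfl

theorem inner_unit {N : ℕ} (p q : Fin N) :
    inner ℝ (unit p) (unit q) = if p = q then (1 : ℝ) else 0 := by
  unfold unit
  rw [EuclideanSpace.inner_single_left]
  simp [Pi.single_apply]

theorem norm_unit {N : ℕ} (p : Fin N) : ‖unit p‖ ^ 2 = 1 := by
  rw [← real_inner_self_eq_norm_sq, inner_unit, if_pos rfl]

/-- the unit vector of a coordinate -/
noncomputable def ee (x : (V × ZMod 2) ⊕ U) :
    EuclideanSpace ℝ (Fin (Fintype.card ((V × ZMod 2) ⊕ U))) := unit (om V U x)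

open Classical in
theorem inner_ee (x y : (V × ZMod 2) ⊕ U) : inner ℝ (ee x) (ee y) = if x = y then (1 : ℝ) else 0 := by
  unfold ee
  rw [inner_unit]
  by_cases h : x = y
  · rw [if_pos h, if_pos (congrArg _ h)]
  · rw [if_neg h, if_neg fun h' => h ((om V U).injective h')]

/-- the point of a test -/
noncomputable def pnt (A : Finset (V × ZMod 2)) :
    EuclideanSpace ℝ (Fin (Fintype.card ((V × ZMod 2) ⊕ U))) := ∑ p ∈ A, ee (Sum.inl p)

open Classical in
theorem inner_pnt_ee (A : Finset (V × ZMod 2)) (x : (V × ZMod 2) ⊕ U) :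
    inner ℝ (pnt A) (ee x) = ∑ p ∈ A, if Sum.inl p = x then (1 : ℝ) else 0 := by
  unfold pnt
  rw [sum_inner]
  exact Finset.sum_congr rfl fun p _ => inner_ee _ _

open Classical in
theorem inner_pnt_inl (A : Finset (V × ZMod 2)) (r : V × ZMod 2) :
    inner ℝ (pnt (U := U) A) (ee (Sum.inl r)) = if r ∈ A then (1 : ℝ) else 0 := by
  rw [inner_pnt_ee]
  simp only [Sum.inl.injEq]
  rw [Finset.sum_ite_eq' A r (fun _ => (1 : ℝ))]

theorem inner_pnt_inr (A : Finset (V × ZMod 2)) (u : U) :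
    inner ℝ (pnt A) (ee (Sum.inr u)) = (0 : ℝ) := by
  classical
  rw [inner_pnt_ee]
  exact Finset.sum_eq_zero fun p _ => if_neg Sum.inl_ne_inr

theorem norm_pnt (A : Finset (V × ZMod 2)) : ‖pnt (U := U) A‖ ^ 2 = A.card := by
  classical
  rw [← real_inner_self_eq_norm_sq]
  have h : inner ℝ (pnt (U := U) A) (pnt A) =
      ∑ r ∈ A, inner ℝ (pnt (U := U) A) (ee (Sum.inl r)) := by
    conv_lhs =>
      rhs
      unfold pnt
    rw [inner_sum]
  rw [h]
  have h2 : ∀ r ∈ A, inner ℝ (pnt (U := U) A) (ee (Sum.inl r)) = (1 : ℝ) := fun r hr => by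
    rw [inner_pnt_inl, if_pos hr]
  rw [Finset.sum_congr rfl h2]
  simp

theorem norm_ee (x : (V × ZMod 2) ⊕ U) : ‖ee x‖ ^ 2 = 1 := norm_unit _

theorem dist_pnt_inl_mem (A : Finset (V × ZMod 2)) (hA : A.card = 2) {r : V × ZMod 2}
    (hr : r ∈ A) : ‖pnt (U := U) A - ee (Sum.inl r)‖ ^ 2 = 1 := by
  classical
  rw [norm_sub_sq_real, norm_pnt, norm_ee, inner_pnt_inl, if_pos hr, hA]
  norm_num

theorem dist_pnt_inl_notMem (A : Finset (V × ZMod 2)) (hA : A.card = 2) {r : V × ZMod 2}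
    (hr : r ∉ A) : ‖pnt (U := U) A - ee (Sum.inl r)‖ ^ 2 = 3 := by
  classical
  rw [norm_sub_sq_real, norm_pnt, norm_ee, inner_pnt_inl, if_neg hr, hA]
  norm_num

theorem dist_pnt_inr (A : Finset (V × ZMod 2)) (hA : A.card = 2) (L : ℝ) (u : U) :
    ‖pnt A - L • ee (Sum.inr u)‖ ^ 2 = 2 + L ^ 2 := by
  rw [norm_sub_sq_real, norm_pnt, norm_smul, mul_pow, norm_ee, inner_smul_right, inner_pnt_inr,
    hA, Real.norm_eq_abs, sq_abs]
  push_cast
  ring

theorem dist_pnt_inr_ge (A : Finset (V × ZMod 2)) (hA : A.card = 2) (u : U) :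
    3 ≤ ‖pnt A - (4 * (M : ℝ) + 4) • ee (Sum.inr u)‖ ^ 2 := by
  rw [dist_pnt_inr A hA]
  have : (0 : ℝ) ≤ M := Nat.cast_nonneg M
  nlinarith

/-- the candidate with a name -/
noncomputable def fM (M : ℕ) (x : (V ⊕ U) × ZMod 2) :
    EuclideanSpace ℝ (Fin (Fintype.card ((V × ZMod 2) ⊕ U))) :=
  Sum.elim (fun v => unit (om V U (Sum.inl (v, x.2))))
    (fun u => (4 * (M : ℝ) + 4) • unit (om V U (Sum.inr u))) x.1

/-- the point with a name -/
noncomputable def cM {T : Type} (M : ℕ) (near : T → Finset (V × ZMod 2)) (x : T ⊕ U) :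
    EuclideanSpace ℝ (Fin (Fintype.card ((V × ZMod 2) ⊕ U))) :=
  Sum.elim (fun t => ∑ p ∈ near t, unit (om V U (Sum.inl p)))
    (fun u => (4 * (M : ℝ) + 4) • unit (om V U (Sum.inr u))) x

theorem mem_far {I : KInst m M} {p : Fin I.N} :
    p ∈ I.far ↔ ∃ j ∈ I.clients, I.cl j = (4 * (M : ℝ) + 4) • unit p := by
  classical
  unfold KInst.far
  rw [Finset.mem_filter]
  exact ⟨fun h => h.2, fun h => ⟨Finset.mem_univ _, h⟩⟩

theorem iInf_eq {E : Type*} (Z : Finset E) (f : E → ℝ) (a : ℝ) (h1 : ∀ z ∈ Z, a ≤ f z)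
    (h2 : ∃ z ∈ Z, f z = a) : (⨅ z : Z, f z.1) = a := by
  obtain ⟨z, hz, hza⟩ := h2
  have : Nonempty Z := ⟨⟨z, hz⟩⟩
  refine le_antisymm ?_ (le_ciInf fun z => h1 z.1 z.2)
  have hb : BddBelow (Set.range fun z : Z => f z.1) := by
    refine ⟨a, ?_⟩
    rintro _ ⟨z, rfl⟩
    exact h1 z.1 z.2
  have h3 := ciInf_le hb ⟨z, hz⟩
  rwa [hza] at h3

theorem mem_centres {I : KInst m M} {S : Finset (Fin m)} {z : EuclideanSpace ℝ (Fin I.N)} :
    z ∈ I.centres S ↔ ∃ i ∈ S, I.fac i = z := by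
  classical
  unfold KInst.centres
  rw [Finset.mem_image]

end KMIAux

open KMIAux

variable [Fintype T] (Φ : (V ⊕ U) × ZMod 2 ↪ Fin m) (ψ : T ⊕ U ↪ Fin M)
  (near : T → Finset (V × ZMod 2))

theorem rename_renameM (I : KInst m M) (g g' : Equiv.Perm (Fin m)) (h h' : Equiv.Perm (Fin M)) :
    (I.rename g h).rename g' h' = I.rename (g' * g) (h' * h) := by
  refine kinst_ext rfl rfl ?_
  change (I.clients.map h.toEmbedding).map h'.toEmbedding = I.clients.map (h' * h).toEmbedding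
  rw [Finset.map_map]
  rfl

theorem rename_instM (g : Equiv.Perm (Fin m)) (h : Equiv.Perm (Fin M)) :
    (instM Φ ψ near).rename g h = instM (Φ.trans g.toEmbedding) (ψ.trans h.toEmbedding) near := by
  refine kinst_ext ?_ ?_ ?_
  · funext i
    exact P47c.KIAux.extend_rename Φ g (fM M) 0 i
  · funext j
    exact P47c.KIAux.extend_rename ψ h (cM M near) 0 j
  · change (Finset.univ.map ψ).map h.toEmbedding = Finset.univ.map (ψ.trans h.toEmbedding)
    rw [Finset.map_map]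

theorem exists_renameM (Φ' : (V ⊕ U) × ZMod 2 ↪ Fin m) (ψ' : T ⊕ U ↪ Fin M) :
    ∃ (g : Equiv.Perm (Fin m)) (h : Equiv.Perm (Fin M)),
      instM Φ' ψ' near = (instM Φ ψ near).rename g h := by
  obtain ⟨g, hg⟩ := Pool.Agent.Lib.P325av.exists_perm Φ Φ' Φ.injective Φ'.injective
  obtain ⟨h, hh⟩ := Pool.Agent.Lib.P325av.exists_perm ψ ψ' ψ.injective ψ'.injective
  refine ⟨g, h, ?_⟩
  have e1 : Φ' = Φ.trans g.toEmbedding := by
    ext p
    change (Φ' p : ℕ) = g (Φ p)
    rw [hg p]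
  have e2 : ψ' = ψ.trans h.toEmbedding := by
    ext p
    change (ψ' p : ℕ) = h (ψ p)
    rw [hh p]
  rw [rename_instM, e1, e2]

theorem clients_instM :
    (instM Φ ψ near).clients.card = Fintype.card T + Fintype.card U := by
  change (Finset.univ.map ψ).card = _
  rw [Finset.card_map, Finset.card_univ, Fintype.card_sum]

theorem fac_inl (v : V) (c : ZMod 2) :
    (instM Φ ψ near).fac (Φ (Sum.inl v, c)) = unit (om V U (Sum.inl (v, c))) :=
  Φ.injective.extend_apply (fM M) (fun _ => 0) (Sum.inl v, c)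

theorem fac_inr (u : U) (c : ZMod 2) :
    (instM Φ ψ near).fac (Φ (Sum.inr u, c)) = (4 * (M : ℝ) + 4) • unit (om V U (Sum.inr u)) :=
  Φ.injective.extend_apply (fM M) (fun _ => 0) (Sum.inr u, c)

theorem cl_inl (t : T) :
    (instM Φ ψ near).cl (ψ (Sum.inl t)) = ∑ p ∈ near t, unit (om V U (Sum.inl p)) :=
  ψ.injective.extend_apply (cM M near) (fun _ => 0) (Sum.inl t)

theorem cl_inr (u : U) :
    (instM Φ ψ near).cl (ψ (Sum.inr u)) = (4 * (M : ℝ) + 4) • unit (om V U (Sum.inr u)) :=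
  ψ.injective.extend_apply (cM M near) (fun _ => 0) (Sum.inr u)

namespace KMIAux

theorem dd_inl_mem (hnear : ∀ t, (near t).card = 2) {t : T} {r : V × ZMod 2} (hr : r ∈ near t) :
    ‖(instM Φ ψ near).cl (ψ (Sum.inl t)) - (instM Φ ψ near).fac (Φ (Sum.inl r.1, r.2))‖ ^ 2 =
      1 := by
  rw [cl_inl, fac_inl]
  exact dist_pnt_inl_mem (near t) (hnear t) hr

theorem dd_inl_notMem (hnear : ∀ t, (near t).card = 2) {t : T} {r : V × ZMod 2}
    (hr : r ∉ near t) :
    ‖(instM Φ ψ near).cl (ψ (Sum.inl t)) - (instM Φ ψ near).fac (Φ (Sum.inl r.1, r.2))‖ ^ 2 =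
      3 := by
  rw [cl_inl, fac_inl]
  exact dist_pnt_inl_notMem (near t) (hnear t) hr

theorem dd_inr (hnear : ∀ t, (near t).card = 2) (t : T) (u : U) (c : ZMod 2) :
    3 ≤ ‖(instM Φ ψ near).cl (ψ (Sum.inl t)) - (instM Φ ψ near).fac (Φ (Sum.inr u, c))‖ ^ 2 := by
  rw [cl_inl, fac_inr]
  exact dist_pnt_inr_ge (near t) (hnear t) u

theorem dd_far (u : U) (c : ZMod 2) :
    ‖(instM Φ ψ near).cl (ψ (Sum.inr u)) - (instM Φ ψ near).fac (Φ (Sum.inr u, c))‖ ^ 2 = 0 := by
  have h : (instM Φ ψ near).cl (ψ (Sum.inr u)) = (instM Φ ψ near).fac (Φ (Sum.inr u, c)) :=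
    (cl_inr Φ ψ near u).trans (fac_inr Φ ψ near u c).symm
  rw [h, sub_self, norm_zero]
  norm_num

/-- all candidates in `S` have squared distance at least 1 from a test -/
theorem dd_ge_one (hnear : ∀ t, (near t).card = 2) (t : T) (x : (V ⊕ U) × ZMod 2) :
    1 ≤ ‖(instM Φ ψ near).cl (ψ (Sum.inl t)) - (instM Φ ψ near).fac (Φ x)‖ ^ 2 := by
  rcases x with ⟨v | u, c⟩
  · by_cases hr : (v, c) ∈ near t
    · exact (dd_inl_mem Φ ψ near hnear hr).ge
    · exact le_trans (by norm_num) (dd_inl_notMem Φ ψ near hnear hr).ge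
  · exact le_trans (by norm_num) (dd_inr Φ ψ near hnear t u c)

theorem dd_ge_three (hnear : ∀ t, (near t).card = 2) (t : T) (x : (V ⊕ U) × ZMod 2)
    (hx : ∀ r ∈ near t, x ≠ (Sum.inl r.1, r.2)) :
    3 ≤ ‖(instM Φ ψ near).cl (ψ (Sum.inl t)) - (instM Φ ψ near).fac (Φ x)‖ ^ 2 := by
  rcases x with ⟨v | u, c⟩
  · by_cases hr : (v, c) ∈ near t
    · exact absurd rfl (hx _ hr)
    · exact (dd_inl_notMem Φ ψ near hnear hr).ge
  · exact dd_inr Φ ψ near hnear t u c

end KMIAux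

/-- The cost is the sum over the tests and the far points. -/
theorem cost_eq (Z : Finset (EuclideanSpace ℝ (Fin (instM Φ ψ near).N))) :
    (instM Φ ψ near).cost Z =
      ∑ t, (⨅ z : Z, ‖(instM Φ ψ near).cl (ψ (Sum.inl t)) - z.1‖ ^ 2) +
        ∑ u, (⨅ z : Z, ‖(instM Φ ψ near).cl (ψ (Sum.inr u)) - z.1‖ ^ 2) := by
  change ∑ j ∈ Finset.univ.map ψ, _ = _
  rw [Finset.sum_map, Fintype.sum_sum_type]

theorem isGraph_instM (hnear : ∀ t, (near t).card = 2) : (instM Φ ψ near).IsGraph := by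
  classical
  constructor
  · intro i
    by_cases h : ∃ x, Φ x = i
    · obtain ⟨⟨v | u, c⟩, rfl⟩ := h
      · exact Or.inr ⟨_, Or.inl (fac_inl Φ ψ near v c)⟩
      · exact Or.inr ⟨_, Or.inr (fac_inr Φ ψ near u c)⟩
    · left
      exact Function.extend_apply' (fM M) (fun _ => 0) i h
  · intro j hj
    obtain ⟨x, _, rfl⟩ := Finset.mem_map.1 (show j ∈ Finset.univ.map ψ from hj)
    rcases x with t | u
    · left
      obtain ⟨p, q, hpq, he⟩ := Finset.card_eq_two.1 (hnear t)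
      refine ⟨om V U (Sum.inl p), om V U (Sum.inl q), ?_, ?_,
        ⟨_, fac_inl Φ ψ near p.1 p.2⟩, ⟨_, fac_inl Φ ψ near q.1 q.2⟩⟩
      · intro h
        exact hpq (Sum.inl_injective ((om V U).injective h))
      · refine (cl_inl Φ ψ near t).trans ?_
        have h1 := Finset.sum_pair (f := fun p => unit (om V U (Sum.inl p))) hpq
        rw [← he] at h1
        exact h1
    · right
      exact ⟨_, cl_inr Φ ψ near u, _, fac_inr Φ ψ near u 0⟩

theorem far_instM (hnear : ∀ t, (near t).card = 2) :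
    (instM Φ ψ near).far.card = Fintype.card U := by
  classical
  have hL : (4 : ℝ) ≤ 4 * (M : ℝ) + 4 := by
    have : (0 : ℝ) ≤ M := Nat.cast_nonneg M
    linarith
  symm
  rw [← Finset.card_univ]
  refine Finset.card_bij (fun u _ => (om V U (Sum.inr u) : Fin (instM Φ ψ near).N)) ?_ ?_ ?_
  · intro u _
    exact mem_far.2 ⟨ψ (Sum.inr u), Finset.mem_map.2 ⟨_, Finset.mem_univ _, rfl⟩,
      cl_inr Φ ψ near u⟩
  · intro u _ u' _ huu
    exact Sum.inr_injective ((om V U).injective huu)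
  · intro p hp
    obtain ⟨j, hj, he⟩ := mem_far.1 hp
    obtain ⟨x, _, rfl⟩ := Finset.mem_map.1 (show j ∈ Finset.univ.map ψ from hj)
    rcases x with t | u
    · exfalso
      have h1 : ‖(instM Φ ψ near).cl (ψ (Sum.inl t))‖ ^ 2 = 2 := by
        have h2 := norm_pnt (U := U) (near t)
        rw [hnear t] at h2
        have h3 : ‖(instM Φ ψ near).cl (ψ (Sum.inl t))‖ = ‖pnt (U := U) (near t)‖ :=
          congrArg norm (cl_inl Φ ψ near t)
        rw [h3, h2]
        norm_num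
      rw [he, norm_smul, mul_pow, norm_unit, Real.norm_eq_abs, sq_abs] at h1
      nlinarith
    · refine ⟨u, Finset.mem_univ _, ?_⟩
      have h0 : (4 * (M : ℝ) + 4) • unit (N := (instM Φ ψ near).N) (om V U (Sum.inr u)) =
          (4 * (M : ℝ) + 4) • unit p := (cl_inr Φ ψ near u).symm.trans he
      have h1 : unit (N := (instM Φ ψ near).N) (om V U (Sum.inr u)) = unit p :=
        smul_right_injective _ (show (4 * (M : ℝ) + 4) ≠ 0 by linarith) h0
      by_contra hne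
      have h2 := inner_unit (N := (instM Φ ψ near).N) (om V U (Sum.inr u)) p
      rw [if_neg hne, h1, inner_unit, if_pos rfl] at h2
      exact one_ne_zero h2

theorem nearest_instM (hnear : ∀ t, (near t).card = 2) (S : Finset (Fin m)) (σ : Fin M → Fin m)
    (hS : ∀ i ∈ S, ∃ p, Φ p = i) (hσ : ∀ j, σ j ∈ S)
    (hU : ∀ u, ∃ c, σ (ψ (Sum.inr u)) = Φ (Sum.inr u, c))
    (hT : ∀ t, ∃ p : V × ZMod 2, σ (ψ (Sum.inl t)) = Φ (Sum.inl p.1, p.2))
    (hT' : ∀ t, (∃ p ∈ near t, Φ (Sum.inl p.1, p.2) ∈ S) →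
      ∃ p ∈ near t, σ (ψ (Sum.inl t)) = Φ (Sum.inl p.1, p.2)) :
    (instM Φ ψ near).Nearest S σ := by
  refine ⟨hσ, fun j hj i hi => ?_⟩
  obtain ⟨x, _, rfl⟩ := Finset.mem_map.1 (show j ∈ Finset.univ.map ψ from hj)
  obtain ⟨y, rfl⟩ := hS i hi
  refine le_of_sq_le_sq ?_ (norm_nonneg _)
  rcases x with t | u
  · by_cases hex : ∃ p ∈ near t, Φ (Sum.inl p.1, p.2) ∈ S
    · obtain ⟨p, hp, hpσ⟩ := hT' t hex
      rw [hpσ, dd_inl_mem Φ ψ near hnear hp]
      exact dd_ge_one Φ ψ near hnear t y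
    · obtain ⟨p, hpσ⟩ := hT t
      have hp : p ∉ near t := fun hp => hex ⟨p, hp, hpσ ▸ hσ _⟩
      rw [hpσ, dd_inl_notMem Φ ψ near hnear hp]
      refine dd_ge_three Φ ψ near hnear t y ?_
      rintro r hr rfl
      exact hex ⟨r, hr, hi⟩
  · obtain ⟨c, hc⟩ := hU u
    rw [hc, dd_far]
    positivity

theorem cost_instM (hnear : ∀ t, (near t).card = 2) (S : Finset (Fin m))
    (hS : ∀ i ∈ S, ∃ p, Φ p = i) (A : Finset (V × ZMod 2))
    (hA : ∀ p, p ∈ A ↔ Φ (Sum.inl p.1, p.2) ∈ S) (hA0 : A.Nonempty)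
    (hU : ∀ u, ∃ c, Φ (Sum.inr u, c) ∈ S) :
    (instM Φ ψ near).cost ((instM Φ ψ near).centres S) =
      Fintype.card T * (1 + 2 * unc near A) := by
  classical
  rw [cost_eq]
  have h2 : ∑ u, (⨅ z : (instM Φ ψ near).centres S,
      ‖(instM Φ ψ near).cl (ψ (Sum.inr u)) - z.1‖ ^ 2) = 0 := by
    refine Finset.sum_eq_zero fun u _ => ?_
    refine iInf_eq _ (fun z => ‖(instM Φ ψ near).cl (ψ (Sum.inr u)) - z‖ ^ 2) 0
      (fun z _ => by positivity) ?_
    obtain ⟨c, hc⟩ := hU u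
    exact ⟨_, mem_centres.2 ⟨_, hc, rfl⟩, dd_far Φ ψ near u c⟩
  rw [h2, add_zero]
  refine P47c.KIAux.sum_tests near A _ fun t => ⟨fun hd => ?_, fun hd => ?_⟩
  · refine iInf_eq _ (fun z => ‖(instM Φ ψ near).cl (ψ (Sum.inl t)) - z‖ ^ 2) 3 ?_ ?_
    · intro z hz
      obtain ⟨i, hi, rfl⟩ := mem_centres.1 hz
      obtain ⟨y, rfl⟩ := hS i hi
      refine dd_ge_three Φ ψ near hnear t y ?_
      rintro r hr rfl
      exact Finset.disjoint_left.1 hd hr ((hA r).2 hi)
    · obtain ⟨p, hp⟩ := hA0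
      exact ⟨_, mem_centres.2 ⟨_, (hA p).1 hp, rfl⟩,
        dd_inl_notMem Φ ψ near hnear fun h => Finset.disjoint_left.1 hd h hp⟩
  · refine iInf_eq _ (fun z => ‖(instM Φ ψ near).cl (ψ (Sum.inl t)) - z‖ ^ 2) 1 ?_ ?_
    · intro z hz
      obtain ⟨i, hi, rfl⟩ := mem_centres.1 hz
      obtain ⟨y, rfl⟩ := hS i hi
      exact dd_ge_one Φ ψ near hnear t y
    · obtain ⟨p, hp, hpA⟩ := Finset.not_disjoint_iff.1 hd
      exact ⟨_, mem_centres.2 ⟨_, (hA p).1 hpA, rfl⟩, dd_inl_mem Φ ψ near hnear hp⟩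

end Pool.Agent.Lib.P47k
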