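import Pool.Agent.Lib.P47k.Geo
import Pool.Agent.Lib.P47k.KMI

/-!
Module KMG (1.8h; black boxes geo, KMI). The lower bound for the cost of arbitrary centres.
PROOF. L = 4 M + 4, M ≥ card T + card U (ψ is injective). If for some u all z ∈ Z have ‖L e_u - z‖ ≥ L/2, the term of u in cost_eq is at least L^2/4 = 4 (M+1)^2 ≥
(5/4) card T and all other terms are ≥ 0. Otherwise choose z_u ∈ Z with ‖L e_u - z_u‖ < L/2; z_u ≠ z_u' for u ≠ u' (‖L e_u - L e_u'‖ = √2 L). Z1 = Z without the z_u has at most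
card V elements. For a test t the infimum F t is attained at some z ∈ Z. If z = z_u: ‖x_t - z‖ ≥ ‖x_t - L e_u‖ - L/2 ≥ L/2 ≥ 2 (‖x_t - L e_u‖^2 = 2 + L^2), so F t ≥ 4 ≥ 2. Otherwise the sum over
the coordinates w ∈ W = V × ZMod 2 of (x_t - z)^2 is at most F t (EuclideanSpace.norm_sq_eq, om V U a bijection). Apply geo with W = V × ZMod 2, near t = {P t, Q t}
(Finset.card_eq_two), the image of Z1 under the restriction to W as the set of centres (2 card Z1 ≤ 2 card V = card W), near t ⊆ B iff P t ∈ B ∧ Q t ∈ B, and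
card T * unc near Bᶜ = the number of the t with near t ⊆ B, card Bᶜ = 2 card V - card B. The far points contribute ≥ 0.
-/

open scoped BigOperators

namespace Pool.Agent.Lib.P47k

open Pool.Agent.Lib.P47c (unc)

namespace KMGAux

open Pool.Agent.Lib.P325P (mean)

variable {V U T : Type} [Fintype V] [Fintype U]

/-- the dimension -/
abbrev NN (V U : Type) [Fintype V] [Fintype U] : ℕ := Fintype.card ((V × ZMod 2) ⊕ U)

/-- the point of a test -/
noncomputable def xt (s : Finset (V × ZMod 2)) : EuclideanSpace ℝ (Fin (NN V U)) :=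
  ∑ p ∈ s, unit (om V U (Sum.inl p))

/-- the far point -/
noncomputable def yu (L : ℝ) (u : U) : EuclideanSpace ℝ (Fin (NN V U)) :=
  L • unit (om V U (Sum.inr u))

theorem unit_apply {N : ℕ} (p i : Fin N) : (unit p) i = if i = p then 1 else 0 := by
  unfold unit
  simp

theorem xt_inl [DecidableEq V] (p q : V × ZMod 2) (hpq : p ≠ q) (w : V × ZMod 2) :
    (xt (U := U) ({p, q} : Finset (V × ZMod 2))) (om V U (Sum.inl w)) =
      (if w = p then (1 : ℝ) else 0) + (if w = q then 1 else 0) := by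
  unfold xt
  rw [Finset.sum_pair hpq, PiLp.add_apply, unit_apply, unit_apply]
  simp

theorem xt_inr (s : Finset (V × ZMod 2)) (u : U) :
    (xt (U := U) s) (om V U (Sum.inr u)) = 0 := by
  unfold xt
  rw [WithLp.ofLp_sum, Finset.sum_apply]
  refine Finset.sum_eq_zero fun p _ => ?_
  rw [unit_apply]
  simp

theorem yu_self (L : ℝ) (u : U) : (yu (V := V) L u) (om V U (Sum.inr u)) = L := by
  unfold yu
  rw [PiLp.smul_apply, unit_apply]
  simp

theorem yu_ne (L : ℝ) (u u' : U) (h : u ≠ u') : (yu (V := V) L u') (om V U (Sum.inr u)) = 0 := by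
  unfold yu
  rw [PiLp.smul_apply, unit_apply]
  simp [h]

theorem coord_le {N : ℕ} (v : EuclideanSpace ℝ (Fin N)) (i : Fin N) : |v i| ≤ ‖v‖ := by
  have := PiLp.norm_apply_le v i
  simpa using this

theorem restr_le (v : EuclideanSpace ℝ (Fin (NN V U))) :
    ∑ w : V × ZMod 2, (v (om V U (Sum.inl w))) ^ 2 ≤ ‖v‖ ^ 2 := by
  rw [EuclideanSpace.norm_sq_eq, ← Equiv.sum_comp (om V U), Fintype.sum_sum_type]
  simp only [Real.norm_eq_abs, sq_abs]
  have : 0 ≤ ∑ u : U, (v (om V U (Sum.inr u))) ^ 2 := Finset.sum_nonneg fun u _ => sq_nonneg _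
  linarith

theorem inf_nonneg {N : ℕ} (Z : Finset (EuclideanSpace ℝ (Fin N))) (a : EuclideanSpace ℝ (Fin N)) :
    0 ≤ ⨅ z : Z, ‖a - z.1‖ ^ 2 := Real.iInf_nonneg fun _ => sq_nonneg _

theorem inf_attained {N : ℕ} (Z : Finset (EuclideanSpace ℝ (Fin N))) (hZ : Z.Nonempty)
    (a : EuclideanSpace ℝ (Fin N)) : ∃ z ∈ Z, ‖a - z‖ ^ 2 = ⨅ z : Z, ‖a - z.1‖ ^ 2 := by
  have : Nonempty Z := hZ.to_subtype
  obtain ⟨z, hz⟩ := exists_eq_ciInf_of_finite (f := fun z : Z => ‖a - z.1‖ ^ 2)
  exact ⟨z.1, z.2, hz⟩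

theorem core {M : ℕ} [DecidableEq V] [Fintype T] [Nonempty V]
    (hM : Fintype.card T + Fintype.card U ≤ M)
    (near : T → Finset (V × ZMod 2)) (hnear : ∀ t, (near t).card = 2) (ε D2 : ℝ) (hε : 0 < ε)
    (R0 : ℕ) (hR0 : 0 < R0) (hD2 : D2 ≤ ε * R0)
    (hV : (Fintype.card V : ℝ) ≤ ε * Fintype.card T)
    (hunc : ∀ A : Finset (V × ZMod 2),
      (1 - (A.card : ℝ) / (2 * Fintype.card V)) ^ 2 - ε ≤ unc near A)
    (hsp : ∀ B : Finset (V × ZMod 2), B.card ≤ R0 →
      (Finset.univ.filter (fun t => near t ⊆ B)).card ≤ 2 * B.card)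
    (hdeg : ∑ p, ((Finset.univ.filter (fun t => p ∈ near t)).card : ℝ) ^ 2 ≤
      D2 * Fintype.card T)
    (Z : Finset (EuclideanSpace ℝ (Fin (NN V U)))) (hZ : Z.Nonempty)
    (hZc : Z.card ≤ Fintype.card V + Fintype.card U) :
    (Fintype.card T : ℝ) * (5 / 4 - 11 * ε) ≤
      ∑ t, (⨅ z : Z, ‖xt (near t) - z.1‖ ^ 2) +
        ∑ u : U, (⨅ z : Z, ‖yu (4 * (M : ℝ) + 4) u - z.1‖ ^ 2) := by
  classical
  set L : ℝ := 4 * (M : ℝ) + 4 with hL
  have hM0 : (0 : ℝ) ≤ M := Nat.cast_nonneg _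
  have hL4 : 4 ≤ L := by rw [hL]; linarith
  have hT0 : (0 : ℝ) ≤ ∑ t, (⨅ z : Z, ‖xt (U := U) (near t) - z.1‖ ^ 2) :=
    Finset.sum_nonneg fun t _ => inf_nonneg Z _
  have hU0 : (0 : ℝ) ≤ ∑ u : U, (⨅ z : Z, ‖yu L u - z.1‖ ^ 2) :=
    Finset.sum_nonneg fun t _ => inf_nonneg Z _
  have hTM : (Fintype.card T : ℝ) ≤ M := by exact_mod_cast (by omega : Fintype.card T ≤ M)
  have hTn : (0 : ℝ) ≤ Fintype.card T := Nat.cast_nonneg _
  by_cases hA : ∃ u : U, ∀ z ∈ Z, L / 2 ≤ ‖yu L u - z‖
  · obtain ⟨u, hu⟩ := hA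
    obtain ⟨z, hz, hzi⟩ := inf_attained Z hZ (yu L u)
    have h1 : (L / 2) ^ 2 ≤ ⨅ z : Z, ‖yu L u - z.1‖ ^ 2 := by
      rw [← hzi]
      exact pow_le_pow_left₀ (by linarith) (hu z hz) 2
    have h2 : (⨅ z : Z, ‖yu L u - z.1‖ ^ 2) ≤ ∑ u : U, (⨅ z : Z, ‖yu L u - z.1‖ ^ 2) :=
      Finset.single_le_sum (f := fun u : U => ⨅ z : Z, ‖yu L u - z.1‖ ^ 2)
        (fun u _ => inf_nonneg Z _) (Finset.mem_univ u)
    have h3 : (Fintype.card T : ℝ) * (5 / 4 - 11 * ε) ≤ (Fintype.card T : ℝ) * (5 / 4) :=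
      mul_le_mul_of_nonneg_left (by linarith) hTn
    have h4 : (L / 2) ^ 2 = 4 * (M + 1) ^ 2 := by rw [hL]; ring
    nlinarith
  · push Not at hA
    choose zu hzu hzu2 using hA
    have hinj : Function.Injective zu := by
      intro u u' h
      by_contra hne
      have h1 : ‖yu (V := V) L u - yu L u'‖ < L := by
        calc ‖yu (V := V) L u - yu L u'‖ = ‖(yu L u - zu u) - (yu L u' - zu u')‖ := by
              rw [h]; congr 1; abel
          _ ≤ ‖yu L u - zu u‖ + ‖yu L u' - zu u'‖ := norm_sub_le _ _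
          _ < L / 2 + L / 2 := add_lt_add (hzu2 u) (hzu2 u')
          _ = L := by ring
      have h2 := coord_le (yu (V := V) L u - yu L u') (om V U (Sum.inr u))
      rw [PiLp.sub_apply, yu_self, yu_ne L u u' hne, sub_zero] at h2
      have h3 : L ≤ |L| := le_abs_self L
      linarith
    set Z1 : Finset (EuclideanSpace ℝ (Fin (NN V U))) := Z \ Finset.univ.image zu with hZ1
    have hZ1c : Z1.card ≤ Fintype.card V := by
      have h1 : (Finset.univ.image zu).card = Fintype.card U :=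
        Finset.card_image_of_injective _ hinj
      have h2 : Finset.univ.image zu ⊆ Z := by
        intro z hz
        obtain ⟨u, -, rfl⟩ := Finset.mem_image.1 hz
        exact hzu u
      have h3 : Z1.card + (Finset.univ.image zu).card = Z.card := by
        rw [hZ1]
        convert Finset.card_sdiff_add_card_eq_card h2
      rw [h1] at h3
      omega
    have hPQ : ∀ t, ∃ p q, p ≠ q ∧ near t = {p, q} := fun t => Finset.card_eq_two.1 (hnear t)
    choose P Q hne hnr using hPQ
    have hmem : ∀ t p, p ∈ near t ↔ P t = p ∨ Q t = p := by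
      intro t p
      rw [hnr t]
      simp [eq_comm]
    have hsub : ∀ t (B : Finset (V × ZMod 2)), near t ⊆ B ↔ P t ∈ B ∧ Q t ∈ B := by
      intro t B
      rw [hnr t]
      simp [Finset.insert_subset_iff]
    have hcardW : Fintype.card (V × ZMod 2) = 2 * Fintype.card V := by
      rw [Fintype.card_prod, ZMod.card, mul_comm]
    have hVpos : 0 < Fintype.card V := Fintype.card_pos
    have hVr : (0 : ℝ) < Fintype.card V := by exact_mod_cast hVpos
    have hcount : ∀ B : Finset (V × ZMod 2),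
        (Fintype.card T : ℝ) * (((B.card : ℝ) / Fintype.card (V × ZMod 2)) ^ 2 - ε) ≤
        ((Finset.univ.filter (fun t => P t ∈ B ∧ Q t ∈ B)).card : ℝ) := by
      intro B
      have h1 := hunc Bᶜ
      have h2 : ((Bᶜ.card : ℕ) : ℝ) = 2 * Fintype.card V - B.card := by
        rw [Finset.card_compl, Nat.cast_sub (Finset.card_le_univ B), hcardW]
        push_cast; ring
      have h3 : 1 - ((Bᶜ.card : ℕ) : ℝ) / (2 * Fintype.card V) =
          (B.card : ℝ) / Fintype.card (V × ZMod 2) := by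
        rw [h2, hcardW]
        push_cast
        field_simp
        ring
      rw [h3] at h1
      have h4 : (Fintype.card T : ℝ) * unc near Bᶜ =
          ((Finset.univ.filter (fun t => P t ∈ B ∧ Q t ∈ B)).card : ℝ) := by
        unfold unc mean
        rw [Finset.card_filter]
        push_cast
        have h5 : ∀ t, Disjoint (near t) Bᶜ ↔ P t ∈ B ∧ Q t ∈ B := by
          intro t
          rw [← hsub t B, disjoint_compl_right_iff]
        rcases Nat.eq_zero_or_pos (Fintype.card T) with h0 | h0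
        · have : IsEmpty T := Fintype.card_eq_zero_iff.1 h0
          simp
        · have h0' : (Fintype.card T : ℝ) ≠ 0 := by exact_mod_cast h0.ne'
          rw [mul_div_cancel₀ _ h0']
          refine Finset.sum_congr rfl fun t _ => ?_
          by_cases h : P t ∈ B ∧ Q t ∈ B
          · rw [if_pos h, if_pos ((h5 t).2 h)]
          · rw [if_neg h, if_neg (fun h' => h ((h5 t).1 h'))]
      rw [← h4]
      exact mul_le_mul_of_nonneg_left h1 hTn
    have hsp' : ∀ B : Finset (V × ZMod 2), B.card ≤ R0 →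
        (Finset.univ.filter (fun t => P t ∈ B ∧ Q t ∈ B)).card ≤ 2 * B.card := by
      intro B hB
      refine le_trans (le_of_eq ?_) (hsp B hB)
      congr 1
      ext t
      simp [hsub t B]
    have hdeg' : ∑ w, ((Finset.univ.filter (fun t => P t = w ∨ Q t = w)).card : ℝ) ^ 2 ≤
        D2 * Fintype.card T := by
      refine le_trans (le_of_eq ?_) hdeg
      refine Finset.sum_congr rfl fun w _ => ?_
      congr 3
      ext t
      simp [hmem t w]
    have hW : (Fintype.card (V × ZMod 2) : ℝ) ≤ 2 * ε * Fintype.card T := by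
      rw [hcardW]; push_cast; linarith
    have hgeo := geo P Q hne (by rw [hcardW]; omega) ε D2 hε R0 hR0 hD2 hcount hsp' hdeg' hW
      (Z1.image fun z w => z (om V U (Sum.inl w)))
      (by
        rw [hcardW]
        exact Nat.mul_le_mul_left 2 (Finset.card_image_le.trans hZ1c))
      (fun t => ⨅ z : Z, ‖xt (U := U) (near t) - z.1‖ ^ 2)
      (by
        intro t
        obtain ⟨z, hz, hzi⟩ := inf_attained Z hZ (xt (U := U) (near t))
        by_cases hzu' : z ∈ Finset.univ.image zu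
        · left
          obtain ⟨u, -, rfl⟩ := Finset.mem_image.1 hzu'
          have h1 := coord_le (xt (U := U) (near t) - yu L u) (om V U (Sum.inr u))
          rw [PiLp.sub_apply, xt_inr, yu_self, zero_sub, abs_neg] at h1
          have h2 : L ≤ |L| := le_abs_self L
          have h3 : ‖xt (U := U) (near t) - yu L u‖ ≤
              ‖xt (U := U) (near t) - zu u‖ + ‖yu L u - zu u‖ := by
            calc ‖xt (U := U) (near t) - yu L u‖ =
                ‖(xt (U := U) (near t) - zu u) - (yu L u - zu u)‖ := by congr 1; abel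
              _ ≤ _ := norm_sub_le _ _
          have h4 := hzu2 u
          have h5 : 2 ≤ ‖xt (U := U) (near t) - zu u‖ := by linarith
          show 2 ≤ ⨅ z : Z, ‖xt (U := U) (near t) - z.1‖ ^ 2
          rw [← hzi]
          nlinarith
        · right
          refine ⟨fun w => z (om V U (Sum.inl w)), ?_, ?_⟩
          · exact Finset.mem_image.2 ⟨z, Finset.mem_sdiff.2 ⟨hz, hzu'⟩, rfl⟩
          · show _ ≤ ⨅ z : Z, ‖xt (U := U) (near t) - z.1‖ ^ 2
            rw [← hzi]
            refine le_trans (le_of_eq ?_) (restr_le (xt (U := U) (near t) - z))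
            refine Finset.sum_congr rfl fun w _ => ?_
            rw [PiLp.sub_apply, hnr t, xt_inl (P t) (Q t) (hne t) w])
    linarith

end KMGAux

theorem opt_geM {m M : ℕ} {V U T : Type} [Fintype V] [DecidableEq V] [Fintype U] [Fintype T]
    [Nonempty V] [Nonempty T] (Φ : (V ⊕ U) × ZMod 2 ↪ Fin m) (ψ : T ⊕ U ↪ Fin M)
    (near : T → Finset (V × ZMod 2)) (hnear : ∀ t, (near t).card = 2) (ε D2 : ℝ) (hε : 0 < ε)
    (R0 : ℕ) (hR0 : 0 < R0) (hD2 : D2 ≤ ε * R0)
    (hV : (Fintype.card V : ℝ) ≤ ε * Fintype.card T)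
    (hunc : ∀ A : Finset (V × ZMod 2),
      (1 - (A.card : ℝ) / (2 * Fintype.card V)) ^ 2 - ε ≤ unc near A)
    (hsp : ∀ B : Finset (V × ZMod 2), B.card ≤ R0 →
      (Finset.univ.filter (fun t => near t ⊆ B)).card ≤ 2 * B.card)
    (hdeg : ∑ p, ((Finset.univ.filter (fun t => p ∈ near t)).card : ℝ) ^ 2 ≤
      D2 * Fintype.card T) :
    (Fintype.card T : ℝ) * (5 / 4 - 11 * ε) ≤
      (instM Φ ψ near).opt (Fintype.card V + Fintype.card U) := by
  have hM : Fintype.card T + Fintype.card U ≤ M := by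
    have h := Fintype.card_le_of_embedding ψ
    rwa [Fintype.card_sum, Fintype.card_fin] at h
  have hVpos : 0 < Fintype.card V := Fintype.card_pos
  have : Nonempty {Z : Finset (EuclideanSpace ℝ (Fin (instM Φ ψ near).N)) //
      Z.Nonempty ∧ Z.card ≤ Fintype.card V + Fintype.card U} :=
    ⟨⟨{0}, ⟨0, Finset.mem_singleton_self _⟩, by rw [Finset.card_singleton]; omega⟩⟩
  unfold KInst.opt
  refine le_ciInf fun Z => ?_
  rw [cost_eq]
  simp only [cl_inl, cl_inr]
  exact KMGAux.core hM near hnear ε D2 hε R0 hR0 hD2 hV hunc hsp hdeg Z.1 Z.2.1 Z.2.2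

end Pool.Agent.Lib.P47k
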