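import Pool.Agent.Lib.P325av.Perm
import Pool.Agent.Lib.P47c.TDefs
import Pool.Agent.Lib.P47c.EsCov
import Pool.Agent.Lib.P47c.KL2
import Pool.Agent.Lib.P47k.Defs
import Pool.Agent.Lib.P47k.KMI
import Pool.Agent.Lib.P47k.KMG
import Pool.Agent.Lib.P47k.BaseN
import Pool.Agent.Lib.P47k.LiftK

/-!
Module KML (1.8h; adapt P47c/KL2.lean, kLow; black boxes baseN, liftK, KMI, KMG, EsCov and the general lemmas of KL2Aux). The lower bound for k-means.
PROOF. Copy the proof of P47c.kLow with k = 2 labels, instM in place of instK (no τ, H; the extra term cU * τ is 0), cost of the solution = M1 (3 - 2 cov), exponent a = e/18. ξ = ((5/4)/α - 1)/3 ∈ (0, 1/3),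
s = 1 - ξ/2, ε = min (min (ξ/22) ((1 - √s)/2)) ... so small that 11 ε ≤ α ξ/2, ε ≤ (1 - √s)/2, ε ≤ 1/2. baseN ε gives C, D2, e; R0 = a natural number > 0 with D2 ≤ ε R0. For K take n0 =
max (n0 of baseN) K and 1; liftK 2 C 2 n0 (F = cov near, Q = 2: es_cov with card (near j) ≤ 2). V = Fin n, Fintype.card V = n. k = n * n^5 centres = card V + card U, far.card = card U = k - n, so far.card + K ≤ k.
opt_geM gives M1 (5/4 - 11 ε) ≤ opt; 5/4 = α (1 + 3 ξ), so opt/α ≥ M1 (1 + 2 ξ). The elements of sol fac g X are of the form (Φ.trans g) p (β is a bijection): hypothesis hS of nearest_instM and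
cost_instM. unc_graph as in cost_sol.
-/

open scoped BigOperators

namespace Pool.Agent.Lib.P47k

open Pool.Agent.Lib.P47c (cov unc Cert es_cov unc_graph)

namespace KMLAux

open Pool.Agent.Lib.P47c.KL2Aux

section
variable {V K U : Type} {m M M1 Q : ℕ}
  (fac : (V × K) × ZMod 2 ↪ Fin m) (near : Fin M1 → Finset (V × ZMod 2))
  (sup : Fin M1 → Fin (Q + 1) → V) (cln : (Fin M1 × (Fin (Q + 1) → K)) ⊕ (V × K) ≃ Fin M)
  (z : V → K) (β : V ⊕ U ≃ V × K) (Φ : (V ⊕ U) × ZMod 2 ↪ Fin m) (ψ : Fin M1 ⊕ U ↪ Fin M)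
  (hβ : ∀ v, β (Sum.inl v) = (v, z v)) (hΦ : ∀ x c, Φ (x, c) = fac (β x, c))
  (hψl : ∀ t, ψ (Sum.inl t) = cln (Sum.inl (t, fun q => z (sup t q))))
  (hψr : ∀ u, ψ (Sum.inr u) = cln (Sum.inr (β (Sum.inr u))))
  (g : Equiv.Perm (Fin m)) (h : Equiv.Perm (Fin M)) (X : V × K → ZMod 2)

include hΦ in
theorem mem_range [Fintype V] [Fintype K] (i : Fin m) (hi : i ∈ sol fac g X) :
    ∃ p, (Φ.trans g.toEmbedding) p = i := by
  unfold sol at hi
  obtain ⟨q, _, rfl⟩ := Finset.mem_image.1 hi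
  refine ⟨(β.symm q, X q), ?_⟩
  rw [trans_apply fac β Φ hΦ g, Equiv.apply_symm_apply]

include hβ hΦ hψl hψr in
theorem nearest_solM [Fintype V] [Fintype K] [Fintype U] (hnear : ∀ t, (near t).card = 2)
    (hsup : ∀ t, ∀ p ∈ near t, ∃ q, sup t q = p.1) :
    (instM (Φ.trans g.toEmbedding) (ψ.trans h.toEmbedding) near).Nearest
      (sol fac g X) (asg fac near sup cln g h X) := by
  refine nearest_instM _ _ near hnear _ _ (fun i hi => mem_range fac β Φ hΦ g X i hi)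
    (fun j => asg_mem fac near sup cln g h X j) (fun u => ?_) (fun t => ?_) (fun t ht => ?_)
  · refine ⟨X (β (Sum.inr u)), ?_⟩
    rw [asg_inr fac near sup cln β ψ hψr g h X u, trans_apply fac β Φ hΦ g]
  · refine ⟨(sup t (pickq (near t) (sup t) (fun q => z (sup t q)) X),
      X (sup t (pickq (near t) (sup t) (fun q => z (sup t q)) X),
        z (sup t (pickq (near t) (sup t) (fun q => z (sup t q)) X)))), ?_⟩
    rw [asg_inl fac near sup cln z ψ hψl g h X t, trans_apply fac β Φ hΦ g, hβ]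
  · obtain ⟨p, hp, hpS⟩ := ht
    rw [mem_sol fac g X β Φ hΦ, hβ] at hpS
    obtain ⟨q, hq⟩ := hsup t p hp
    have h1 : ∃ q, (sup t q, X (sup t q, (fun q => z (sup t q)) q)) ∈ near t := by
      refine ⟨q, ?_⟩
      dsimp only
      rw [hq, hpS]
      exact hp
    have h2 := pickq_spec (near t) (sup t) (fun q => z (sup t q)) X h1
    refine ⟨_, h2, ?_⟩
    rw [asg_inl fac near sup cln z ψ hψl g h X t, trans_apply fac β Φ hΦ g, hβ]

include hβ hΦ in
theorem cost_solM [Fintype V] [Fintype K] [Fintype U] [Nonempty V] [NeZero M1]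
    (hnear : ∀ t, (near t).card = 2) (ψ' : Fin M1 ⊕ U ↪ Fin M) :
    (instM (Φ.trans g.toEmbedding) ψ' near).cost
      ((instM (Φ.trans g.toEmbedding) ψ' near).centres (sol fac g X)) =
      (M1 : ℝ) * (3 - 2 * cov near (fun v => X (v, z v))) := by
  classical
  let A : Finset (V × ZMod 2) := Finset.univ.filter (fun p => X (p.1, z p.1) = p.2)
  have hA : ∀ p, p ∈ A ↔ (Φ.trans g.toEmbedding) (Sum.inl p.1, p.2) ∈ sol fac g X := by
    intro p
    rw [mem_sol fac g X β Φ hΦ, hβ]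
    simp [A]
  have hA0 : A.Nonempty := by
    obtain ⟨v⟩ := (inferInstance : Nonempty V)
    exact ⟨(v, X (v, z v)), by simp [A]⟩
  have hU : ∀ u : U, ∃ c, (Φ.trans g.toEmbedding) (Sum.inr u, c) ∈ sol fac g X := by
    intro u
    exact ⟨X (β (Sum.inr u)), (mem_sol fac g X β Φ hΦ _ _).2 rfl⟩
  rw [cost_instM (Φ.trans g.toEmbedding) ψ' near hnear (sol fac g X)
    (fun i hi => mem_range fac β Φ hΦ g X i hi) A hA hA0 hU]
  have : Nonempty (Fin M1) := ⟨0⟩
  rw [unc_graph near (fun v => X (v, z v)) A (by intro p; simp [A])]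
  rw [Fintype.card_fin]
  ring

end

end KMLAux

open KMLAux

open Pool.Agent.Lib.P47c.KL2Aux in
theorem kmLow (α : ℝ) (hα1 : 1 ≤ α) (hα : α < 5 / 4) :
    ∃ (Q : ℕ) (a : ℝ), 0 < a ∧ ∀ K : ℕ, ∃ m0 : ℕ, ∀ m ≥ m0, ∃ (M k : ℕ) (I : KInst m M),
      M ≤ m ^ Q ∧ k ≤ m ∧ I.clients.card ≤ m ∧ I.IsGraph ∧ I.far.card + K ≤ k ∧
      ∀ (Y : Type) [AddCommGroup Y] [Module ℝ Y] (R d : ℕ)
        (A : Fin R → Y →ₗ[ℝ] (Fin d → ℝ)) (C : Fin R → Set (Fin d → ℝ))
        (pt : Finset (Fin m) → (Fin M → Fin m) → Y),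
        (R : ℝ) ≤ Real.exp ((m : ℝ) ^ a) → (d : ℝ) ≤ (m : ℝ) ^ a → (∀ i, Convex ℝ (C i)) →
        (∀ S σ, S.Nonempty → S.card ≤ k → (∀ j, σ j ∈ S) → ∀ i, A i (pt S σ) ∈ C i) →
        (Nat.card {g : Equiv.Perm (Fin m) × Equiv.Perm (Fin M) //
          (I.rename g.1 g.2).ApproxBy {y | ∀ i, A i y ∈ C i} pt k α} : ℝ) ≤
          Real.exp (-(m : ℝ) ^ a) * (m.factorial * M.factorial) := by
  classical
  have hα0 : 0 < α := by linarith
  obtain ⟨ξ, hξ⟩ : ∃ ξ : ℝ, ξ = ((5 / 4) / α - 1) / 3 := ⟨_, rfl⟩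
  have hξ0 : 0 < ξ := by
    rw [hξ]
    have : 1 < (5 / 4) / α := by
      rw [one_lt_div hα0]
      exact hα
    linarith
  have hξ1 : ξ < 1 / 3 := by
    rw [hξ]
    have h1 : (5 / 4) / α ≤ 5 / 4 := div_le_self (by norm_num) hα1
    linarith
  have hαξ : α * (1 + 3 * ξ) = 5 / 4 := by
    rw [hξ]
    field_simp
    ring
  obtain ⟨s, hs⟩ : ∃ s : ℝ, s = 1 - ξ / 2 := ⟨_, rfl⟩
  have hs0 : 0 < s := by linarith
  have hs1 : s < 1 := by linarith
  have hsq : Real.sqrt s < 1 := by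
    rw [Real.sqrt_lt' one_pos]
    linarith
  obtain ⟨ε, hε⟩ : ∃ ε : ℝ, ε = min (min (α * ξ / 22) ((1 - Real.sqrt s) / 2)) 1 := ⟨_, rfl⟩
  have hε0 : 0 < ε := by
    rw [hε]
    refine lt_min (lt_min ?_ ?_) one_pos
    · positivity
    · linarith
  have hε1 : ε ≤ α * ξ / 22 := by
    rw [hε]
    exact (min_le_left _ _).trans (min_le_left _ _)
  have hε2 : ε ≤ (1 - Real.sqrt s) / 2 := by
    rw [hε]
    exact (min_le_left _ _).trans (min_le_right _ _)
  have hε3 : ε ≤ 1 := by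
    rw [hε]
    exact min_le_right _ _
  obtain ⟨C0, D2, e, hC1, he, he4, hD20, hbase⟩ := baseN ε hε0 hε3
  obtain ⟨R1, hR1⟩ := exists_nat_ge (D2 / ε)
  have hD2 : D2 ≤ ε * ((R1 + 1 : ℕ) : ℝ) := by
    rw [div_le_iff₀ hε0] at hR1
    push_cast
    nlinarith
  refine ⟨5, e / 18, by positivity, fun K => ?_⟩
  obtain ⟨n0, hbase'⟩ := hbase (R1 + 1)
  obtain ⟨m0, hlift⟩ := liftK 2 C0 2 (max n0 K) hC1 s (1 - ε) e hs0 hs1 (by linarith) he he4
  refine ⟨m0, fun m hm => ?_⟩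
  obtain ⟨n, hn0, hn1, hnm, hcert⟩ := hlift m hm
  obtain ⟨M1, near, r, E, hM0, hM1, hVM, hnear, hr, hE, hcov, hunc, hsp, hdeg⟩ :=
    hbase' n ((le_max_left _ _).trans hn0)
  have hnK : K ≤ n := (le_max_right _ _).trans hn0
  have hMz : NeZero M1 := ⟨by omega⟩
  have hnz : NeZero n := ⟨by omega⟩
  have hVne : Nonempty (Fin n) := ⟨0⟩
  have hTne : Nonempty (Fin M1) := ⟨0⟩
  have hn5 : 1 ≤ n ^ 5 := Nat.one_le_pow _ _ hn1
  have hle : n ≤ n * n ^ 5 := Nat.le_mul_of_pos_right _ hn5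
  obtain ⟨cU, hcU⟩ : ∃ cU : ℕ, cU = n * n ^ 5 - n := ⟨_, rfl⟩
  have hcU' : n + cU = n * n ^ 5 := by omega
  have hcardU : Fintype.card (Fin n) + Fintype.card (Fin cU) =
      Fintype.card (Fin n × Fin (n ^ 5)) := by
    rw [Fintype.card_prod, Fintype.card_fin, Fintype.card_fin, Fintype.card_fin, hcU']
  have hnC : n ≤ C0 * n := Nat.le_mul_of_pos_left _ hC1
  have hVn : n * n ^ 5 ≤ C0 * n * n ^ 5 := Nat.mul_le_mul_right _ hnC
  have hCn : C0 * n ≤ C0 * n * n ^ 5 := Nat.le_mul_of_pos_right _ hn5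
  have hMm : M1 + cU ≤ m := by omega
  have hM1m : M1 ≤ m := by omega
  have hkm : n * n ^ 5 ≤ m := by omega
  have hm2 : 2 ≤ m := by omega
  have hn5m : n ^ 5 ≤ m := le_trans (Nat.le_mul_of_pos_left _ hn1) hkm
  have hfac : Nonempty ((Fin n × Fin (n ^ 5)) × ZMod 2 ↪ Fin m) := by
    apply Function.Embedding.nonempty_of_card_le
    rw [Fintype.card_prod, Fintype.card_prod, Fintype.card_fin, Fintype.card_fin,
      Fintype.card_fin, ZMod.card]
    exact le_trans (Nat.mul_le_mul_right _ hVn) hnm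
  obtain ⟨fac⟩ := hfac
  have hsupE : ∀ t : Fin M1, ∃ f : Fin (2 + 1) → Fin n, ∀ p ∈ near t, ∃ q, f q = p.1 := by
    intro t
    obtain ⟨f, hf⟩ := exists_sup ((near t).image Prod.fst) 2
      (Finset.card_image_le.trans (hnear t).le)
    exact ⟨f, fun p hp => hf p.1 (Finset.mem_image_of_mem _ hp)⟩
  choose sup hsup using hsupE
  obtain ⟨M, hMdef⟩ : ∃ M, M = Fintype.card ((Fin M1 × (Fin (2 + 1) → Fin (n ^ 5))) ⊕
    (Fin n × Fin (n ^ 5))) := ⟨_, rfl⟩
  have cln : (Fin M1 × (Fin (2 + 1) → Fin (n ^ 5))) ⊕ (Fin n × Fin (n ^ 5)) ≃ Fin M :=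
    Fintype.equivFinOfCardEq hMdef.symm
  have hMle : M ≤ m ^ 5 := by
    rw [hMdef, Fintype.card_sum, Fintype.card_prod, Fintype.card_prod, Fintype.card_fin,
      Fintype.card_fun, Fintype.card_fin, Fintype.card_fin, Fintype.card_fin]
    have g1 : M1 * (n ^ 5) ^ (2 + 1) ≤ m ^ 4 := by
      rw [show (4 : ℕ) = 3 + 1 from rfl, pow_succ m 3, mul_comm (m ^ 3)]
      exact Nat.mul_le_mul hM1m (Nat.pow_le_pow_left hn5m _)
    have g2 : m ≤ m ^ 4 := Nat.le_self_pow (by omega) m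
    have g3 : 2 * m ^ 4 ≤ m ^ 5 := by
      rw [show (5 : ℕ) = 4 + 1 from rfl, pow_succ m 4, mul_comm]
      exact Nat.mul_le_mul_left _ hm2
    omega
  choose β Φ ψ hβ hΦ hψl hψr using fun z : Fin n → Fin (n ^ 5) =>
    exists_Phi (U := Fin cU) fac sup cln hcardU z
  let z0 : Fin n → Fin (n ^ 5) := fun _ => ⟨0, hn5⟩
  have hM1r : (0 : ℝ) < M1 := by exact_mod_cast hM0
  refine ⟨M, n * n ^ 5, instM (Φ z0) (ψ z0) near, hMle, hkm, ?_, isGraph_instM _ _ near hnear,
    ?_, ?_⟩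
  · rw [clients_instM, Fintype.card_fin, Fintype.card_fin]
    exact hMm
  · rw [far_instM _ _ near hnear, Fintype.card_fin]
    omega
  intro Y _ _ R d A C pt hR hd hconv hpt
  have hGc : (Fintype.card (Equiv.Perm (Fin m) × Equiv.Perm (Fin M)) : ℝ) =
      (m.factorial : ℝ) * (M.factorial : ℝ) := by
    rw [Fintype.card_prod, Fintype.card_perm, Fintype.card_perm, Fintype.card_fin,
      Fintype.card_fin]
    push_cast
    rfl
  have hP : ∀ z : Fin n → Fin (n ^ 5), ∃ h : Equiv.Perm (Fin m) × Equiv.Perm (Fin M),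
      ∀ g : Equiv.Perm (Fin m) × Equiv.Perm (Fin M),
      (((instM (Φ z) (ψ z) near).rename g.1 g.2).ApproxBy
        {y | ∀ j, A j y ∈ C j} pt (n * n ^ 5) α) ↔
      (((instM (Φ z0) (ψ z0) near).rename (g * h).1 (g * h).2).ApproxBy
        {y | ∀ j, A j y ∈ C j} pt (n * n ^ 5) α) := by
    intro z
    obtain ⟨h, h', hh⟩ := exists_renameM (Φ z0) (ψ z0) near (Φ z) (ψ z)
    refine ⟨(h, h'), fun g => ?_⟩
    rw [hh, rename_renameM]
    rfl
  have hmain : ∀ g : Equiv.Perm (Fin m) × Equiv.Perm (Fin M),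
      (Nat.card {z : Fin n → Fin (n ^ 5) //
      ((instM (Φ z) (ψ z) near).rename g.1 g.2).ApproxBy
        {y | ∀ j, A j y ∈ C j} pt (n * n ^ 5) α} : ℝ) ≤
      Real.exp (-(m : ℝ) ^ (e / 18)) * Fintype.card (Fin n → Fin (n ^ 5)) := by
    intro g
    have : Nonempty (Fin n × Fin (n ^ 5)) := ⟨(0, ⟨0, hn5⟩)⟩
    have hSc : ∀ X : Fin n × Fin (n ^ 5) → ZMod 2,
        (sol fac g.1 X).card ≤ n * n ^ 5 := by
      intro X
      refine le_trans (sol_card fac g.1 X) ?_
      rw [Fintype.card_prod, Fintype.card_fin, Fintype.card_fin]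
    have hcn : ∀ y, 0 ≤ cov near y := by
      intro y
      unfold cov
      apply Pool.Agent.Lib.P325P.mean_nonneg
      intro j
      split_ifs <;> norm_num
    have h1 := hcert (Fin n) (by rw [Fintype.card_fin]; exact hnC) (cov near) hcn
      (fun T hT y => es_cov near 2 (fun j => (hnear j).le) T hT y) r E hE hr hcov Y R d A C
      (fun X => pt (sol fac g.1 X) (asg fac near sup cln g.1 g.2 X)) hR hd
      hconv (fun X j => hpt _ _ (sol_nonempty fac g.1 X) (hSc X)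
        (fun i => asg_mem fac near sup cln g.1 g.2 X i) j)
    refine le_trans ?_ h1
    have h2 : ∀ z : Fin n → Fin (n ^ 5),
        ((instM (Φ z) (ψ z) near).rename g.1 g.2).ApproxBy
        {y | ∀ j, A j y ∈ C j} pt (n * n ^ 5) α →
        Cert {y | ∀ j, A j y ∈ C j}
          (fun X => pt (sol fac g.1 X) (asg fac near sup cln g.1 g.2 X))
          (fun X => cov near (fun i => X (i, z i))) s := by
      intro z hz
      rw [rename_instM] at hz
      obtain ⟨w, w0, hw, hopt⟩ := hz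
      have hserv : ∀ X : Fin n × Fin (n ^ 5) → ZMod 2,
          w (pt (sol fac g.1 X) (asg fac near sup cln g.1 g.2 X)) + w0 =
          (M1 : ℝ) * (3 - 2 * cov near (fun v => X (v, z v))) := by
        intro X
        rw [hw (sol fac g.1 X) (asg fac near sup cln g.1 g.2 X) (sol_nonempty fac g.1 X) (hSc X)
          (nearest_solM fac near sup cln z (β z) (Φ z) (ψ z) (hβ z) (hΦ z) (hψl z) (hψr z) g.1
            g.2 X hnear hsup),
          cost_solM fac near z (β z) (Φ z) (hβ z) (hΦ z) g.1 X hnear]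
      have hmed : (M1 : ℝ) * (5 / 4 - 11 * ε) ≤
          (instM ((Φ z).trans g.1.toEmbedding) ((ψ z).trans g.2.toEmbedding) near).opt
            (n * n ^ 5) := by
        have h3 := opt_geM ((Φ z).trans g.1.toEmbedding) ((ψ z).trans g.2.toEmbedding) near
          hnear ε D2 hε0 (R1 + 1) (by omega) hD2
          (by rw [Fintype.card_fin, Fintype.card_fin]; exact hVM)
          (by
            intro A
            rw [Fintype.card_fin]
            exact hunc A)
          hsp (by rw [Fintype.card_fin]; exact hdeg)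
        rw [Fintype.card_fin, Fintype.card_fin, Fintype.card_fin, hcU'] at h3
        exact h3
      have hlow : ∀ y ∈ {y | ∀ j, A j y ∈ C j}, (M1 : ℝ) * (1 + 2 * ξ) ≤ w y + w0 := by
        intro y hy
        refine le_trans ?_ (hopt y hy)
        rw [le_div_iff₀ hα0]
        refine le_trans ?_ hmed
        rw [mul_assoc]
        apply mul_le_mul_of_nonneg_left _ hM1r.le
        nlinarith
      refine ⟨(-(1 / (2 * (M1 : ℝ)))) • w, (3 - w0 / M1) / 2, ?_, ?_⟩
      · intro X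
        have h3 := hserv X
        have h4 : w (pt (sol fac g.1 X) (asg fac near sup cln g.1 g.2 X)) =
          (M1 : ℝ) * (3 - 2 * cov near (fun v => X (v, z v))) - w0 := by linarith
        rw [LinearMap.smul_apply, smul_eq_mul, h4]
        field_simp
        ring
      · intro y hy
        have h3 := hlow y hy
        rw [LinearMap.smul_apply, smul_eq_mul, hs]
        have h5 : -(1 / (2 * (M1 : ℝ))) * w y + (3 - w0 / M1) / 2 =
            (3 * M1 - (w y + w0)) / (2 * M1) := by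
          field_simp
          ring
        rw [h5, div_le_iff₀ (by positivity)]
        nlinarith
    have h3 : Nat.card {z : Fin n → Fin (n ^ 5) //
        ((instM (Φ z) (ψ z) near).rename g.1 g.2).ApproxBy
        {y | ∀ j, A j y ∈ C j} pt (n * n ^ 5) α} ≤
        Nat.card {z : Fin n → Fin (n ^ 5) // Cert {y | ∀ j, A j y ∈ C j}
          (fun X => pt (sol fac g.1 X) (asg fac near sup cln g.1 g.2 X))
          (fun X => cov near (fun i => X (i, z i))) s} := by
      apply Nat.card_le_card_of_injective (fun z => ⟨z.1, h2 z.1 z.2⟩)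
      intro z z' h
      exact Subtype.ext (congrArg (fun u => u.1) h)
    exact_mod_cast h3
  have hZne : Nonempty (Fin n → Fin (n ^ 5)) := ⟨z0⟩
  have key := Pool.Agent.Lib.P325av.dbl (G := Equiv.Perm (Fin m) × Equiv.Perm (Fin M))
    (Zt := Fin n → Fin (n ^ 5)) _
    (fun g => ((instM (Φ z0) (ψ z0) near).rename g.1 g.2).ApproxBy
        {y | ∀ j, A j y ∈ C j} pt (n * n ^ 5) α) hP
    (Real.exp (-(m : ℝ) ^ (e / 18))) hmain
  rw [hGc] at key
  exact key

end Pool.Agent.Lib.P47k
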