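import Mathlib

/-!
Module Pip (1.2h; Mathlib only). Pipage rounding for the coverage of the edges of a graph.
PROOF. F z = ∑ t, (1 - (1 - z (P t)) (1 - z (Q t))), P t ≠ Q t. Strong induction on the number of a with z a ≠ 0, z a ≠ 1. If it is 0, let
A = {a : z a = 1}; card A = ∑ z ≤ K, and F z = the number of the t with P t ∈ A or Q t ∈ A. If there is exactly one fractional a: the other
coordinates are 0 or 1, so their sum is a natural number < K (z a > 0), hence z a can be raised to 1; F is monotone in every coordinate. If a ≠ b are
both fractional: along z + s (e_a - e_b), s real, every term of F is affine or (if {P t, Q t} = {a, b}) equal to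
1 - (1 - z a - s)(1 - z b + s), which is convex in s; so F is a convex quadratic polynomial q(s) = q0 + q1 s + q2 s^2 with q2 ≥ 0 and
q s ≥ q 0 at s = min (1 - z a) (z b) (if q1 ≥ 0) or at s = - min (z a) (1 - z b) (if q1 ≤ 0). The sum of the coordinates does not change and at
least one of a, b becomes 0 or 1.
-/

open scoped BigOperators

namespace Pool.Agent.Lib.P47k

namespace PipAux

/-- the coverage -/
noncomputable def cov {ι T : Type} [Fintype T] (P Q : T → ι) (z : ι → ℝ) : ℝ :=
  ∑ t, (1 - (1 - z (P t)) * (1 - z (Q t)))

theorem cov_mono {ι T : Type} [Fintype T] (P Q : T → ι) (z w : ι → ℝ) (hzw : ∀ a, z a ≤ w a)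
    (hw : ∀ a, w a ≤ 1) : cov P Q z ≤ cov P Q w := by
  unfold cov
  refine Finset.sum_le_sum fun t _ => ?_
  have h1 := hzw (P t)
  have h2 := hzw (Q t)
  have h3 := hw (P t)
  have h4 := hw (Q t)
  nlinarith [mul_nonneg (sub_nonneg.2 h1) (sub_nonneg.2 h4), mul_nonneg (sub_nonneg.2 h2) (sub_nonneg.2 (h1.trans h3))]

/-- the direction -/
noncomputable def dir {ι : Type} [DecidableEq ι] (a b : ι) (c : ι) : ℝ :=
  (if c = a then 1 else 0) - (if c = b then 1 else 0)

theorem cov_line {ι T : Type} [DecidableEq ι] [Fintype T] (P Q : T → ι) (hPQ : ∀ t, P t ≠ Q t)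
    (z : ι → ℝ) (a b : ι) :
    ∃ U V : ℝ, 0 ≤ V ∧ ∀ s : ℝ, cov P Q (fun c => z c + s * dir a b c) = cov P Q z + U * s + V * s ^ 2 := by
  refine ⟨∑ t, (dir a b (P t) * (1 - z (Q t)) + dir a b (Q t) * (1 - z (P t))),
    ∑ t, (-(dir a b (P t) * dir a b (Q t))), ?_, ?_⟩
  · refine Finset.sum_nonneg fun t _ => ?_
    have h := hPQ t
    unfold dir
    by_cases h1 : P t = a <;> by_cases h2 : P t = b <;> by_cases h3 : Q t = a <;> by_cases h4 : Q t = b <;>
      simp only [h1, h2, h3, h4, if_true, if_false] at * <;> first | exact absurd rfl h | norm_num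
    all_goals simp_all
  · intro s
    unfold cov
    rw [Finset.sum_mul, Finset.sum_mul, ← Finset.sum_add_distrib, ← Finset.sum_add_distrib]
    refine Finset.sum_congr rfl fun t _ => ?_
    ring

theorem sum_dir {ι : Type} [Fintype ι] [DecidableEq ι] (a b : ι) : ∑ c, dir a b c = 0 := by
  simp [dir, Finset.sum_sub_distrib]

end PipAux

open PipAux in
theorem pip {ι T : Type} [Fintype ι] [DecidableEq ι] [Fintype T] (P Q : T → ι)
    (hPQ : ∀ t, P t ≠ Q t) (K : ℕ) (z : ι → ℝ) (h0 : ∀ a, 0 ≤ z a) (h1 : ∀ a, z a ≤ 1)
    (hs : ∑ a, z a ≤ K) :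
    ∃ A : Finset ι, A.card ≤ K ∧ ∑ t, (1 - (1 - z (P t)) * (1 - z (Q t))) ≤
      ((Finset.univ.filter (fun t => P t ∈ A ∨ Q t ∈ A)).card : ℝ) := by
  classical
  obtain ⟨n, hn⟩ : ∃ n, (Finset.univ.filter (fun a => z a ≠ 0 ∧ z a ≠ 1)).card = n := ⟨_, rfl⟩
  induction n using Nat.strong_induction_on generalizing z with
  | _ n ih =>
    by_cases hab : ∃ a b, a ≠ b ∧ (z a ≠ 0 ∧ z a ≠ 1) ∧ (z b ≠ 0 ∧ z b ≠ 1)
    · obtain ⟨a, b, hne, ⟨ha0, ha1⟩, ⟨hb0, hb1⟩⟩ := hab
      have pa0 : 0 < z a := lt_of_le_of_ne (h0 a) (Ne.symm ha0)
      have pa1 : z a < 1 := lt_of_le_of_ne (h1 a) ha1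
      have pb0 : 0 < z b := lt_of_le_of_ne (h0 b) (Ne.symm hb0)
      have pb1 : z b < 1 := lt_of_le_of_ne (h1 b) hb1
      obtain ⟨U, V, hV, hline⟩ := cov_line P Q hPQ z a b
      have key : ∀ s : ℝ, 0 ≤ z a + s → z a + s ≤ 1 → 0 ≤ z b - s → z b - s ≤ 1 →
          (z a + s = 0 ∨ z a + s = 1 ∨ z b - s = 0 ∨ z b - s = 1) → 0 ≤ U * s →
          ∃ A : Finset ι, A.card ≤ K ∧ ∑ t, (1 - (1 - z (P t)) * (1 - z (Q t))) ≤
            ((Finset.univ.filter (fun t => P t ∈ A ∨ Q t ∈ A)).card : ℝ) := by
        intro s e1 e2 e3 e4 e5 e6
        have da : dir a b a = 1 := by simp [dir, hne]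
        have db : dir a b b = -1 := by simp [dir, hne.symm]
        have dc : ∀ c, c ≠ a → c ≠ b → dir a b c = 0 := fun c hc1 hc2 => by simp [dir, hc1, hc2]
        have hval : ∀ c, (c = a ∧ z c + s * dir a b c = z a + s) ∨ (c = b ∧ z c + s * dir a b c = z b - s) ∨
            (c ≠ a ∧ c ≠ b ∧ z c + s * dir a b c = z c) := by
          intro c
          by_cases hc1 : c = a
          · left; subst hc1; exact ⟨rfl, by rw [da]; ring⟩
          · by_cases hc2 : c = b
            · right; left; subst hc2; exact ⟨rfl, by rw [db]; ring⟩
            · right; right; exact ⟨hc1, hc2, by rw [dc c hc1 hc2]; ring⟩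
        have hlt : (Finset.univ.filter (fun c => z c + s * dir a b c ≠ 0 ∧ z c + s * dir a b c ≠ 1)).card < n := by
          rw [← hn]
          apply Finset.card_lt_card
          refine ⟨fun c hc => ?_, fun hsub => ?_⟩
          · simp only [Finset.mem_filter, Finset.mem_univ, true_and] at hc ⊢
            rcases hval c with ⟨hc1, -⟩ | ⟨hc1, -⟩ | ⟨-, -, hc1⟩
            · subst hc1; exact ⟨ha0, ha1⟩
            · subst hc1; exact ⟨hb0, hb1⟩
            · rwa [hc1] at hc
          · have ma := @hsub a (by simp [ha0, ha1])
            have mb := @hsub b (by simp [hb0, hb1])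
            simp only [Finset.mem_filter, Finset.mem_univ, true_and] at ma mb
            have va : z a + s * dir a b a = z a + s := by rw [da]; ring
            have vb : z b + s * dir a b b = z b - s := by rw [db]; ring
            rw [va] at ma
            rw [vb] at mb
            rcases e5 with h | h | h | h
            · exact ma.1 h
            · exact ma.2 h
            · exact mb.1 h
            · exact mb.2 h
        obtain ⟨A, hA, hF⟩ := ih _ hlt (fun c => z c + s * dir a b c) (fun c => by
          rcases hval c with ⟨-, h⟩ | ⟨-, h⟩ | ⟨-, -, h⟩ <;> rw [h]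
          · exact e1
          · exact e3
          · exact h0 c) (fun c => by
          rcases hval c with ⟨-, h⟩ | ⟨-, h⟩ | ⟨-, -, h⟩ <;> rw [h]
          · exact e2
          · exact e4
          · exact h1 c) (by
          rw [Finset.sum_add_distrib, ← Finset.mul_sum, sum_dir, mul_zero, add_zero]
          exact hs) rfl
        refine ⟨A, hA, le_trans ?_ hF⟩
        have h := hline s
        unfold cov at h
        rw [h]
        have : 0 ≤ V * s ^ 2 := by positivity
        linarith
      rcases le_total 0 U with hU | hU
      · rcases le_total (1 - z a) (z b) with hm | hm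
        · exact key (1 - z a) (by linarith) (by linarith) (by linarith) (by linarith)
            (Or.inr (Or.inl (by ring))) (mul_nonneg hU (by linarith))
        · exact key (z b) (by linarith) (by linarith) (by linarith) (by linarith)
            (Or.inr (Or.inr (Or.inl (by ring)))) (mul_nonneg hU (by linarith))
      · rcases le_total (z a) (1 - z b) with hm | hm
        · exact key (-z a) (by linarith) (by linarith) (by linarith) (by linarith)
            (Or.inl (by ring)) (mul_nonneg_of_nonpos_of_nonpos hU (by linarith))
        · exact key (-(1 - z b)) (by linarith) (by linarith) (by linarith) (by linarith)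
            (Or.inr (Or.inr (Or.inr (by ring)))) (mul_nonneg_of_nonpos_of_nonpos hU (by linarith))
    · by_cases hex : ∃ a, z a ≠ 0 ∧ z a ≠ 1
      · obtain ⟨a, ha0, ha1⟩ := hex
        have hoth : ∀ c, c ≠ a → z c = 0 ∨ z c = 1 := by
          intro c hc
          by_contra hcon
          push Not at hcon
          exact hab ⟨c, a, hc, hcon, ha0, ha1⟩
        have pa0 : 0 < z a := lt_of_le_of_ne (h0 a) (Ne.symm ha0)
        have hsum : ∑ c, z c = z a + ((((Finset.univ.erase a).filter (fun c => z c = 1)).card : ℕ) : ℝ) := by
          rw [← Finset.add_sum_erase _ _ (Finset.mem_univ a), Finset.card_filter]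
          push_cast
          congr 1
          refine Finset.sum_congr rfl fun c hc => ?_
          rcases hoth c (Finset.ne_of_mem_erase hc) with h | h <;> simp [h]
        have hlt : ((Finset.univ.erase a).filter (fun c => z c = 1)).card < K := by
          have : ((((Finset.univ.erase a).filter (fun c => z c = 1)).card : ℕ) : ℝ) < K := by linarith
          exact_mod_cast this
        have hcard : (Finset.univ.filter (fun c => Function.update z a 1 c ≠ 0 ∧ Function.update z a 1 c ≠ 1)).card < n := by
          rw [← hn]
          apply Finset.card_lt_card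
          refine ⟨fun c hc => ?_, fun hsub => ?_⟩
          · simp only [Finset.mem_filter, Finset.mem_univ, true_and] at hc ⊢
            by_cases hca : c = a
            · subst hca; exact ⟨ha0, ha1⟩
            · rwa [Function.update_of_ne hca] at hc
          · have ma := @hsub a (by simp [ha0, ha1])
            simp at ma
        have hle : ∀ c, z c ≤ Function.update z a 1 c := by
          intro c
          by_cases hca : c = a
          · subst hca; rw [Function.update_self]; exact h1 c
          · rw [Function.update_of_ne hca]
        have hle1 : ∀ c, Function.update z a 1 c ≤ 1 := by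
          intro c
          by_cases hca : c = a
          · subst hca; rw [Function.update_self]
          · rw [Function.update_of_ne hca]; exact h1 c
        obtain ⟨A, hA, hF⟩ := ih _ hcard (Function.update z a 1) (fun c => (h0 c).trans (hle c)) hle1 (by
          have e : ∑ c, Function.update z a 1 c = 1 + ((((Finset.univ.erase a).filter (fun c => z c = 1)).card : ℕ) : ℝ) := by
            rw [← Finset.add_sum_erase _ _ (Finset.mem_univ a), Function.update_self, Finset.card_filter]
            push_cast
            congr 1
            refine Finset.sum_congr rfl fun c hc => ?_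
            rw [Function.update_of_ne (Finset.ne_of_mem_erase hc)]
            rcases hoth c (Finset.ne_of_mem_erase hc) with h | h <;> simp [h]
          rw [e]
          have : 1 + ((Finset.univ.erase a).filter (fun c => z c = 1)).card ≤ K := by omega
          exact_mod_cast this) rfl
        exact ⟨A, hA, (cov_mono P Q z _ hle hle1).trans hF⟩
      · have hint : ∀ c, z c = 0 ∨ z c = 1 := by
          intro c
          by_contra hcon
          push Not at hcon
          exact hex ⟨c, hcon⟩
        refine ⟨Finset.univ.filter (fun c => z c = 1), ?_, ?_⟩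
        · have : (((Finset.univ.filter (fun c => z c = 1)).card : ℕ) : ℝ) ≤ K := by
            rw [Finset.card_filter]
            push_cast
            refine le_trans (le_of_eq ?_) hs
            refine Finset.sum_congr rfl fun c _ => ?_
            rcases hint c with h | h <;> simp [h]
          exact_mod_cast this
        · rw [Finset.card_filter]
          push_cast
          refine Finset.sum_le_sum fun t _ => ?_
          rcases hint (P t) with h | h <;> rcases hint (Q t) with h' | h' <;> simp [h, h']

end Pool.Agent.Lib.P47k
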