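import Pool.Agent.Lib.P47k.Defs
import Pool.Agent.Lib.P47k.Pip

/-!
The linear program for graph instances of k-means.
-/

open scoped BigOperators

namespace Pool.Agent.Lib.P47k

namespace KMUAux

/-! ### The program -/

/-- The index type of the inequalities. -/
abbrev JU (m M : ℕ) : Type :=
  Fin m ⊕ Unit ⊕ (Fin M × Fin m) ⊕ (Fin M × Fin m) ⊕ Fin M ⊕ Fin M

/-- The space of the program. -/
abbrev YU (m M : ℕ) : Type := (Fin m → ℝ) × (Fin M → Fin m → ℝ)

/-- The coordinate `y i`. -/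
noncomputable def uy (m M : ℕ) (i : Fin m) : YU m M →ₗ[ℝ] ℝ where
  toFun y := y.1 i
  map_add' _ _ := rfl
  map_smul' _ _ := rfl

/-- The coordinate `x j i`. -/
noncomputable def ux (m M : ℕ) (j : Fin M) (i : Fin m) : YU m M →ₗ[ℝ] ℝ where
  toFun y := y.2 j i
  map_add' _ _ := rfl
  map_smul' _ _ := rfl

@[simp] theorem uy_apply (m M : ℕ) (i : Fin m) (y : YU m M) : uy m M i y = y.1 i := rfl

@[simp] theorem ux_apply (m M : ℕ) (j : Fin M) (i : Fin m) (y : YU m M) :
    ux m M j i y = y.2 j i := rfl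

/-- The left hand sides. -/
noncomputable def AU (m M : ℕ) : JU m M → YU m M →ₗ[ℝ] ℝ
  | Sum.inl i => - uy m M i
  | Sum.inr (Sum.inl _) => ∑ i, uy m M i
  | Sum.inr (Sum.inr (Sum.inl p)) => - ux m M p.1 p.2
  | Sum.inr (Sum.inr (Sum.inr (Sum.inl p))) => ux m M p.1 p.2 - uy m M p.2
  | Sum.inr (Sum.inr (Sum.inr (Sum.inr (Sum.inl j)))) => - ∑ i, ux m M j i
  | Sum.inr (Sum.inr (Sum.inr (Sum.inr (Sum.inr j)))) => ∑ i, ux m M j i

/-- The right hand sides. -/
noncomputable def CU (m M k : ℕ) : JU m M → ℝ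
  | Sum.inl _ => 0
  | Sum.inr (Sum.inl _) => k
  | Sum.inr (Sum.inr (Sum.inl _)) => 0
  | Sum.inr (Sum.inr (Sum.inr (Sum.inl _))) => 0
  | Sum.inr (Sum.inr (Sum.inr (Sum.inr (Sum.inl _)))) => -1
  | Sum.inr (Sum.inr (Sum.inr (Sum.inr (Sum.inr _)))) => 1

/-- The point of a set and an assignment. -/
noncomputable def PU (m M : ℕ) (S : Finset (Fin m)) (σ : Fin M → Fin m) : YU m M :=
  (fun i => if i ∈ S then 1 else 0, fun j i => if σ j = i then 1 else 0)

theorem card_JU (m M : ℕ) : Fintype.card (JU m M) ≤ 2 * (m + 1) * (M + 1) := by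
  simp only [Fintype.card_sum, Fintype.card_fin, Fintype.card_unit, Fintype.card_prod]
  have h : 2 * (m + 1) * (M + 1) = M * m + M * m + 2 * m + 2 * M + 2 := by ring
  rw [h]
  omega

theorem PU_feasible (m M k : ℕ) (S : Finset (Fin m)) (σ : Fin M → Fin m) (hS : S.card ≤ k)
    (hσ : ∀ j, σ j ∈ S) (j : JU m M) : AU m M j (PU m M S σ) ≤ CU m M k j := by
  rcases j with i | u | q | q | j | j
  · simp only [AU, CU, PU, LinearMap.neg_apply, uy_apply, Left.neg_nonpos_iff]
    split_ifs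
    · exact zero_le_one
    · exact le_rfl
  · simp only [AU, CU, PU, LinearMap.sum_apply, uy_apply]
    rw [Finset.sum_ite_mem, Finset.univ_inter, Finset.sum_const, nsmul_eq_mul, mul_one]
    exact_mod_cast hS
  · simp only [AU, CU, PU, LinearMap.neg_apply, ux_apply, Left.neg_nonpos_iff]
    split_ifs
    · exact zero_le_one
    · exact le_rfl
  · simp only [AU, CU, PU, LinearMap.sub_apply, ux_apply, uy_apply]
    by_cases h : σ q.1 = q.2
    · have h' : q.2 ∈ S := h ▸ hσ q.1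
      rw [if_pos h, if_pos h']
      norm_num
    · rw [if_neg h]
      split_ifs <;> norm_num
  · simp only [AU, CU, PU, LinearMap.neg_apply, LinearMap.sum_apply, ux_apply, neg_le_neg_iff]
    rw [Finset.sum_ite_eq]
    simp
  · simp only [AU, CU, PU, LinearMap.sum_apply, ux_apply]
    rw [Finset.sum_ite_eq]
    simp

/-! ### Distances -/

theorem unit_apply {N : ℕ} (p q : Fin N) : (unit p : EuclideanSpace ℝ (Fin N)) q = if q = p then 1 else 0 := by
  unfold unit
  simp [PiLp.single_apply]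

theorem sq_le_norm {N : ℕ} (v : EuclideanSpace ℝ (Fin N)) (p : Fin N) : (v p) ^ 2 ≤ ‖v‖ ^ 2 := by
  rw [EuclideanSpace.real_norm_sq_eq]
  exact Finset.single_le_sum (f := fun i => (v i) ^ 2) (fun i _ => sq_nonneg (v i))
    (Finset.mem_univ p)

theorem sq_add_sq_le_norm {N : ℕ} (v : EuclideanSpace ℝ (Fin N)) (p q : Fin N) (h : p ≠ q) :
    (v p) ^ 2 + (v q) ^ 2 ≤ ‖v‖ ^ 2 := by
  rw [EuclideanSpace.real_norm_sq_eq, ← Finset.sum_pair (f := fun i => (v i) ^ 2) h]
  exact Finset.sum_le_sum_of_subset_of_nonneg (Finset.subset_univ _) fun i _ _ => sq_nonneg (v i)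

theorem norm_unit {N : ℕ} (p : Fin N) : ‖(unit p : EuclideanSpace ℝ (Fin N))‖ ^ 2 = 1 := by
  unfold unit
  simp

theorem norm_unit_add {N : ℕ} (p q : Fin N) (h : p ≠ q) :
    ‖(unit p + unit q : EuclideanSpace ℝ (Fin N))‖ ^ 2 = 2 := by
  rw [EuclideanSpace.real_norm_sq_eq]
  have h1 : ∀ i : Fin N, ((unit p + unit q : EuclideanSpace ℝ (Fin N)) i) ^ 2 =
      (if i = p then 1 else 0) + (if i = q then 1 else 0) := by
    intro i
    rw [PiLp.add_apply, unit_apply, unit_apply]
    by_cases h1 : i = p <;> by_cases h2 : i = q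
    · exact absurd (h1.symm.trans h2) h
    · rw [if_pos h1, if_neg h2]
      norm_num
    · rw [if_neg h1, if_pos h2]
      norm_num
    · rw [if_neg h1, if_neg h2]
      norm_num
  rw [Finset.sum_congr rfl fun i _ => h1 i, Finset.sum_add_distrib]
  simp
  norm_num

/-- The possible candidates. -/
def IsCand {N : ℕ} (L : ℝ) (f : EuclideanSpace ℝ (Fin N)) : Prop :=
  f = 0 ∨ ∃ p, f = unit p ∨ f = L • unit p

theorem far_dist {N : ℕ} (L : ℝ) (hL : 4 ≤ L) (r : Fin N) (f : EuclideanSpace ℝ (Fin N))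
    (hf : IsCand L f) (hr : f ≠ L • unit r) : (L - 1) ^ 2 ≤ ‖L • unit r - f‖ ^ 2 := by
  refine le_trans ?_ (sq_le_norm _ r)
  rw [PiLp.sub_apply, PiLp.smul_apply, unit_apply, if_pos rfl, smul_eq_mul, mul_one]
  rcases hf with rfl | ⟨p, rfl | rfl⟩
  · rw [PiLp.zero_apply]
    nlinarith
  · rw [unit_apply]
    split_ifs
    · exact le_rfl
    · nlinarith
  · rw [PiLp.smul_apply, unit_apply]
    split_ifs with h
    · exact absurd (by rw [h]) hr
    · rw [smul_zero]
      nlinarith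

theorem near_dist1 {N : ℕ} (L : ℝ) (hL : 4 ≤ L) (p q : Fin N) (hpq : p ≠ q)
    (f : EuclideanSpace ℝ (Fin N)) (hf : IsCand L f) : 1 ≤ ‖unit p + unit q - f‖ ^ 2 := by
  refine le_trans ?_ (sq_add_sq_le_norm _ p q hpq)
  rw [PiLp.sub_apply, PiLp.sub_apply, PiLp.add_apply, PiLp.add_apply, unit_apply, unit_apply,
    unit_apply, unit_apply, if_pos rfl, if_pos rfl, if_neg hpq, if_neg hpq.symm]
  rcases hf with rfl | ⟨r, rfl | rfl⟩
  · rw [PiLp.zero_apply, PiLp.zero_apply]
    norm_num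
  · rw [unit_apply, unit_apply]
    by_cases h1 : p = r <;> by_cases h2 : q = r
    · exact absurd (h1.trans h2.symm) hpq
    · rw [if_pos h1, if_neg h2]
      norm_num
    · rw [if_neg h1, if_pos h2]
      norm_num
    · rw [if_neg h1, if_neg h2]
      norm_num
  · rw [PiLp.smul_apply, PiLp.smul_apply, unit_apply, unit_apply]
    by_cases h1 : p = r <;> by_cases h2 : q = r
    · exact absurd (h1.trans h2.symm) hpq
    · rw [if_pos h1, if_neg h2, smul_eq_mul, smul_eq_mul]
      nlinarith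
    · rw [if_neg h1, if_pos h2, smul_eq_mul, smul_eq_mul]
      nlinarith
    · rw [if_neg h1, if_neg h2, smul_eq_mul]
      norm_num

theorem near_dist2 {N : ℕ} (L : ℝ) (hL : 4 ≤ L) (p q : Fin N) (hpq : p ≠ q)
    (f : EuclideanSpace ℝ (Fin N)) (hf : IsCand L f) (hp : f ≠ unit p) (hq : f ≠ unit q) :
    2 ≤ ‖unit p + unit q - f‖ ^ 2 := by
  refine le_trans ?_ (sq_add_sq_le_norm _ p q hpq)
  rw [PiLp.sub_apply, PiLp.sub_apply, PiLp.add_apply, PiLp.add_apply, unit_apply, unit_apply,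
    unit_apply, unit_apply, if_pos rfl, if_pos rfl, if_neg hpq, if_neg hpq.symm]
  rcases hf with rfl | ⟨r, rfl | rfl⟩
  · rw [PiLp.zero_apply, PiLp.zero_apply]
    norm_num
  · rw [unit_apply, unit_apply]
    have h1 : p ≠ r := fun h => hp (by rw [h])
    have h2 : q ≠ r := fun h => hq (by rw [h])
    rw [if_neg h1, if_neg h2]
    norm_num
  · rw [PiLp.smul_apply, PiLp.smul_apply, unit_apply, unit_apply]
    by_cases h1 : p = r <;> by_cases h2 : q = r
    · exact absurd (h1.trans h2.symm) hpq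
    · rw [if_pos h1, if_neg h2, smul_eq_mul, smul_eq_mul]
      nlinarith
    · rw [if_neg h1, if_pos h2, smul_eq_mul, smul_eq_mul]
      nlinarith
    · rw [if_neg h1, if_neg h2, smul_eq_mul]
      norm_num

theorem unit_ne_far {N : ℕ} (L : ℝ) (hL : 4 ≤ L) (p r : Fin N) :
    (unit p : EuclideanSpace ℝ (Fin N)) ≠ L • unit r := by
  intro h
  have h1 := congrArg (fun v : EuclideanSpace ℝ (Fin N) => v r) h
  simp only [PiLp.smul_apply, unit_apply, if_true, smul_eq_mul, mul_one] at h1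
  split_ifs at h1 <;> linarith

theorem unit_inj {N : ℕ} (p r : Fin N) (h : (unit p : EuclideanSpace ℝ (Fin N)) = unit r) :
    p = r := by
  have h1 := congrArg (fun v : EuclideanSpace ℝ (Fin N) => v p) h
  simp only [unit_apply, if_true] at h1
  by_contra hcon
  rw [if_neg hcon] at h1
  exact one_ne_zero h1

theorem far_inj {N : ℕ} (L : ℝ) (hL : 4 ≤ L) (p r : Fin N)
    (h : L • (unit p : EuclideanSpace ℝ (Fin N)) = L • unit r) : p = r :=
  unit_inj p r (smul_right_injective _ (by positivity : L ≠ 0) h)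

/-! ### Costs -/

variable {m M : ℕ}

theorem bdd (I : KInst m M) (Z : Finset (EuclideanSpace ℝ (Fin I.N))) (j : Fin M) :
    BddBelow (Set.range fun z : Z => ‖I.cl j - z.1‖ ^ 2) :=
  ⟨0, by rintro _ ⟨z, rfl⟩; positivity⟩

theorem cost_nonneg (I : KInst m M) (Z : Finset (EuclideanSpace ℝ (Fin I.N))) : 0 ≤ I.cost Z :=
  Finset.sum_nonneg fun _ _ => Real.iInf_nonneg fun _ => by positivity

theorem cost_le (I : KInst m M) (Z : Finset (EuclideanSpace ℝ (Fin I.N))) (d : Fin M → ℝ)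
    (h : ∀ j ∈ I.clients, ∃ z ∈ Z, ‖I.cl j - z‖ ^ 2 ≤ d j) : I.cost Z ≤ ∑ j ∈ I.clients, d j := by
  refine Finset.sum_le_sum fun j hj => ?_
  obtain ⟨z, hz, hd⟩ := h j hj
  exact (ciInf_le (bdd I Z j) ⟨z, hz⟩).trans hd

theorem opt_le (I : KInst m M) (k : ℕ) (Z : Finset (EuclideanSpace ℝ (Fin I.N)))
    (h : Z.Nonempty) (hk : Z.card ≤ k) : I.opt k ≤ I.cost Z := by
  unfold KInst.opt
  exact ciInf_le (f := fun Z : {Z : Finset (EuclideanSpace ℝ (Fin I.N)) //
    Z.Nonempty ∧ Z.card ≤ k} => I.cost Z.1) ⟨0, by rintro _ ⟨z, rfl⟩; exact cost_nonneg I z.1⟩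
    ⟨Z, h, hk⟩

theorem cost_nearest (I : KInst m M) (S : Finset (Fin m)) (σ : Fin M → Fin m)
    (h : I.Nearest S σ) : I.cost (I.centres S) = ∑ j ∈ I.clients, ‖I.cl j - I.fac (σ j)‖ ^ 2 := by
  classical
  refine Finset.sum_congr rfl fun j hj => ?_
  have hm : I.fac (σ j) ∈ I.centres S := by
    unfold KInst.centres
    exact Finset.mem_image_of_mem _ (h.1 j)
  have : Nonempty (I.centres S) := ⟨⟨_, hm⟩⟩
  refine le_antisymm (ciInf_le (bdd I _ j) ⟨_, hm⟩) (le_ciInf ?_)
  rintro ⟨z, hz⟩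
  unfold KInst.centres at hz
  obtain ⟨i, hi, rfl⟩ := Finset.mem_image.1 hz
  exact pow_le_pow_left₀ (norm_nonneg _) (h.2 j hj i hi) 2

theorem mem_far (I : KInst m M) (p : Fin I.N) :
    p ∈ I.far ↔ ∃ j ∈ I.clients, I.cl j = (4 * (M : ℝ) + 4) • unit p := by
  unfold KInst.far
  simp

/-! ### The rounding -/

theorem three_quarters (a b c : ℝ) (ha : 0 ≤ a) (hb : 0 ≤ b) (hc : c ≤ 1) (hab : c ≤ a + b) :
    3 / 4 * c ≤ min a 1 + min b 1 - min a 1 * min b 1 := by
  rcases le_total 1 a with h1 | h1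
  · rw [min_eq_right h1]
    linarith
  rcases le_total 1 b with h2 | h2
  · rw [min_eq_right h2]
    linarith
  rw [min_eq_left h1, min_eq_left h2]
  rcases le_total (a + b) 1 with h | h
  · nlinarith [sq_nonneg (a - b)]
  · nlinarith [sq_nonneg (a - b)]

theorem core {N : ℕ} {T : Type} [Fintype T] (P Q : T → Fin N) (hPQ : ∀ j, P j ≠ Q j)
    (yl : Fin N → ℝ) (hyl : ∀ p, 0 ≤ yl p) (c : T → ℝ) (hc0 : ∀ j, 0 ≤ c j)
    (hc1 : ∀ j, c j ≤ 1) (hc2 : ∀ j, c j ≤ yl (P j) + yl (Q j)) (κ : ℕ) (hκ : 1 ≤ κ)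
    (D : ℝ) (hD : 0 ≤ D) (hs : ∑ p, yl p ≤ κ + D) (B : ℝ) (hB : (Fintype.card T : ℝ) ≤ B) :
    ∃ A : Finset (Fin N), A.card + 1 ≤ κ ∧
      ∑ j, (if P j ∈ A ∨ Q j ∈ A then (1 : ℝ) else 2) ≤
        (5 / 4 + 3 / (4 * (κ : ℝ))) * (∑ j, (2 - c j) + B * D) := by
  classical
  have hκ' : (1 : ℝ) ≤ κ := by exact_mod_cast hκ
  have hκ0 : (0 : ℝ) < κ := by linarith
  have hden : 0 < (κ : ℝ) + D := by linarith
  obtain ⟨t, ht⟩ : ∃ t : ℝ, t = ((κ : ℝ) - 1) / (κ + D) := ⟨_, rfl⟩
  have ht0 : 0 ≤ t := by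
    rw [ht]
    exact div_nonneg (by linarith) hden.le
  have ht1 : t ≤ 1 := by
    rw [ht, div_le_one hden]
    linarith
  have ht2 : 1 - 1 / (κ : ℝ) - D ≤ t := by
    have e : 1 - t = (1 + D) / (κ + D) := by
      rw [ht]
      field_simp
      ring
    have h1 : (1 + D) / (κ + D) ≤ 1 / κ + D := by
      rw [div_le_iff₀ hden]
      have h2 : (1 / (κ : ℝ) + D) * (κ + D) = 1 + D * (1 / κ) + D * κ + D * D := by
        field_simp
        ring
      rw [h2]
      have h3 : 0 ≤ D * (1 / (κ : ℝ)) := by positivity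
      nlinarith [mul_nonneg hD hD]
    linarith
  obtain ⟨A, hA, hcov⟩ := pip P Q hPQ (κ - 1) (fun p => t * min (yl p) 1)
    (fun p => mul_nonneg ht0 (le_min (hyl p) zero_le_one))
    (fun p => by
      have h1 : min (yl p) 1 ≤ 1 := min_le_right _ _
      have h2 : 0 ≤ min (yl p) 1 := le_min (hyl p) zero_le_one
      nlinarith)
    (by
      have h1 : ∑ p, t * min (yl p) 1 ≤ t * ∑ p, yl p := by
        rw [Finset.mul_sum]
        exact Finset.sum_le_sum fun p _ => mul_le_mul_of_nonneg_left (min_le_left _ _) ht0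
      have h2 : t * ∑ p, yl p ≤ t * (κ + D) := mul_le_mul_of_nonneg_left hs ht0
      have h3 : t * (κ + D) = (κ : ℝ) - 1 := by
        rw [ht, div_mul_cancel₀ _ hden.ne']
      rw [Nat.cast_sub hκ, Nat.cast_one]
      linarith)
  refine ⟨A, by omega, ?_⟩
  have hterm : ∀ j, t * (3 / 4 * c j) ≤
      1 - (1 - t * min (yl (P j)) 1) * (1 - t * min (yl (Q j)) 1) := by
    intro j
    have h1 := three_quarters _ _ _ (hyl (P j)) (hyl (Q j)) (hc1 j) (hc2 j)
    have h2 : 0 ≤ min (yl (P j)) 1 := le_min (hyl _) zero_le_one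
    have h3 : 0 ≤ min (yl (Q j)) 1 := le_min (hyl _) zero_le_one
    have h4 := mul_le_mul_of_nonneg_left h1 ht0
    have h5 := mul_nonneg h2 h3
    have h6 : t * t * (min (yl (P j)) 1 * min (yl (Q j)) 1) ≤
        t * (min (yl (P j)) 1 * min (yl (Q j)) 1) := by
      refine mul_le_mul_of_nonneg_right ?_ h5
      nlinarith
    nlinarith
  have hcard : ((Finset.univ.filter (fun t' : T => P t' ∈ A ∨ Q t' ∈ A)).card : ℝ) =
      ∑ j, (if P j ∈ A ∨ Q j ∈ A then (1 : ℝ) else 0) := by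
    rw [Finset.card_filter, Nat.cast_sum]
    refine Finset.sum_congr rfl fun j _ => ?_
    split_ifs <;> simp
  have hlow : t * (3 / 4 * ∑ j, c j) ≤
      ∑ j, (if P j ∈ A ∨ Q j ∈ A then (1 : ℝ) else 0) := by
    rw [← hcard]
    refine le_trans ?_ hcov
    rw [Finset.mul_sum, Finset.mul_sum]
    exact Finset.sum_le_sum fun j _ => hterm j
  have hsplit : ∑ j, (if P j ∈ A ∨ Q j ∈ A then (1 : ℝ) else 2) =
      2 * Fintype.card T - ∑ j, (if P j ∈ A ∨ Q j ∈ A then (1 : ℝ) else 0) := by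
    have : (2 : ℝ) * Fintype.card T = ∑ j : T, (2 : ℝ) := by
      rw [Finset.sum_const, nsmul_eq_mul, mul_comm, Finset.card_univ]
    rw [this, ← Finset.sum_sub_distrib]
    refine Finset.sum_congr rfl fun j _ => ?_
    split_ifs <;> norm_num
  have hsum2 : ∑ j, (2 - c j) = 2 * Fintype.card T - ∑ j, c j := by
    rw [Finset.sum_sub_distrib, Finset.sum_const, nsmul_eq_mul, mul_comm, Finset.card_univ]
  have hC0 : 0 ≤ ∑ j, c j := Finset.sum_nonneg fun j _ => hc0 j
  have hC1 : ∑ j, c j ≤ Fintype.card T := by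
    have h1 : ∑ j, c j ≤ ∑ j : T, (1 : ℝ) := Finset.sum_le_sum fun j _ => hc1 j
    rwa [Finset.sum_const, nsmul_eq_mul, mul_one, Finset.card_univ] at h1
  rw [hsplit, hsum2]
  obtain ⟨Cs, hCs⟩ : ∃ Cs : ℝ, Cs = ∑ j, c j := ⟨_, rfl⟩
  obtain ⟨Mr, hMr⟩ : ∃ Mr : ℝ, Mr = (Fintype.card T : ℝ) := ⟨_, rfl⟩
  rw [← hCs] at hC0 hC1 hlow ⊢
  rw [← hMr] at hC1 hB ⊢
  obtain ⟨κi, hκi⟩ : ∃ κi : ℝ, κi = 1 / (κ : ℝ) := ⟨_, rfl⟩
  have hκi0 : 0 ≤ κi := by
    rw [hκi]
    positivity
  have e34 : 3 / (4 * (κ : ℝ)) = 3 / 4 * κi := by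
    rw [hκi]
    field_simp
  rw [e34]
  rw [← hκi] at ht2
  have g1 : (1 - κi - D) * (3 / 4 * Cs) ≤ t * (3 / 4 * Cs) :=
    mul_le_mul_of_nonneg_right ht2 (by linarith)
  have g2 : D * Cs ≤ D * Mr := mul_le_mul_of_nonneg_left hC1 hD
  have g3 : D * Mr ≤ B * D := by nlinarith
  have g4 : 0 ≤ κi * (Mr - Cs) := mul_nonneg hκi0 (by linarith)
  have hMr0 : 0 ≤ Mr := hC0.trans hC1
  have g5 : 0 ≤ B * D := mul_nonneg (hMr0.trans hB) hD
  have g6 : 0 ≤ κi * (B * D) := mul_nonneg hκi0 g5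
  nlinarith

theorem sum_ite_le' {ι : Type} (s : Finset ι) (p : ι → Prop) [DecidablePred p]
    (hp : ∀ a b, p a → p b → a = b) (y : ℝ) (hy : 0 ≤ y) : ∑ a ∈ s, (if p a then y else 0) ≤ y := by
  classical
  by_cases h : ∃ a ∈ s, p a
  · obtain ⟨a, ha, hpa⟩ := h
    rw [Finset.sum_eq_single a]
    · rw [if_pos hpa]
    · intro b _ hb
      exact if_neg fun h => hb (hp _ _ h hpa)
    · intro h
      exact absurd ha h
  · rw [Finset.sum_eq_zero]
    · exact hy
    · intro a ha
      exact if_neg fun h' => h ⟨a, ha, h'⟩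

end KMUAux

open KMUAux

theorem kmUp (m M k : ℕ) : ∃ (Y : Type) (_ : AddCommGroup Y) (_ : Module ℝ Y) (R : ℕ)
    (A : Fin R → Y →ₗ[ℝ] ℝ) (c : Fin R → ℝ) (pt : Finset (Fin m) → (Fin M → Fin m) → Y),
    R ≤ 2 * (m + 1) * (M + 1) ∧
    (∀ S σ, S.Nonempty → S.card ≤ k → (∀ j, σ j ∈ S) → ∀ i, A i (pt S σ) ≤ c i) ∧
    ∀ I : KInst m M, I.IsGraph → I.far.card < k →
      I.ApproxBy {y | ∀ i, A i y ≤ c i} pt k (5 / 4 + 3 / (4 * ((k : ℝ) - I.far.card))) := by
  classical
  let e := Fintype.equivFin (JU m M)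
  refine ⟨YU m M, inferInstance, inferInstance, Fintype.card (JU m M), fun j => AU m M (e.symm j),
    fun j => CU m M k (e.symm j), PU m M, card_JU m M,
    fun S σ _ hS hσ j => PU_feasible m M k S σ hS hσ (e.symm j), ?_⟩
  intro I hI hk
  refine ⟨∑ j ∈ I.clients, ∑ i, (‖I.cl j - I.fac i‖ ^ 2) • ux m M j i, 0, ?_, ?_⟩
  · intro S σ _ _ hσ
    rw [cost_nearest I S σ hσ]
    simp only [LinearMap.sum_apply, LinearMap.smul_apply, ux_apply, smul_eq_mul, PU, add_zero]
    refine Finset.sum_congr rfl fun j _ => ?_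
    simp
  · intro y hy
    have hy' : ∀ j : JU m M, AU m M j y ≤ CU m M k j := by
      intro j
      have := hy (e j)
      simpa using this
    have hy0 : ∀ i, 0 ≤ y.1 i := by
      intro i
      have := hy' (Sum.inl i)
      simp only [AU, CU, LinearMap.neg_apply, uy_apply] at this
      linarith
    have hyk : ∑ i, y.1 i ≤ k := by
      have := hy' (Sum.inr (Sum.inl ()))
      simpa only [AU, CU, LinearMap.sum_apply, uy_apply] using this
    have hx0 : ∀ j i, 0 ≤ y.2 j i := by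
      intro j i
      have := hy' (Sum.inr (Sum.inr (Sum.inl (j, i))))
      simp only [AU, CU, LinearMap.neg_apply, ux_apply] at this
      linarith
    have hxy : ∀ j i, y.2 j i ≤ y.1 i := by
      intro j i
      have := hy' (Sum.inr (Sum.inr (Sum.inr (Sum.inl (j, i)))))
      simp only [AU, CU, LinearMap.sub_apply, ux_apply, uy_apply] at this
      linarith
    have hx1 : ∀ j, ∑ i, y.2 j i = 1 := by
      intro j
      have h1 := hy' (Sum.inr (Sum.inr (Sum.inr (Sum.inr (Sum.inl j)))))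
      have h2 := hy' (Sum.inr (Sum.inr (Sum.inr (Sum.inr (Sum.inr j)))))
      simp only [AU, CU, LinearMap.neg_apply, LinearMap.sum_apply, ux_apply] at h1 h2
      linarith
    obtain ⟨L, hLdef⟩ : ∃ L : ℝ, L = 4 * (M : ℝ) + 4 := ⟨_, rfl⟩
    have hM0 : (0 : ℝ) ≤ M := Nat.cast_nonneg M
    have hL : 4 ≤ L := by linarith
    have hcand : ∀ i, IsCand L (I.fac i) := by
      intro i
      rw [hLdef]
      exact hI.fac i
    have hfarm : ∀ p, p ∈ I.far ↔ ∃ j ∈ I.clients, I.cl j = L • unit p := by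
      intro p
      rw [hLdef]
      exact mem_far I p
    obtain ⟨κ, hκdef⟩ : ∃ κ : ℕ, κ = k - I.far.card := ⟨_, rfl⟩
    have hκ1 : 1 ≤ κ := by omega
    have hκ2 : (κ : ℝ) = (k : ℝ) - I.far.card := by
      rw [hκdef, Nat.cast_sub hk.le]
    rw [← hκ2]
    have hα : 0 < 5 / 4 + 3 / (4 * (κ : ℝ)) := by positivity
    -- the parts of the objective
    obtain ⟨W, hW⟩ : ∃ W : Fin M → ℝ, W = fun j => ∑ i, ‖I.cl j - I.fac i‖ ^ 2 * y.2 j i :=
      ⟨_, rfl⟩
    have hW0 : ∀ j, 0 ≤ W j := by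
      intro j
      rw [hW]
      exact Finset.sum_nonneg fun i _ => mul_nonneg (by positivity) (hx0 j i)
    have hobj : (∑ j ∈ I.clients, ∑ i, (‖I.cl j - I.fac i‖ ^ 2) • ux m M j i) y + 0 =
        ∑ j ∈ I.clients, W j := by
      rw [hW]
      simp only [LinearMap.sum_apply, LinearMap.smul_apply, ux_apply, smul_eq_mul, add_zero]
    rw [hobj, div_le_iff₀ hα, mul_comm]
    -- near and far clients
    obtain ⟨farC, hfarC⟩ : ∃ farC, farC = I.clients.filter (fun j => ∃ p, I.cl j = L • unit p) :=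
      ⟨_, rfl⟩
    obtain ⟨nearC, hnearC⟩ :
        ∃ nearC, nearC = I.clients.filter (fun j => ¬ ∃ p, I.cl j = L • unit p) := ⟨_, rfl⟩
    have hWs : ∑ j ∈ I.clients, W j = ∑ j ∈ farC, W j + ∑ j ∈ nearC, W j := by
      rw [hfarC, hnearC, Finset.sum_filter_add_sum_filter_not]
    have hnear : ∀ t : {j // j ∈ nearC}, ∃ p q, p ≠ q ∧ I.cl t.1 = unit p + unit q := by
      rintro ⟨j, hj⟩
      rw [hnearC, Finset.mem_filter] at hj
      rcases hI.cl j hj.1 with ⟨p, q, h1, h2, -⟩ | ⟨p, h1, -⟩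
      · exact ⟨p, q, h1, h2⟩
      · rw [← hLdef] at h1
        exact absurd ⟨p, h1⟩ hj.2
    choose P Q hPQ hcl using hnear
    obtain ⟨yl, hyl⟩ : ∃ yl : Fin I.N → ℝ,
      yl = fun p => ∑ i, if I.fac i = unit p then y.1 i else 0 := ⟨_, rfl⟩
    obtain ⟨Yf, hYf⟩ : ∃ Yf : Fin I.N → ℝ,
      Yf = fun p => ∑ i, if I.fac i = L • unit p then y.1 i else 0 := ⟨_, rfl⟩
    obtain ⟨c, hc⟩ : ∃ c : {j // j ∈ nearC} → ℝ,
      c = fun t => ∑ i, if I.fac i = unit (P t) ∨ I.fac i = unit (Q t) then y.2 t.1 i else 0 :=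
      ⟨_, rfl⟩
    obtain ⟨D, hDdef⟩ : ∃ D : ℝ, D = ∑ r ∈ I.far, max 0 (1 - Yf r) := ⟨_, rfl⟩
    have hD0 : 0 ≤ D := by
      rw [hDdef]
      exact Finset.sum_nonneg fun r _ => le_max_left _ _
    have hyl0 : ∀ p, 0 ≤ yl p := by
      intro p
      rw [hyl]
      refine Finset.sum_nonneg fun i _ => ?_
      split_ifs
      · exact hy0 i
      · exact le_rfl
    have hc0 : ∀ t, 0 ≤ c t := by
      intro t
      rw [hc]
      refine Finset.sum_nonneg fun i _ => ?_
      split_ifs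
      · exact hx0 _ i
      · exact le_rfl
    have hc1 : ∀ t, c t ≤ 1 := by
      intro t
      rw [hc, ← hx1 t.1]
      refine Finset.sum_le_sum fun i _ => ?_
      split_ifs
      · exact le_rfl
      · exact hx0 _ i
    have hc2 : ∀ t, c t ≤ yl (P t) + yl (Q t) := by
      intro t
      rw [hc, hyl, ← Finset.sum_add_distrib]
      refine Finset.sum_le_sum fun i _ => ?_
      have h1 := hxy t.1 i
      have h2 := hy0 i
      by_cases hp : I.fac i = unit (P t) <;> by_cases hq : I.fac i = unit (Q t)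
      · rw [if_pos (Or.inl hp), if_pos hp, if_pos hq]
        linarith
      · rw [if_pos (Or.inl hp), if_pos hp, if_neg hq]
        linarith
      · rw [if_pos (Or.inr hq), if_neg hp, if_pos hq]
        linarith
      · rw [if_neg (not_or.2 ⟨hp, hq⟩), if_neg hp, if_neg hq]
        linarith
    have hs : ∑ p, yl p ≤ κ + D := by
      have h1 : ∑ p, yl p + ∑ r ∈ I.far, Yf r ≤ ∑ i, y.1 i := by
        rw [hyl, hYf, Finset.sum_comm, Finset.sum_comm (s := I.far), ← Finset.sum_add_distrib]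
        refine Finset.sum_le_sum fun i _ => ?_
        by_cases h : ∃ p, I.fac i = unit p
        · obtain ⟨p, hp⟩ := h
          have e2 : ∑ r ∈ I.far, (if I.fac i = L • unit r then y.1 i else 0) = 0 := by
            refine Finset.sum_eq_zero fun r _ => if_neg fun h => ?_
            exact unit_ne_far L hL p r (hp.symm.trans h)
          rw [e2, add_zero]
          exact sum_ite_le' _ _ (fun a b ha hb => unit_inj a b (ha.symm.trans hb)) _ (hy0 i)
        · have e1 : ∑ p, (if I.fac i = unit p then y.1 i else 0) = 0 := by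
            refine Finset.sum_eq_zero fun r _ => if_neg fun h' => h ⟨r, h'⟩
          rw [e1, zero_add]
          exact sum_ite_le' _ _ (fun a b ha hb => far_inj L hL a b (ha.symm.trans hb)) _ (hy0 i)
      have h2 : (I.far.card : ℝ) - ∑ r ∈ I.far, Yf r ≤ D := by
        have e : (I.far.card : ℝ) = ∑ r ∈ I.far, (1 : ℝ) := by
          rw [Finset.sum_const, nsmul_eq_mul, mul_one]
        rw [e, ← Finset.sum_sub_distrib, hDdef]
        exact Finset.sum_le_sum fun r _ => le_max_right _ _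
      rw [hκ2]
      linarith
    have hB : (Fintype.card {j // j ∈ nearC} : ℝ) ≤ (L - 1) ^ 2 := by
      have h1 : Fintype.card {j // j ∈ nearC} ≤ M := by
        rw [Fintype.card_coe]
        exact (Finset.card_le_univ _).trans_eq (Fintype.card_fin M)
      have h2 : (Fintype.card {j // j ∈ nearC} : ℝ) ≤ M := by exact_mod_cast h1
      rw [hLdef]
      nlinarith
    obtain ⟨A, hA, hcost⟩ := core P Q hPQ yl hyl0 c hc0 hc1 hc2 κ hκ1 D hD0 hs ((L - 1) ^ 2) hB
    -- the near part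
    have hWnear : ∑ t, (2 - c t) ≤ ∑ j ∈ nearC, W j := by
      rw [← Finset.sum_coe_sort nearC W]
      refine Finset.sum_le_sum fun t _ => ?_
      have e : 2 - c t = ∑ i, (2 * y.2 t.1 i -
          (if I.fac i = unit (P t) ∨ I.fac i = unit (Q t) then y.2 t.1 i else 0)) := by
        rw [Finset.sum_sub_distrib, ← Finset.mul_sum, hx1 t.1, hc, mul_one]
      rw [e, hW]
      refine Finset.sum_le_sum fun i _ => ?_
      have h0 := hx0 t.1 i
      rw [hcl t]
      by_cases h : I.fac i = unit (P t) ∨ I.fac i = unit (Q t)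
      · rw [if_pos h]
        have h1 := mul_le_mul_of_nonneg_right
          (near_dist1 L hL (P t) (Q t) (hPQ t) (I.fac i) (hcand i)) h0
        linarith
      · rw [if_neg h]
        rw [not_or] at h
        have h1 := mul_le_mul_of_nonneg_right
          (near_dist2 L hL (P t) (Q t) (hPQ t) (I.fac i) (hcand i) h.1 h.2) h0
        linarith
    -- the far part
    have hWfar : (L - 1) ^ 2 * D ≤ ∑ j ∈ farC, W j := by
      have hch : ∀ r : {r // r ∈ I.far}, ∃ j ∈ I.clients, I.cl j = L • unit r.1 :=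
        fun r => (hfarm r.1).1 r.2
      choose f hf1 hf2 using hch
      have hfinj : Function.Injective f := by
        intro a b hab
        have h1 := hf2 a
        rw [hab, hf2 b] at h1
        exact Subtype.ext (far_inj L hL _ _ h1).symm
      have h1 : ∑ r : {r // r ∈ I.far}, W (f r) ≤ ∑ j ∈ farC, W j := by
        rw [← Finset.sum_image (s := Finset.univ) (g := f) (f := W)
          (fun a _ b _ hab => hfinj hab)]
        refine Finset.sum_le_sum_of_subset_of_nonneg ?_ fun j _ _ => hW0 j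
        intro j hj
        obtain ⟨r, -, rfl⟩ := Finset.mem_image.1 hj
        rw [hfarC, Finset.mem_filter]
        exact ⟨hf1 r, r.1, hf2 r⟩
      refine le_trans ?_ h1
      rw [hDdef, Finset.mul_sum, ← Finset.sum_coe_sort I.far (fun r => (L - 1) ^ 2 * max 0 (1 - Yf r))]
      refine Finset.sum_le_sum fun r _ => ?_
      rcases le_total (1 - Yf r.1) 0 with h | h
      · rw [max_eq_left h, mul_zero]
        exact hW0 _
      · rw [max_eq_right h]
        have h2 : 1 - Yf r.1 ≤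
            ∑ i, (if I.fac i = L • unit r.1 then 0 else y.2 (f r) i) := by
          rw [← hx1 (f r), hYf, ← Finset.sum_sub_distrib]
          refine Finset.sum_le_sum fun i _ => ?_
          have h1 := hxy (f r) i
          split_ifs <;> linarith
        have h3 : (L - 1) ^ 2 * ∑ i, (if I.fac i = L • unit r.1 then 0 else y.2 (f r) i) ≤
            W (f r) := by
          rw [hW, Finset.mul_sum]
          refine Finset.sum_le_sum fun i _ => ?_
          rw [hf2 r]
          split_ifs with hi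
          · rw [mul_zero]
            exact mul_nonneg (by positivity) (hx0 _ _)
          · exact mul_le_mul_of_nonneg_right (far_dist L hL r.1 (I.fac i) (hcand i) hi) (hx0 _ _)
        exact (mul_le_mul_of_nonneg_left h2 (sq_nonneg _)).trans h3
    -- the centres
    obtain ⟨Z, hZ⟩ : ∃ Z : Finset (EuclideanSpace ℝ (Fin I.N)),
        Z = insert 0 (A.image unit ∪ I.far.image (fun r => L • unit r)) := ⟨_, rfl⟩
    have hZne : Z.Nonempty := by
      rw [hZ]
      exact Finset.insert_nonempty _ _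
    have hZk : Z.card ≤ k := by
      rw [hZ]
      refine (Finset.card_insert_le _ _).trans ?_
      have h1 := Finset.card_union_le (A.image (unit (N := I.N)))
        (I.far.image (fun r => L • unit r))
      have h2 : (A.image (unit (N := I.N))).card ≤ A.card := Finset.card_image_le
      have h3 : (I.far.image (fun r => L • (unit r : EuclideanSpace ℝ (Fin I.N)))).card ≤
        I.far.card := Finset.card_image_le
      omega
    obtain ⟨d, hd⟩ : ∃ d : Fin M → ℝ, d = fun j => if h : j ∈ nearC then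
      (if P ⟨j, h⟩ ∈ A ∨ Q ⟨j, h⟩ ∈ A then 1 else 2) else 0 := ⟨_, rfl⟩
    have hcostd : I.cost Z ≤ ∑ j ∈ I.clients, d j := by
      refine cost_le I Z d fun j hj => ?_
      rw [hd]
      by_cases hjn : j ∈ nearC
      · simp only [dif_pos hjn]
        have hclj := hcl ⟨j, hjn⟩
        have hne := hPQ ⟨j, hjn⟩
        by_cases hP : P ⟨j, hjn⟩ ∈ A
        · refine ⟨unit (P ⟨j, hjn⟩), ?_, ?_⟩
          · rw [hZ]
            exact Finset.mem_insert_of_mem (Finset.mem_union_left _ (Finset.mem_image_of_mem _ hP))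
          · rw [if_pos (Or.inl hP), hclj, add_sub_cancel_left, norm_unit]
        · by_cases hQ : Q ⟨j, hjn⟩ ∈ A
          · refine ⟨unit (Q ⟨j, hjn⟩), ?_, ?_⟩
            · rw [hZ]
              exact Finset.mem_insert_of_mem
                (Finset.mem_union_left _ (Finset.mem_image_of_mem _ hQ))
            · rw [if_pos (Or.inr hQ), hclj, add_sub_cancel_right, norm_unit]
          · refine ⟨0, ?_, ?_⟩
            · rw [hZ]
              exact Finset.mem_insert_self _ _
            · rw [if_neg (not_or.2 ⟨hP, hQ⟩), hclj, sub_zero, norm_unit_add _ _ hne]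
      · simp only [dif_neg hjn]
        have h1 : ∃ p, I.cl j = L • unit p := by
          by_contra hcon
          refine hjn ?_
          rw [hnearC, Finset.mem_filter]
          exact ⟨hj, hcon⟩
        obtain ⟨p, hp⟩ := h1
        refine ⟨L • unit p, ?_, ?_⟩
        · rw [hZ]
          refine Finset.mem_insert_of_mem (Finset.mem_union_right _ ?_)
          exact Finset.mem_image_of_mem (fun r => L • unit r) ((hfarm p).2 ⟨j, hj, hp⟩)
        · rw [hp, sub_self, norm_zero]
          norm_num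
    have hdsum : ∑ j ∈ I.clients, d j =
        ∑ t : {j // j ∈ nearC}, (if P t ∈ A ∨ Q t ∈ A then (1 : ℝ) else 2) := by
      have h1 : ∑ j ∈ I.clients, d j = ∑ j ∈ nearC, d j := by
        symm
        refine Finset.sum_subset ?_ ?_
        · rw [hnearC]
          exact Finset.filter_subset _ _
        · intro j _ hj
          rw [hd]
          exact dif_neg hj
      rw [h1, ← Finset.sum_coe_sort nearC d]
      refine Finset.sum_congr rfl fun t _ => ?_
      rw [hd]
      exact dif_pos t.2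
    have hfin : I.opt k ≤ (5 / 4 + 3 / (4 * (κ : ℝ))) * (∑ t, (2 - c t) + (L - 1) ^ 2 * D) :=
      (opt_le I k Z hZne hZk).trans (hcostd.trans (hdsum.trans_le hcost))
    refine hfin.trans ?_
    rw [hWs]
    refine mul_le_mul_of_nonneg_left ?_ hα.le
    linarith

end Pool.Agent.Lib.P47k
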