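import Mathlib

/-!
Module Layer (1.2h; Mathlib only). Layer cake for minima over the edges of a graph.
PROOF. For x ∈ [0, 1] the integral over s in (0, 1) of [s < x] is x. With B_s = {w : s < h w}: min (h p) (h q) is the integral of
[p ∈ B_s][q ∈ B_s] and ∑ w, h w is the integral of card B_s. (1) So ∑_t min (h (P t)) (h (Q t)) is the integral of the number of the t with both ends in
B_s, which is at least c ((card B_s/card W)^2 - δ); and the integral of a square over (0, 1) is at least the square of the integral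
(∫ (φ - ∫ φ)^2 ≥ 0). (2) For s ∈ (0, 1) all elements of B_s have h > 0, so the number is at most a card B_s.
-/

open scoped BigOperators

namespace Pool.Agent.Lib.P47k

namespace LayerAux

open MeasureTheory Set

/-- the step function -/
noncomputable def chi (x s : ℝ) : ℝ := if s < x then 1 else 0

lemma chi_anti (x : ℝ) : Antitone (chi x) := by
  intro s s' hs
  unfold chi
  split_ifs with h1 h2
  · exact le_refl _
  · exact absurd (lt_of_le_of_lt hs h1) h2
  · exact zero_le_one
  · exact le_refl _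

lemma chi_nonneg (x s : ℝ) : 0 ≤ chi x s := by
  unfold chi
  split_ifs <;> norm_num

lemma chi_int (x : ℝ) : IntervalIntegrable (chi x) volume 0 1 :=
  (chi_anti x).intervalIntegrable

lemma chi_integral (x : ℝ) (h0 : 0 ≤ x) (h1 : x ≤ 1) : ∫ s in (0 : ℝ)..1, chi x s = x := by
  rw [← intervalIntegral.integral_add_adjacent_intervals (a := 0) (b := x) (c := 1)
    ((chi_anti x).intervalIntegrable) ((chi_anti x).intervalIntegrable)]
  have e1 : ∫ s in (0 : ℝ)..x, chi x s = ∫ s in (0 : ℝ)..x, (1 : ℝ) := by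
    rw [intervalIntegral.integral_of_le h0, intervalIntegral.integral_of_le h0,
      integral_Ioc_eq_integral_Ioo, integral_Ioc_eq_integral_Ioo]
    refine setIntegral_congr_fun measurableSet_Ioo ?_
    intro s hs
    simp only [chi]
    rw [if_pos hs.2]
  have e2 : ∫ s in x..(1 : ℝ), chi x s = ∫ s in x..(1 : ℝ), (0 : ℝ) := by
    rw [intervalIntegral.integral_of_le h1, intervalIntegral.integral_of_le h1]
    refine setIntegral_congr_fun measurableSet_Ioc ?_
    intro s hs
    simp only [chi]
    rw [if_neg (not_lt.2 hs.1.le)]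
  rw [e1, e2]
  simp

lemma sum_integral {ι : Type} (S : Finset ι) (g : ι → ℝ) (h0 : ∀ i, 0 ≤ g i)
    (h1 : ∀ i, g i ≤ 1) : ∫ s in (0 : ℝ)..1, (∑ i ∈ S, chi (g i) s) = ∑ i ∈ S, g i := by
  rw [intervalIntegral.integral_finsetSum (fun i _ => chi_int (g i))]
  exact Finset.sum_congr rfl (fun i _ => chi_integral _ (h0 i) (h1 i))

lemma sum_anti {ι : Type} (S : Finset ι) (g : ι → ℝ) : Antitone (fun s => ∑ i ∈ S, chi (g i) s) := by
  intro s s' hs
  exact Finset.sum_le_sum (fun i _ => chi_anti (g i) hs)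

lemma card_eq_sum {W : Type} [Fintype W] (h : W → ℝ) (s : ℝ) :
    (((Finset.univ : Finset W).filter (fun w => s < h w)).card : ℝ) = ∑ w, chi (h w) s := by
  rw [Finset.card_filter]
  push_cast
  refine Finset.sum_congr rfl (fun w _ => ?_)
  unfold chi
  split_ifs <;> simp

lemma card_pair {W T : Type} [Fintype W] [DecidableEq W] (P Q : T → W) (S : Finset T)
    (h : W → ℝ) (s : ℝ) :
    ((S.filter (fun t => P t ∈ (Finset.univ : Finset W).filter (fun w => s < h w) ∧
      Q t ∈ (Finset.univ : Finset W).filter (fun w => s < h w))).card : ℝ) =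
      ∑ t ∈ S, chi (min (h (P t)) (h (Q t))) s := by
  rw [Finset.card_filter]
  push_cast
  refine Finset.sum_congr rfl (fun t _ => ?_)
  unfold chi
  simp only [Finset.mem_filter, Finset.mem_univ, true_and, lt_min_iff]

end LayerAux

open LayerAux MeasureTheory

theorem layer_lower {W T : Type} [Fintype W] [DecidableEq W] [Fintype T] (P Q : T → W)
    (h : W → ℝ) (h0 : ∀ w, 0 ≤ h w) (h1 : ∀ w, h w ≤ 1) (c δ : ℝ) (hc : 0 ≤ c)
    (hcount : ∀ B : Finset W, c * (((B.card : ℝ) / Fintype.card W) ^ 2 - δ) ≤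
      ((Finset.univ.filter (fun t => P t ∈ B ∧ Q t ∈ B)).card : ℝ)) :
    c * (((∑ w, h w) / Fintype.card W) ^ 2 - δ) ≤ ∑ t, min (h (P t)) (h (Q t)) := by
  set n : ℝ := (Fintype.card W : ℝ) with hn
  have hn0 : 0 ≤ n := by positivity
  set m : ℝ := (∑ w, h w) / n with hm
  have hmin0 : ∀ t, 0 ≤ min (h (P t)) (h (Q t)) := fun t => le_min (h0 _) (h0 _)
  have hmin1 : ∀ t, min (h (P t)) (h (Q t)) ≤ 1 := fun t => (min_le_left _ _).trans (h1 _)
  let φ : ℝ → ℝ := fun s => (∑ w, chi (h w) s) / n
  have hφ0 : ∀ s, 0 ≤ φ s := fun s =>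
    div_nonneg (Finset.sum_nonneg (fun w _ => chi_nonneg _ _)) hn0
  have hφa : Antitone φ := fun s s' hs =>
    div_le_div_of_nonneg_right (sum_anti Finset.univ h hs) hn0
  have hφi : IntervalIntegrable φ volume 0 1 := hφa.intervalIntegrable
  have hφ2a : Antitone (fun s => φ s ^ 2) := fun s s' hs =>
    pow_le_pow_left₀ (hφ0 s') (hφa hs) 2
  have hφ2i : IntervalIntegrable (fun s => φ s ^ 2) volume 0 1 := hφ2a.intervalIntegrable
  have hφm : ∫ s in (0 : ℝ)..1, φ s = m := by
    simp only [φ]
    rw [intervalIntegral.integral_div, sum_integral Finset.univ h h0 h1]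
  -- the square
  have hsq : m ^ 2 ≤ ∫ s in (0 : ℝ)..1, φ s ^ 2 := by
    have h2 : ∫ s in (0 : ℝ)..1, (2 * m * φ s - m ^ 2) ≤ ∫ s in (0 : ℝ)..1, φ s ^ 2 := by
      refine intervalIntegral.integral_mono_on zero_le_one
        ((hφi.const_mul (2 * m)).sub _root_.intervalIntegrable_const) hφ2i ?_
      intro s _
      nlinarith [sq_nonneg (φ s - m)]
    rw [intervalIntegral.integral_sub (hφi.const_mul (2 * m))
      _root_.intervalIntegrable_const, intervalIntegral.integral_const_mul, hφm] at h2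
    simp only [intervalIntegral.integral_const, sub_zero, smul_eq_mul, one_mul] at h2
    nlinarith
  have hN : ∫ s in (0 : ℝ)..1, (∑ t, chi (min (h (P t)) (h (Q t))) s) =
      ∑ t, min (h (P t)) (h (Q t)) := sum_integral Finset.univ _ hmin0 hmin1
  rw [← hN]
  have hmono : ∫ s in (0 : ℝ)..1, c * (φ s ^ 2 - δ) ≤
      ∫ s in (0 : ℝ)..1, (∑ t, chi (min (h (P t)) (h (Q t))) s) := by
    refine intervalIntegral.integral_mono_on zero_le_one
      ((hφ2i.sub _root_.intervalIntegrable_const).const_mul c)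
      (sum_anti Finset.univ _).intervalIntegrable ?_
    intro s _
    have := hcount ((Finset.univ : Finset W).filter (fun w => s < h w))
    rw [card_pair P Q Finset.univ h s, card_eq_sum h s] at this
    exact this
  refine le_trans ?_ hmono
  rw [intervalIntegral.integral_const_mul, intervalIntegral.integral_sub hφ2i
    _root_.intervalIntegrable_const]
  simp only [intervalIntegral.integral_const, sub_zero, smul_eq_mul, one_mul]
  exact mul_le_mul_of_nonneg_left (by linarith) hc

theorem layer_upper {W T : Type} [Fintype W] [DecidableEq W] (P Q : T → W) (S : Finset T)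
    (h : W → ℝ) (h0 : ∀ w, 0 ≤ h w) (h1 : ∀ w, h w ≤ 1) (a : ℝ) (ha : 0 ≤ a)
    (hcount : ∀ B : Finset W, (∀ w ∈ B, 0 < h w) →
      ((S.filter (fun t => P t ∈ B ∧ Q t ∈ B)).card : ℝ) ≤ a * B.card) :
    ∑ t ∈ S, min (h (P t)) (h (Q t)) ≤ a * ∑ w, h w := by
  have hmin0 : ∀ t, 0 ≤ min (h (P t)) (h (Q t)) := fun t => le_min (h0 _) (h0 _)
  have hmin1 : ∀ t, min (h (P t)) (h (Q t)) ≤ 1 := fun t => (min_le_left _ _).trans (h1 _)
  have hN : ∫ s in (0 : ℝ)..1, (∑ t ∈ S, chi (min (h (P t)) (h (Q t))) s) =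
      ∑ t ∈ S, min (h (P t)) (h (Q t)) := sum_integral S _ hmin0 hmin1
  have hW : ∫ s in (0 : ℝ)..1, (∑ w, chi (h w) s) = ∑ w, h w := sum_integral Finset.univ h h0 h1
  rw [← hN, ← hW, ← intervalIntegral.integral_const_mul]
  refine intervalIntegral.integral_mono_on zero_le_one
      (sum_anti S _).intervalIntegrable
      ((sum_anti Finset.univ h).intervalIntegrable.const_mul a) ?_
  intro s hs
  have := hcount ((Finset.univ : Finset W).filter (fun w => s < h w)) (fun w hw =>
    lt_of_le_of_lt hs.1 (Finset.mem_filter.1 hw).2)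
  rw [card_pair P Q S h s, card_eq_sum h s] at this
  exact this

end Pool.Agent.Lib.P47k
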